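import Pool.Agent.H37.TN.Stage

/-! The class, and the correctness of the first phase. -/

set_option autoImplicit false

namespace Pool.Agent.H37.TN

open Matrix Pool.Agent.NPC Pool.Agent.H558R2 Pool.Agent.H622R3.SM Pool.Agent.W920.FC
open Pool.Agent.H37.CH Filter Topology

/-- The column space of `A` is, up to the signs of the coordinates, in the totally nonnegative
Grassmannian. -/
def SignedNonneg (m n : ℕ) (A : Matrix (Fin m) (Fin n) ℝ) : Prop :=
  ∃ (r : ℕ) (T : Matrix (Fin m) (Fin r) ℝ) (P : Matrix (Fin r) (Fin n) ℝ) (δ : Fin m → ℝ),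
    NN T ∧ P.rank = r ∧ (∀ i, δ i ≠ 0) ∧ A = Matrix.diagonal δ * (T * P)

theorem right_inv {r n : ℕ} {P : Matrix (Fin r) (Fin n) ℝ} (h : P.rank = r) :
    ∃ R : Matrix (Fin n) (Fin r) ℝ, P * R = 1 := by
  have h1 : LinearMap.range P.mulVecLin = ⊤ := by
    apply Submodule.eq_top_of_finrank_eq
    rw [Module.finrank_fin_fun]
    exact h
  have h2 : ∀ k : Fin r, ∃ x : Fin n → ℝ, P *ᵥ x = Pi.single k 1 := by
    intro k
    have : Pi.single k (1 : ℝ) ∈ LinearMap.range P.mulVecLin := by
      rw [h1]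
      trivial
    exact this
  choose x hx using h2
  refine ⟨Matrix.of fun j k => x k j, ?_⟩
  ext i k
  have := congrFun (hx k) i
  rw [Matrix.mul_apply, Matrix.one_apply]
  simp only [Matrix.of_apply]
  simp only [Matrix.mulVec, dotProduct, Pi.single_apply] at this
  exact this

variable {m n k : ℕ} {A : Matrix (Fin m) (Fin n) ℝ} {st : IJ} {fI : Fin k → Fin m}
  {fJ : Fin k → Fin n}

theorem mem_edg {s : Key → ℤ} {e : Edg} : e ∈ edg s m st ↔ ∃ i < m, ∃ p < st.1.length,
    relS s st p i ≠ 0 ∧ (e = (i, (st.1.getD p 0, wS s st p i)) ∨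
      e = (st.1.getD p 0, (i, wS s st p i))) := by
  simp only [edg, List.mem_flatMap, List.mem_filter, List.mem_range, List.mem_cons,
    List.not_mem_nil, or_false, decide_eq_true_eq]
  constructor
  · rintro ⟨i, hi, p, ⟨hp, h1⟩, h2⟩
    exact ⟨i, hi, p, hp, h1, h2⟩
  · rintro ⟨i, hi, p, hp, h1, h2⟩
    exact ⟨i, hi, p, ⟨hp, h1⟩, h2⟩

theorem edg_ok (h : RK A st k fI fJ) (s : Key → ℤ) : EdgOK m (edg s m st) := by
  intro e he
  obtain ⟨i, hi, p, hp, h1, h2⟩ := mem_edg.1 he
  have hI : st.1.getD p 0 < m := by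
    have := h.eI ⟨p, by rw [← h.lI]; exact hp⟩
    rw [← this]
    exact (fI _).2
  rcases h2 with rfl | rfl
  · exact ⟨hi, hI, mem_edg.2 ⟨i, hi, p, hp, h1, Or.inr rfl⟩⟩
  · exact ⟨hI, hi, mem_edg.2 ⟨i, hi, p, hp, h1, Or.inl rfl⟩⟩

section

variable (b : Fin m → ℝ) (h : RK A st k fI fJ) {T : Matrix (Fin m) (Fin k) ℝ}
  {P : Matrix (Fin k) (Fin n) ℝ} {δ : Fin m → ℝ} (hT : NN T) (hδ : ∀ i, δ i ≠ 0)
  (hA : A = Matrix.diagonal δ * (T * P))

include h hT hδ hA

theorem edg_valid : Valid (edg (sO (start A b)) m st) (sB δ) := by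
  intro e he
  obtain ⟨i, hi, p, hp, h1, h2⟩ := mem_edg.1 he
  have hpk : p < k := by rw [← h.lI]; exact hp
  have h3 := rel_ok b h hT hδ hA ⟨p, hpk⟩ ⟨i, hi⟩ h1
  have h4 := h.eI ⟨p, hpk⟩
  simp only at h3 h4
  rw [h4] at h3
  rcases h2 with rfl | rfl
  · exact h3.2
  · simp only
    rw [h3.2]
    exact decide_eq_decide.2 eq_comm

omit hT hδ hA in
theorem relS_ne (p : Fin k) (i : Fin m)
    (hd : (A.submatrix (Function.update fI p i) fJ).det ≠ 0) :
    relS (sO (start A b)) st p i ≠ 0 := by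
  obtain ⟨k', rfl⟩ : ∃ k', k = k' + 1 := ⟨k - 1, by have := p.2; omega⟩
  have hlen : (updL st.1 p i).length = k' + 1 := by
    unfold updL
    rw [List.length_map, List.length_range, h.lI]
  unfold relS
  refine mul_ne_zero ?_ ?_
  · exact (sO_keyM_ne A b h.lI h.lJ fI fJ h.eI h.eJ).2 h.det
  · exact (sO_keyM_ne A b hlen h.lJ (Function.update fI p i) fJ (upd_val h.lI h.eI p i) h.eJ).2 hd

/-- The signs found are correct. -/
theorem resign_ok : ∃ (T' : Matrix (Fin m) (Fin k) ℝ) (P' : Matrix (Fin k) (Fin k) ℝ),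
    NN T' ∧ P'.det ≠ 0 ∧
      BJ A fJ (sgnF m (edg (sO (start A b)) m st)) = T' * P' := by
  set S := sgnF m (edg (sO (start A b)) m st) with hS
  let σ : Fin m → ℝ := fun i => if 0 < δ i then 1 else -1
  have hσσ : ∀ i, σ i * σ i = 1 := by
    intro i
    simp only [σ]
    split_ifs <;> norm_num
  have hσ0 : ∀ i, σ i ≠ 0 := fun i h0 => by
    have := hσσ i
    rw [h0, zero_mul] at this
    exact zero_ne_one this
  have hσδ : ∀ i, δ i = σ i * |δ i| := by
    intro i
    simp only [σ]
    split_ifs with h1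
    · rw [abs_of_pos h1, one_mul]
    · rw [abs_of_nonpos (not_lt.1 h1)]
      ring
  set T' : Matrix (Fin m) (Fin k) ℝ := Matrix.diagonal (fun i => |δ i|) * T with hT'
  have hmin : ∀ f : Fin k → Fin m, (T'.submatrix f id).det =
      (∏ q, |δ (f q)|) * (T.submatrix f id).det := by
    intro f
    have e : T'.submatrix f id = Matrix.diagonal (fun q => |δ (f q)|) * T.submatrix f id := by
      ext a c
      rw [hT', Matrix.submatrix_apply, Matrix.diagonal_mul, Matrix.diagonal_mul]
      rfl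
    rw [e, Matrix.det_mul, Matrix.det_diagonal]
  have hNN : NN T' := by
    refine ⟨fun f hf => ?_, ?_⟩
    · rw [hmin]
      exact mul_nonneg (Finset.prod_nonneg fun q _ => abs_nonneg _) (hT.1 f hf)
    · obtain ⟨f, hf, hf2⟩ := hT.2
      refine ⟨f, hf, ?_⟩
      rw [hmin]
      exact mul_pos (Finset.prod_pos fun q _ => abs_pos.2 (hδ _)) hf2
  set PJ : Matrix (Fin k) (Fin k) ℝ := P.submatrix id fJ with hPJ
  have hPJ0 : PJ.det ≠ 0 := by
    intro h0
    apply h.det
    rw [minor_eq hA fI fJ, ← hPJ, h0]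
    ring
  set W := T' * PJ with hW
  have hWA : ∀ i q, W i q = σ i * A i (fJ q) := by
    intro i q
    have e1 : A i (fJ q) = δ i * (T * P) i (fJ q) := by
      rw [hA, Matrix.diagonal_mul]
    have e2 : W i q = |δ i| * (T * P) i (fJ q) := by
      rw [hW, hT', Matrix.mul_assoc, Matrix.diagonal_mul]
      rfl
    rw [e1, e2, hσδ i, abs_mul, abs_abs]
    have : |σ i| = 1 := by
      have := hσσ i
      rw [← abs_mul_abs_self] at this
      nlinarith [abs_nonneg (σ i)]
    rw [this, one_mul]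
    calc |δ i| * (T * P) i (fJ q) = (σ i * σ i) * (|δ i| * (T * P) i (fJ q)) := by
          rw [hσσ, one_mul]
      _ = _ := by ring
  have hWI : W.submatrix fI id = Matrix.diagonal (fun p => σ (fI p)) * A.submatrix fI fJ := by
    ext p q
    rw [Matrix.submatrix_apply, Matrix.diagonal_mul, Matrix.submatrix_apply]
    exact hWA _ _
  have hI : (W.submatrix fI id).det ≠ 0 := by
    rw [hWI, Matrix.det_mul, Matrix.det_diagonal]
    exact mul_ne_zero (Finset.prod_ne_zero_iff.2 fun p _ => hσ0 _) h.det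
  have hAJ : A.submatrix id fJ = Cf A fI fJ * A.submatrix fI fJ := by
    rw [Cf, Matrix.nonsing_inv_mul_cancel_right _ _ (isUnit_iff_ne_zero.2 h.det)]
  set C : Matrix (Fin m) (Fin k) ℝ := Matrix.of fun i p => σ i * Cf A fI fJ i p * σ (fI p)
    with hC
  have hWC : W = C * W.submatrix fI id := by
    ext i q
    rw [Matrix.mul_apply, hWA]
    have e1 := congrFun (congrFun hAJ i) q
    rw [Matrix.submatrix_apply, Matrix.mul_apply] at e1
    simp only [id] at e1
    rw [e1, Finset.mul_sum]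
    refine Finset.sum_congr rfl fun p _ => ?_
    rw [Matrix.submatrix_apply, Matrix.submatrix_apply]
    simp only [id, hWA, hC, Matrix.of_apply]
    calc σ i * (Cf A fI fJ i p * A (fI p) (fJ q)) =
        (σ (fI p) * σ (fI p)) * (σ i * (Cf A fI fJ i p * A (fI p) (fJ q))) := by
          rw [hσσ, one_mul]
      _ = _ := by ring
  have hrel : ∀ i p, C i p ≠ 0 → sR S i * σ i = sR S (fI p) * σ (fI p) := by
    intro i p hCne
    have hcf : Cf A fI fJ i p ≠ 0 := by
      intro h0
      apply hCne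
      simp only [hC, Matrix.of_apply, h0]
      ring
    have hdet : (A.submatrix (Function.update fI p i) fJ).det ≠ 0 := by
      have hc : (fun q => A i (fJ q)) = ∑ p, Cf A fI fJ i p • (fun q => A (fI p) (fJ q)) := by
        funext q
        have e1 := congrFun (congrFun hAJ i) q
        rw [Matrix.submatrix_apply, Matrix.mul_apply] at e1
        simp only [id, Matrix.submatrix_apply] at e1
        rw [e1, Finset.sum_apply]
        rfl
      have e2 := det_coord (E := Fin m) (v := fun i q => A i (fJ q)) (V := fI) hc p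
      have e3 : (mat (fun i q => A i (fJ q)) fI).updateRow p (fun q => A i (fJ q)) =
          A.submatrix (Function.update fI p i) fJ := by
        ext a c
        simp only [mat, Matrix.updateRow_apply, Matrix.submatrix_apply, Matrix.of_apply]
        by_cases ha : a = p
        · rw [if_pos ha, ha, Function.update_self]
        · rw [if_neg ha, Function.update_of_ne ha]
      rw [e3] at e2
      rw [e2]
      exact mul_ne_zero hcf h.det
    have hne := relS_ne b h p i hdet
    have hw := (rel_ok b h hT hδ hA p i hne).2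
    have hmem : ((i : ℕ), (st.1.getD p 0, wS (sO (start A b)) st p i)) ∈
        edg (sO (start A b)) m st :=
      mem_edg.2 ⟨i, i.2, p, by rw [h.lI]; exact p.2, hne, Or.inl rfl⟩
    obtain ⟨x, y, hx, hy, hxy⟩ := sgnF_ok (edg_ok h _) ⟨_, edg_valid b h hT hδ hA⟩ _ hmem
    simp only at hx hy hxy
    rw [← h.eI p] at hy
    rw [hw, sB_fin, sB_fin] at hxy
    have hxy := decide_eq_decide.1 hxy
    rw [decide_eq_decide] at hxy
    have e1 : sR S i = if x = false then -1 else 1 := by
      unfold sR neg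
      rw [hS, hx]
      cases x <;> simp
    have e2 : sR S (fI p) = if y = false then -1 else 1 := by
      unfold sR neg
      rw [hS, hy]
      cases y <;> simp
    rw [e1, e2]
    simp only [σ]
    by_cases a1 : 0 < δ i <;> by_cases a2 : 0 < δ (fI p)
    · rw [if_pos a1, if_pos a2, hxy.1 ⟨fun _ => a2, fun _ => a1⟩]
    · rw [if_pos a1, if_neg a2]
      have : x ≠ y := fun h => a2 ((hxy.2 h).1 a1)
      cases x <;> cases y <;> first | exact absurd rfl this | norm_num
    · rw [if_neg a1, if_pos a2]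
      have : x ≠ y := fun h => a1 ((hxy.2 h).2 a2)
      cases x <;> cases y <;> first | exact absurd rfl this | norm_num
    · rw [if_neg a1, if_neg a2, hxy.1 ⟨fun h => absurd h a1, fun h => absurd h a2⟩]
  obtain ⟨P'', h1, h2⟩ := resign (W := W) (τ := fun i => sR S i * σ i) rfl hPJ0 hI hWC
    (fun i => mul_ne_zero (fun h0 => by
      have := sR_abs S i
      rw [h0, abs_zero] at this
      exact zero_ne_one this) (hσ0 i)) hrel
  refine ⟨T', P'', hNN, h1, ?_⟩
  rw [← h2]
  ext i q
  rw [Matrix.diagonal_mul, hWA]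
  simp only [BJ, Matrix.of_apply]
  calc sR S i * A i (fJ q) = (σ i * σ i) * (sR S i * A i (fJ q)) := by rw [hσσ, one_mul]
    _ = _ := by ring

end

/-- **The first phase is correct.** -/
theorem stage_ok (hA : SignedNonneg m n A) (b : Fin m → ℝ) (h : RK A st k fI fJ)
    (hb : ∀ i j, bdet A fI fJ i j = 0) :
    ∃ (T' : Matrix (Fin m) (Fin k) ℝ) (P' : Matrix (Fin k) (Fin k) ℝ),
      NN T' ∧ P'.det ≠ 0 ∧
        BJ A fJ (sgnF m (edg (sO (start A b)) m st)) = T' * P' := by
  obtain ⟨ρ, T, P, δ, hT, hP, hδ, hA⟩ := hA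
  obtain ⟨R, hR⟩ := right_inv hP
  obtain ⟨f, hf, hf2⟩ := hT.2
  have hdet : ((Matrix.diagonal δ * T).submatrix f id).det ≠ 0 := by
    have e : (Matrix.diagonal δ * T).submatrix f id =
        Matrix.diagonal (fun q => δ (f q)) * T.submatrix f id := by
      ext a c
      rw [Matrix.submatrix_apply, Matrix.diagonal_mul, Matrix.diagonal_mul]
      rfl
    rw [e, Matrix.det_mul, Matrix.det_diagonal]
    exact mul_ne_zero (Finset.prod_ne_zero_iff.2 fun q _ => hδ _) hf2.ne'
  have hkρ := rank_eq A fI fJ h.det hb (Matrix.diagonal δ * T) P R hR f hdet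
    (by rw [hA, Matrix.mul_assoc])
  subst hkρ
  exact resign_ok b h hT hδ hA

/-- The perturbed instance is feasible if and only if the instance is. -/
theorem final_iff (b : Fin m → ℝ) (h : RK A st k fI fJ) (hb : ∀ i j, bdet A fI fJ i j = 0)
    (S : List Outcome) : ∀ᶠ δ in 𝓝[>] (0 : ℝ),
      ((∃ x : Fin k → ℝ, ∀ i, bd b δ i ≤ (Ad (BJ A fJ S) (fun i => sR S i) δ *ᵥ x) i) ↔
        ∃ x : Fin n → ℝ, ∀ i, b i ≤ (A *ᵥ x) i) := by
  have h1 := pert_iff (BJ A fJ S) (fun i : Fin m => sR S i) b fun i => sR_abs S i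
  filter_upwards [h1] with δ h2
  rw [feas_iff, h2, ← reduce_iff A fI fJ h.det hb b]
  have e : ∀ (x : Fin k → ℝ) (i : Fin m), sR S i * (BJ A fJ S *ᵥ x) i =
      (A.submatrix id fJ *ᵥ x) i := by
    intro x i
    simp only [BJ, Matrix.mulVec, dotProduct, Matrix.of_apply, Finset.mul_sum,
      Matrix.submatrix_apply, id]
    refine Finset.sum_congr rfl fun q _ => ?_
    have : sR S i * sR S i = 1 := by
      unfold sR
      split_ifs <;> norm_num
    calc sR S i * (sR S i * A i (fJ q) * x q) = (sR S i * sR S i) * (A i (fJ q) * x q) := by ring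
      _ = _ := by rw [this, one_mul]
  simp only [e]

end Pool.Agent.H37.TN
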