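import Pool.Agent.H37.TN.RunA

/-! The algorithm is controlled in polynomial time. -/

set_option autoImplicit false

namespace Pool.Agent.H37.TN

open Pool.Agent.NPC Pool.Agent.H558R2 Pool.Agent.H622R3.SM Pool.Agent.W920.FC
open Pool.Agent.H37.CH

variable {α : Type} [TEnc α]

attribute [local fun_prop] NPC.Poly.range_length NPC.Poly.imul NPC.Poly.ile NPC.Poly.ilt

theorem pkeyM {I J : α → List ℕ} (hI : Poly I) (hJ : Poly J) :
    Poly (fun a => keyM (I a) (J a)) := by
  unfold keyM
  fun_prop

attribute [local fun_prop] pkeyM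

theorem pcand {U V : α → List Unit} (hU : Poly U) (hV : Poly V) :
    Poly (fun a => cand (U a).length (V a).length) := by
  unfold cand
  fun_prop

theorem pbord {st : α → IJ} {p : α → ℕ × ℕ} (hst : Poly st) (hp : Poly p) :
    Poly (fun a => bord (st a) (p a)) := by
  unfold bord
  fun_prop

attribute [local fun_prop] pcand pbord

theorem prankK {U V : α → List Unit} {st : α → IJ} (hU : Poly U) (hV : Poly V)
    (hst : Poly st) : Poly (fun a => rankK (U a).length (V a).length (st a)) := by
  unfold rankK
  fun_prop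

theorem pupdL {I : α → List ℕ} {p i : α → ℕ} (hI : Poly I) (hp : Poly p) (hi : Poly i) :
    Poly (fun a => updL (I a) (p a) (i a)) := by
  unfold updL
  fun_prop

theorem pkapN {I : α → List ℕ} {p i : α → ℕ} (hI : Poly I) (hp : Poly p) (hi : Poly i) :
    Poly (fun a => kapN (I a) (p a) (i a)) := by
  unfold kapN
  fun_prop

attribute [local fun_prop] prankK pupdL pkapN

section

variable {s : α → Key → ℤ} {U V : α → List Unit} {st : α → IJ}

theorem prankS (hs : Poly (fun p : α × Key => s p.1 p.2)) (hU : Poly U) (hV : Poly V)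
    (hst : Poly st) : Poly (fun a => rankS (s a) (U a).length (V a).length (st a)) := by
  unfold rankS
  fun_prop

theorem prelS (hs : Poly (fun p : α × Key => s p.1 p.2)) (hst : Poly st) {p i : α → ℕ}
    (hp : Poly p) (hi : Poly i) : Poly (fun a => relS (s a) (st a) (p a) (i a)) := by
  unfold relS
  fun_prop

attribute [local fun_prop] prelS

theorem pwS (hs : Poly (fun p : α × Key => s p.1 p.2)) (hst : Poly st) {p i : α → ℕ}
    (hp : Poly p) (hi : Poly i) : Poly (fun a => wS (s a) (st a) (p a) (i a)) := by
  unfold wS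
  fun_prop

attribute [local fun_prop] pwS

theorem pedg (hs : Poly (fun p : α × Key => s p.1 p.2)) (hU : Poly U) (hst : Poly st) :
    Poly (fun a => edg (s a) (U a).length (st a)) := by
  unfold edg
  fun_prop

theorem psgnK (hU : Poly U) (hst : Poly st) :
    Poly (fun a => sgnK (U a).length (st a)) := by
  unfold sgnK
  fun_prop

theorem pasg (hU : Poly U) {S : α → Asg} {x : α → ℕ} {y : α → Bool} (hS : Poly S) (hx : Poly x)
    (hy : Poly y) : Poly (fun a => asg (U a).length (S a) (x a) (y a)) := by
  unfold asg
  fun_prop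

attribute [local fun_prop] pasg

theorem pstp (hU : Poly U) {E : α → List Edg} {S : α → Asg} (hE : Poly E) (hS : Poly S) :
    Poly (fun a => stp (U a).length (E a) (S a)) := by
  unfold stp
  fun_prop

theorem pzeroK (hU : Poly U) : Poly (fun a => zeroK (U a).length) := by
  unfold zeroK keyZ
  fun_prop

theorem pzeroF (hs : Poly (fun p : α × Key => s p.1 p.2)) (hU : Poly U) :
    Poly (fun a => zeroF (s a) (U a).length) := by
  unfold zeroF keyZ
  fun_prop

theorem pex {i l : α → ℕ} (hi : Poly i) (hl : Poly l) : Poly (fun a => ex (i a) (l a)) := by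
  unfold ex
  fun_prop

theorem pneg {S : α → List Outcome} {i : α → ℕ} (hS : Poly S) (hi : Poly i) :
    Poly (fun a => neg (S a) (i a)) := by
  unfold neg
  fun_prop

attribute [local fun_prop] pex pneg

theorem ppick (hU : Poly U) {c i k : α → ℕ} (hc : Poly c) (hi : Poly i) (hk : Poly k) :
    Poly (fun a => pick (U a).length (c a) (i a) (k a)) := by
  unfold pick
  fun_prop

attribute [local fun_prop] ppick

theorem pbcA (hU : Poly U) {J : α → List ℕ} {S : α → List Outcome} {i q k : α → ℕ} (hJ : Poly J)
    (hS : Poly S) (hi : Poly i) (hq : Poly q) (hk : Poly k) :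
    Poly (fun a => bcA (U a).length (J a) (S a) (i a) (q a) (k a)) := by
  unfold bcA
  fun_prop

theorem pbcB (hU : Poly U) {i k : α → ℕ} (hi : Poly i) (hk : Poly k) :
    Poly (fun a => bcB (U a).length (i a) (k a)) := by
  unfold bcB
  fun_prop

theorem pheadD' {r : α → Reg} (h : Poly r) : Poly (fun a => (r a).headD 0) :=
  Pool.Agent.Y648.CS.TQQ.pheadD h

attribute [local fun_prop] pbcA pbcB pheadD'

theorem pbcf (hU : Poly U) {J : α → List ℕ} {S : α → List Outcome} {r : α → Reg} {k : α → ℕ}
    (hJ : Poly J) (hS : Poly S) (hr : Poly r) (hk : Poly k) :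
    Poly (fun a => bcf (U a).length (J a) (S a) (r a) (k a)) := by
  unfold bcf
  fun_prop

end

end Pool.Agent.H37.TN
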