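import Pool.Agent.H37.TN.Cls
import Pool.Agent.H37.CH.TP

/-! Examples: totally nonnegative matrices, and linear programs in standard form. -/

set_option autoImplicit false

namespace Pool.Agent.H37.TN

open Matrix Pool.Agent.H37.CH

variable {m n : ℕ}

theorem rank_fact (A : Matrix (Fin m) (Fin n) ℝ) :
    ∃ (r : ℕ) (g : Fin r → Fin n) (Q : Matrix (Fin r) (Fin n) ℝ) (c : Fin r → Fin m),
      StrictMono g ∧ StrictMono c ∧ (A.submatrix c g).det ≠ 0 ∧ Q.rank = r ∧
        A = A.submatrix id g * Q := by
  obtain ⟨r, fI, fJ, h, hb⟩ := rk_final A 0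
  have hd := h.det
  have hI : Function.Injective fI := by
    by_contra hc
    rw [Function.not_injective_iff] at hc
    obtain ⟨a, c, h1, h2⟩ := hc
    exact hd (Matrix.det_zero_of_row_eq h2
      (funext fun q => by simp only [Matrix.submatrix_apply, h1]))
  have hJ : Function.Injective fJ := by
    by_contra hc
    rw [Function.not_injective_iff] at hc
    obtain ⟨a, c, h1, h2⟩ := hc
    exact hd (Matrix.det_zero_of_column_eq h2
      (fun q => by simp only [Matrix.submatrix_apply, h1]))
  set σ := Tuple.sort fJ with hσ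
  set τ := Tuple.sort fI with hτ
  set Q0 := (A.submatrix fI fJ)⁻¹ * A.submatrix fI id with hQ0
  have e0 : A = A.submatrix id fJ * Q0 := schur' A fI fJ hd hb
  have e1 : A = A.submatrix id (fun q => fJ (σ q)) * Q0.submatrix σ id := by
    have := Matrix.submatrix_mul_equiv (A.submatrix id fJ) Q0 id σ id
    rw [← e0] at this
    exact this.symm
  have hdet : (A.submatrix (fun p => fI (τ p)) (fun q => fJ (σ q))).det ≠ 0 := by
    have e2 : A.submatrix (fun p => fI (τ p)) (fun q => fJ (σ q)) =
        ((A.submatrix fI fJ).submatrix τ id).submatrix id σ := rfl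
    rw [e2, Matrix.det_permute', Matrix.det_permute]
    refine mul_ne_zero ?_ (mul_ne_zero ?_ hd)
    · exact_mod_cast (Equiv.Perm.sign σ).ne_zero
    · exact_mod_cast (Equiv.Perm.sign τ).ne_zero
  refine ⟨r, fun q => fJ (σ q), Q0.submatrix σ id, fun p => fI (τ p), sort_mono hJ, sort_mono hI,
    hdet, ?_, e1⟩
  refine le_antisymm (Matrix.rank_le_height _) ?_
  set Q := Q0.submatrix σ id with hQ
  have h1 : (A.submatrix (fun p => fI (τ p)) (fun q => fJ (σ q))).rank = r := by
    have := Matrix.rank_of_isUnit _ ((Matrix.isUnit_iff_isUnit_det _).2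
      (isUnit_iff_ne_zero.2 hdet))
    simpa using this
  set E : Matrix (Fin n) (Fin r) ℝ := Matrix.of fun j q => if j = fJ (σ q) then 1 else 0 with hE
  have h2 : ∀ i j, A (fI (τ i)) (fJ (σ j)) =
      (A.submatrix (fun p => fI (τ p)) (fun q => fJ (σ q)) * (Q * E)) i j := by
    intro i j
    rw [← Matrix.mul_assoc, Matrix.mul_apply, Finset.sum_eq_single (fJ (σ j))]
    · rw [hE, Matrix.of_apply, if_pos rfl, mul_one, Matrix.mul_apply]
      have := congrFun (congrFun e1 (fI (τ i))) (fJ (σ j))
      rw [Matrix.mul_apply] at this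
      exact this
    · intro b _ hb
      rw [hE, Matrix.of_apply, if_neg hb, mul_zero]
    · exact fun h => absurd (Finset.mem_univ _) h
  have h3 : A.submatrix (fun p => fI (τ p)) (fun q => fJ (σ q)) =
      A.submatrix (fun p => fI (τ p)) (fun q => fJ (σ q)) * (Q * E) := by
    ext i j
    exact h2 i j
  calc r = (A.submatrix (fun p => fI (τ p)) (fun q => fJ (σ q))).rank := h1.symm
    _ = (A.submatrix (fun p => fI (τ p)) (fun q => fJ (σ q)) * (Q * E)).rank := by rw [← h3]
    _ ≤ (Q * E).rank := Matrix.rank_mul_le_right _ _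
    _ ≤ Q.rank := Matrix.rank_mul_le_left _ _

/-- All minors of `T` are nonnegative. -/
def TotNonneg {m n : ℕ} (T : Fin m → Fin n → ℝ) : Prop :=
  ∀ (r : ℕ) (f : Fin r → Fin m) (g : Fin r → Fin n), StrictMono f → StrictMono g →
    0 ≤ (Matrix.of fun p q => T (f p) (g q)).det

/-- Totally nonnegative matrices, with rows repeated and multiplied by nonzero numbers. -/
theorem signed_tnn {M : ℕ} {T : Fin M → Fin n → ℝ} (hT : TotNonneg T) {ν : Fin m → Fin M}
    (hν : Monotone ν) {δ : Fin m → ℝ} (hδ : ∀ i, δ i ≠ 0) {A : Matrix (Fin m) (Fin n) ℝ}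
    (hA : ∀ i j, A i j = δ i * T (ν i) j) : SignedNonneg m n A := by
  set B : Matrix (Fin m) (Fin n) ℝ := Matrix.of fun i j => T (ν i) j with hB
  obtain ⟨r, g, Q, c, hg, hc, hd, hQ, hBQ⟩ := rank_fact B
  have hnn : ∀ f : Fin r → Fin m, StrictMono f → 0 ≤ ((B.submatrix id g).submatrix f id).det := by
    intro f hf
    have e : (B.submatrix id g).submatrix f id = Matrix.of fun p q => T (ν (f p)) (g q) := rfl
    rw [e]
    by_cases hi : Function.Injective (ν ∘ f)
    · exact hT r (ν ∘ f) g ((hν.comp hf.monotone).strictMono_of_injective hi) hg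
    · rw [Function.not_injective_iff] at hi
      obtain ⟨a, b, h1, h2⟩ := hi
      refine le_of_eq (Matrix.det_zero_of_row_eq h2 (funext fun q => ?_)).symm
      simp only [Function.comp] at h1
      simp only [Matrix.of_apply, h1]
  refine ⟨r, B.submatrix id g, Q, δ, ⟨hnn, c, hc, ?_⟩, hQ, hδ, ?_⟩
  · exact lt_of_le_of_ne (hnn c hc) (Ne.symm hd)
  · ext i j
    rw [Matrix.diagonal_mul, ← hBQ, hA, hB, Matrix.of_apply]

theorem ext_nonneg {m : ℕ} : ∀ (n : ℕ) (T : Fin m → Fin n → ℝ), TotNonneg T → ∀ f : Fin n → ℕ,
    StrictMono f → (∀ p, f p < m + n) → 0 ≤ (Matrix.of fun p => CH.ext m n T (f p)).det := by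
  intro n
  induction n with
  | zero =>
    intro T _ f _ _
    simp
  | succ n ih =>
    intro T hT f hf hlt
    by_cases hl : f (Fin.last n) < m
    · have hall : ∀ p, f p < m := fun p => (hf.monotone (Fin.le_last p)).trans_lt hl
      have := hT (n + 1) (fun p => ⟨f p, hall p⟩) id (fun a b hab => hf hab) strictMono_id
      convert this using 2
      funext p q
      simp only [Matrix.of_apply, CH.ext, dif_pos (hall p), id]
    · have hj : f (Fin.last n) - m < n + 1 := by
        have := hlt (Fin.last n)
        omega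
      obtain ⟨j, hjj⟩ : ∃ j, j = f (Fin.last n) - m := ⟨_, rfl⟩
      rw [← hjj] at hj
      have hfl : f (Fin.last n) = m + j := by omega
      let c : Fin (n + 1) := ⟨n - j, by omega⟩
      rw [Matrix.det_succ_row _ (Fin.last n), Finset.sum_eq_single c]
      · have e1 : (Matrix.of fun p => CH.ext m (n + 1) T (f p)) (Fin.last n) c = (-1) ^ j := by
          simp only [Matrix.of_apply, CH.ext]
          rw [dif_neg hl, if_pos (by simp only [c]; omega), ← hjj]
        have e2 : ((-1 : ℝ)) ^ ((Fin.last n : ℕ) + (c : ℕ)) * (-1) ^ j = 1 := by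
          rw [← pow_add]
          refine Even.neg_one_pow ⟨n, ?_⟩
          simp only [Fin.val_last, c]
          omega
        rw [e1, e2, one_mul]
        have h3 := ih (fun i q => T i (c.succAbove q)) (fun r f' g' hf' hg' =>
          hT r f' (fun q => c.succAbove (g' q)) hf'
            (fun a b hab => (Fin.strictMono_succAbove c) (hg' hab))) (fun p => f p.castSucc)
          (fun a b hab => hf (by simpa using hab)) (fun p => by
            have := hf (Fin.castSucc_lt_last p)
            omega)
        convert h3 using 2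
        funext p q
        simp only [Matrix.submatrix_apply, Matrix.of_apply, Fin.succAbove_last, CH.ext]
        by_cases hp : f p.castSucc < m
        · rw [dif_pos hp, dif_pos hp]
        · rw [dif_neg hp, dif_neg hp]
          have hlt' := hf (Fin.castSucc_lt_last p)
          have hq : ((c.succAbove q : Fin (n + 1)) : ℕ) = if (q : ℕ) < n - j then (q : ℕ)
              else q + 1 := by
            unfold Fin.succAbove
            simp only [Fin.lt_def, Fin.val_castSucc, c]
            split_ifs <;> rfl
          rw [hq]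
          by_cases hqc : (q : ℕ) < n - j
          · rw [if_pos hqc, if_neg (by omega), if_neg (by omega)]
          · rw [if_neg hqc]
            by_cases h5 : (q : ℕ) + (f p.castSucc - m) + 1 = n
            · rw [if_pos (by omega), if_pos h5]
            · rw [if_neg (by omega), if_neg h5]
      · intro q _ hq
        have : (Matrix.of fun p => CH.ext m (n + 1) T (f p)) (Fin.last n) q = 0 := by
          simp only [Matrix.of_apply, CH.ext]
          rw [dif_neg hl, if_neg]
          intro h
          exact hq (Fin.ext (by simp only [c]; omega))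
        rw [this]
        ring
      · exact fun h => absurd (Finset.mem_univ _) h

/-- Rows of a totally nonnegative matrix, followed by all unit vectors in the reversed order; with
repetitions and nonzero factors. -/
theorem signed_std {M : ℕ} {T : Fin M → Fin n → ℝ} (hT : TotNonneg T) {ν : Fin m → ℕ}
    (hν : Monotone ν) (hlt : ∀ i, ν i < M + n) (hall : ∀ c < n, ∃ i, ν i = M + c)
    {δ : Fin m → ℝ} (hδ : ∀ i, δ i ≠ 0) {A : Matrix (Fin m) (Fin n) ℝ}
    (hA : ∀ i j, A i j = δ i * CH.ext M n T (ν i) j) : SignedNonneg m n A := by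
  refine ⟨n, Matrix.of fun i => CH.ext M n T (ν i), 1, δ, ⟨fun f hf => ?_, ?_⟩, ?_,
    hδ, ?_⟩
  · have e : (Matrix.of fun i => CH.ext M n T (ν i)).submatrix f id =
        Matrix.of fun p => CH.ext M n T ((ν ∘ f) p) := rfl
    rw [e]
    by_cases hi : Function.Injective (ν ∘ f)
    · exact ext_nonneg n T hT (ν ∘ f) ((hν.comp hf.monotone).strictMono_of_injective hi)
        fun p => hlt _
    · rw [Function.not_injective_iff] at hi
      obtain ⟨a, b, h1, h2⟩ := hi
      refine le_of_eq (Matrix.det_zero_of_row_eq h2 (funext fun q => ?_)).symm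
      simp only [Matrix.of_apply, h1]
  · choose f hf using fun c : Fin n => hall c c.2
    refine ⟨f, fun a b hab => ?_, ?_⟩
    · by_contra h
      have h1 := hν (not_lt.1 h)
      rw [hf, hf] at h1
      have : (a : ℕ) < b := hab
      omega
    · have e : (Matrix.of fun i => CH.ext M n T (ν i)).submatrix f id =
          Matrix.of fun p : Fin n => CH.ext 0 n (fun i => i.elim0) ((fun p : Fin n => (p : ℕ)) p) := by
        ext p q
        simp only [Matrix.submatrix_apply, Matrix.of_apply, id, hf, CH.ext]
        rw [dif_neg (by omega), dif_neg (by omega)]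
        have e1 : M + (p : ℕ) - M = (p : ℕ) - 0 := by omega
        rw [e1]
      rw [e]
      refine ext_pos n _ (fun r f' g' hf' hg' => ?_) _ (fun a b hab => hab) fun p => by
        have := p.2
        omega
      cases r with
      | zero => simp
      | succ r => exact (f' 0).elim0
  · rw [Matrix.rank_one, Fintype.card_fin]
  · ext i j
    rw [Matrix.diagonal_mul, Matrix.mul_one, Matrix.of_apply, hA]

/-- The same, with the unit vectors themselves. -/
theorem signed_std' {M m₁ m₂ : ℕ} {T : Fin M → Fin n → ℝ} (hT : TotNonneg T)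
    {ν : Fin m₁ → Fin M} (hν : Monotone ν) {c : Fin m₂ → Fin n} (hc : Antitone c)
    (hs : Function.Surjective c) {δ : Fin (m₁ + m₂) → ℝ} (hδ : ∀ i, δ i ≠ 0)
    {A : Matrix (Fin (m₁ + m₂)) (Fin n) ℝ}
    (hA₁ : ∀ i j, A (Fin.castAdd m₂ i) j = δ (Fin.castAdd m₂ i) * T (ν i) j)
    (hA₂ : ∀ i j, A (Fin.natAdd m₁ i) j = δ (Fin.natAdd m₁ i) * if j = c i then 1 else 0) :
    SignedNonneg (m₁ + m₂) n A := by
  let μ : Fin (m₁ + m₂) → ℕ := Fin.addCases (motive := fun _ => ℕ) (fun i => (ν i : ℕ))
    fun i => M + (n - 1 - (c i : ℕ))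
  have h1 : ∀ i, μ (Fin.castAdd m₂ i) = ν i := fun i => Fin.addCases_left i
  have h2 : ∀ i, μ (Fin.natAdd m₁ i) = M + (n - 1 - (c i : ℕ)) := fun i => Fin.addCases_right i
  refine signed_std hT (ν := μ) ?_ ?_ ?_
    (δ := fun i => δ i * (-1) ^ (μ i - M)) (fun i => mul_ne_zero (hδ i)
      (pow_ne_zero _ (by norm_num))) ?_
  · intro a b
    refine Fin.addCases (fun a => ?_) (fun a => ?_) a <;>
      refine Fin.addCases (fun b => ?_) (fun b => ?_) b <;> intro hab
    · rw [h1, h1]
      have h3 : ν a ≤ ν b := hν (by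
        rw [Fin.le_def] at hab ⊢
        exact hab)
      exact h3
    · rw [h1, h2]
      have := (ν a).2
      omega
    · exfalso
      rw [Fin.le_def] at hab
      simp only [Fin.val_natAdd, Fin.val_castAdd] at hab
      have := b.2
      omega
    · rw [h2, h2]
      have h3 : (c b : ℕ) ≤ c a := hc (by
        rw [Fin.le_def] at hab ⊢
        simp only [Fin.val_natAdd] at hab
        omega)
      omega
  · intro i
    refine Fin.addCases (fun a => ?_) (fun a => ?_) i
    · rw [h1]
      have := (ν a).2
      omega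
    · rw [h2]
      have := (c a).2
      omega
  · intro k hk
    obtain ⟨i, hi⟩ := hs ⟨n - 1 - k, by omega⟩
    refine ⟨Fin.natAdd m₁ i, ?_⟩
    rw [h2, hi]
    simp only
    omega
  · intro i j
    have hj := j.2
    refine Fin.addCases (fun a => ?_) (fun a => ?_) i
    · rw [hA₁, h1, CH.ext, dif_pos (ν a).2, show ((ν a : ℕ) - M) = 0 by have := (ν a).2; omega]
      ring
    · have hca := (c a).2
      rw [hA₂, h2, mul_assoc]
      congr 1
      rw [CH.ext, dif_neg (by omega), show M + (n - 1 - (c a : ℕ)) - M = n - 1 - (c a : ℕ) by omega]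
      by_cases h : j = c a
      · rw [if_pos h, if_pos (by rw [h]; omega), ← pow_add]
        exact (Even.neg_one_pow ⟨_, rfl⟩).symm
      · rw [if_neg h, if_neg, mul_zero]
        intro h3
        exact h (Fin.ext (by omega))

end Pool.Agent.H37.TN
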