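import Pool.Agent.H37.TN.Ctl

/-! The algorithm is controlled in polynomial time. -/

set_option autoImplicit false

namespace Pool.Agent.H37.TN

open Pool.Agent.NPC Pool.Agent.H558R2 Pool.Agent.H622R3.SM Pool.Agent.W920.FC
open Pool.Agent.H37.CH Pool.Agent.R533.GU

variable {α : Type} [TEnc α]

/-! ### The signs -/

theorem len_stp {m : ℕ} {E : List Edg} {S : Asg} (h : S.length ≤ m) :
    (stp m E S).length ≤ m := by
  have ha : ∀ a x, (asg m S a x).length = m := fun a x => by
    unfold asg
    rw [List.length_map, List.length_range]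
  unfold stp
  cases (E.filter fun e => decide (S.getD e.1 none = none) &&
    decide (S.getD e.2.1 none ≠ none)).head? with
  | some e =>
    rw [Option.map_some, Option.getD_some, ha]
  | none =>
    rw [Option.map_none, Option.getD_none]
    cases ((List.range m).filter fun a => decide (S.getD a none = none)).head? with
    | some a => rw [Option.map_some, Option.getD_some, ha]
    | none => exact h

theorem len_stp_iter (m : ℕ) (E : List Edg) (k : ℕ) : ((stp m E)^[k] []).length ≤ m := by
  induction k with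
  | zero => exact Nat.zero_le _
  | succ k ih =>
    rw [Function.iterate_succ_apply']
    exact len_stp ih

theorem psgnF {U : α → List Unit} {E : α → List Edg} (hU : Poly U) (hE : Poly E) :
    Poly (fun a => sgnF (U a).length (E a)) := by
  unfold sgnF
  obtain ⟨qU, hqU⟩ := hU.sz_le
  set B := NPC.sz (none : Option Bool) + NPC.sz (some true : Option Bool) +
    NPC.sz (some false : Option Bool) with hB
  refine NPC.Poly.iterLen (σ := Asg) (l := U) (s := fun _ => []) (F := fun a S =>
    stp (U a).length (E a) S) hU (NPC.Poly.const _) ?_ (qU * Polynomial.C (B + 1) + 10)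
    fun a k _ => ?_
  · exact pstp (α := α × Asg) (U := fun p => U p.1) (E := fun p => E p.1) (S := fun p => p.2)
      (hU.comp (NPC.Poly.fst NPC.Poly.id)) (hE.comp (NPC.Poly.fst NPC.Poly.id))
      (NPC.Poly.snd NPC.Poly.id)
  · have h1 := len_stp_iter (U a).length (E a) k
    have h2 : ∀ o ∈ (stp (U a).length (E a))^[k] [], NPC.sz o ≤ B := by
      intro o _
      rcases o with _ | _ | _ <;> rw [hB] <;> omega
    have h3 := sz_le_length_mul _ B h2
    have h4 := hqU a
    have h5 := length_lt_sz (U a)
    simp only [Polynomial.eval_add, Polynomial.eval_mul, Polynomial.eval_C,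
      Polynomial.eval_ofNat]
    change NPC.sz ((stp (U a).length (E a))^[k] []) ≤ _
    have h6 : ((stp (U a).length (E a))^[k] []).length * (B + 1) ≤
        qU.eval (NPC.sz a) * (B + 1) := Nat.mul_le_mul_right _ (by omega)
    omega

theorem psgnT' {U : α → List Unit} {st : α → IJ} (hU : Poly U) (hst : Poly st)
    {Ks : α → List Key} (hK : Poly Ks) : PT (fun a => bnd (askT (Ks a)) fun o =>
      ret (sgnF (U a).length (edg (orc (Ks a) o) (U a).length (st a)))) := by
  refine pcomp hK (F := fun a s => sgnF (U a).length (edg s (U a).length (st a))) ?_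
  exact psgnF (α := α × List Outcome) (U := fun p => U p.1) (hU.comp (NPC.Poly.fst NPC.Poly.id))
    (pedg (α := α × List Outcome) (s := fun p => orc (Ks p.1) p.2)
      (U := fun p => U p.1) (st := fun p => st p.1) (porcs hK)
      (hU.comp (NPC.Poly.fst NPC.Poly.id)) (hst.comp (NPC.Poly.fst NPC.Poly.id)))

theorem psgnT {U : α → List Unit} {st : α → IJ} (hU : Poly U) (hst : Poly st) :
    PT (fun a => sgnT (U a).length (st a)) :=
  psgnT' hU hst (psgnK hU hst)

theorem pzeroT' {U : α → List Unit} (hU : Poly U) {Ks : α → List Key} (hK : Poly Ks) :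
    PT (fun a => bnd (askT (Ks a)) fun o => ret (zeroF (orc (Ks a) o) (U a).length)) := by
  refine pcomp hK (F := fun a s => zeroF s (U a).length) ?_
  exact pzeroF (α := α × List Outcome) (s := fun p => orc (Ks p.1) p.2)
    (U := fun p => U p.1) (porcs hK) (hU.comp (NPC.Poly.fst NPC.Poly.id))

theorem pzeroT {U : α → List Unit} (hU : Poly U) : PT (fun a => zeroT (U a).length) :=
  pzeroT' hU (pzeroK hU)

/-! ### The first phase -/

theorem prankT' {U V : α → List Unit} {st : α → IJ} (hU : Poly U) (hV : Poly V) (hst : Poly st)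
    {Ks : α → List Key} (hK : Poly Ks) : PT (fun a => bnd (askT (Ks a)) fun o =>
      ret (rankS (orc (Ks a) o) (U a).length (V a).length (st a))) := by
  refine pcomp hK (F := fun a s => rankS s (U a).length (V a).length (st a)) ?_
  exact prankS (α := α × List Outcome) (s := fun p => orc (Ks p.1) p.2)
    (U := fun p => U p.1) (V := fun p => V p.1) (st := fun p => st p.1)
    (porcs hK) (hU.comp (NPC.Poly.fst NPC.Poly.id))
    (hV.comp (NPC.Poly.fst NPC.Poly.id)) (hst.comp (NPC.Poly.fst NPC.Poly.id))

theorem prankT {U V : α → List Unit} {st : α → IJ} (hU : Poly U) (hV : Poly V) (hst : Poly st) :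
    PT (fun a => rankT (U a).length (V a).length (st a)) :=
  prankT' hU hV hst (prankK hU hV hst)

theorem shr_rank (m n : ℕ) (st : IJ) : Shr (rankT m n st) :=
  t_OUT.1.2.2.2.2.1 _ _ _ _ (t_OUT.1.2.2.2.2.2.1 _) fun _ => t_OUT.1.2.2.2.1 _ _

/-- a bound for the states -/
def SJ (m n i : ℕ) (st : IJ) : Prop :=
  (st.1.length ≤ i ∧ ∀ x ∈ st.1, x < m) ∧ (st.2.length ≤ i ∧ ∀ x ∈ st.2, x < n)

theorem sj_step {m n i : ℕ} {s : Key → ℤ} {st : IJ} (h : SJ m n i st) :
    SJ m n (i + 1) (rankS s m n st) := by
  obtain ⟨⟨h1, h2⟩, h3, h4⟩ := h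
  unfold rankS
  cases hh : ((cand m n).filter fun p => decide (s (bord st p) ≠ 0)).head? with
  | none => exact ⟨⟨h1.trans (Nat.le_succ i), h2⟩, h3.trans (Nat.le_succ i), h4⟩
  | some p =>
    have h5 := mem_cand.1 (List.mem_filter.1 (List.mem_of_mem_head? hh)).1
    rw [Option.map_some, Option.getD_some]
    refine ⟨⟨?_, fun x hx => ?_⟩, ?_, fun x hx => ?_⟩
    · rw [List.length_append, List.length_singleton]
      omega
    · rcases List.mem_append.1 hx with hx | hx
      · exact h2 x hx
      · rw [List.mem_singleton.1 hx]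
        exact h5.1
    · rw [List.length_append, List.length_singleton]
      omega
    · rcases List.mem_append.1 hx with hx | hx
      · exact h4 x hx
      · rw [List.mem_singleton.1 hx]
        exact h5.2

theorem out_rank {m n : ℕ} (i : ℕ) : ∀ st, Out (iter (rankT m n) i ([], [])) st →
    SJ m n i st := by
  induction i with
  | zero =>
    intro st h
    have h1 : st = ([], []) := t_OUT.1.1 _ _ _ h
    rw [h1]
    exact ⟨⟨le_rfl, fun x hx => absurd hx (by simp)⟩, le_rfl, fun x hx => absurd hx (by simp)⟩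
  | succ i ih =>
    intro st h
    obtain ⟨st', h1, h2⟩ := t_OUT.1.2.2.1 _ _ _ _ _ h
    obtain ⟨o, rfl⟩ := out_comp (F := fun o => rankS (orc (rankK m n st') o) m n st') h2
    exact sj_step (ih st' h1)

theorem piterR {U V : α → List Unit} (hU : Poly U) (hV : Poly V) :
    PT (fun a => iter (rankT (U a).length (V a).length) (U a).length ([], [])) := by
  refine t_PTITER α IJ (fun a => rankT (U a).length (V a).length) (fun a => (U a).length)
    (fun _ => ([], [])) ?_ (UPoly.length hU) (NPC.Poly.const _) (fun a st => shr_rank _ _ _) ?_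
  · have b : Poly (fun q : α × IJ => q.1) := NPC.Poly.fst NPC.Poly.id
    exact prankT (α := α × IJ) (U := fun p => U p.1) (V := fun p => V p.1) (hU.comp b)
      (hV.comp b) (NPC.Poly.snd NPC.Poly.id)
  · obtain ⟨qU, hqU⟩ := hU.sz_le
    obtain ⟨qV, hqV⟩ := hV.sz_le
    refine ⟨qU * (4 * qU + 2) + qU * (4 * qV + 2) + 10, fun a i st hi hout => ?_⟩
    obtain ⟨⟨h1, h2⟩, h3, h4⟩ := out_rank i st hout
    have e1 := hqU a
    have e2 := hqV a
    have e3 := length_lt_sz (U a)
    have e4 := length_lt_sz (V a)
    have e5 := sz_le_length_mul st.1 (4 * qU.eval (NPC.sz a) + 1) (fun x hx => by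
      have := h2 x hx
      have := sz_nat' x
      omega)
    have e6 := sz_le_length_mul st.2 (4 * qV.eval (NPC.sz a) + 1) (fun x hx => by
      have := h4 x hx
      have := sz_nat' x
      omega)
    have e7 : NPC.sz st = NPC.sz st.1 + NPC.sz st.2 + 1 := by
      obtain ⟨a, b⟩ := st
      rw [NPC.sz_pair]
    have e8 : st.1.length * (4 * qU.eval (NPC.sz a) + 1 + 1) ≤
        qU.eval (NPC.sz a) * (4 * qU.eval (NPC.sz a) + 2) := Nat.mul_le_mul_right _ (by omega)
    have e9 : st.2.length * (4 * qV.eval (NPC.sz a) + 1 + 1) ≤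
        qU.eval (NPC.sz a) * (4 * qV.eval (NPC.sz a) + 2) := Nat.mul_le_mul_right _ (by omega)
    simp only [Polynomial.eval_add, Polynomial.eval_mul, Polynomial.eval_ofNat]
    omega

/-! ### The second phase -/

theorem pt_comp {β γ : Type} [TEnc β] [TEnc γ] {T : β → TT γ} (hT : PT T) {f : α → β}
    (hf : Poly f) : PT (fun a => T (f a)) := by
  have h1 : Poly (fun p : β × List Outcome => T p.1 p.2) := hT
  exact h1.comp (f := fun p : α × List Outcome => (f p.1, p.2))
    (NPC.Poly.pair (hf.comp (NPC.Poly.fst NPC.Poly.id)) (NPC.Poly.snd NPC.Poly.id))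

theorem pt_ite {β : Type} [TEnc β] {T T' : α → TT β} {c : α → Prop} [DecidablePred c]
    (hc : Poly (fun a => decide (c a))) (hT : PT T) (hT' : PT T') :
    PT (fun a => if c a then T a else T' a) := by
  have h1 : Poly (fun p : α × List Outcome => T p.1 p.2) := hT
  have h2 : Poly (fun p : α × List Outcome => T' p.1 p.2) := hT'
  have h3 : Poly (fun p : α × List Outcome => if c p.1 then T p.1 p.2 else T' p.1 p.2) :=
    NPC.Poly.ite (p := fun p : α × List Outcome => c p.1)
      (hc.comp (NPC.Poly.fst NPC.Poly.id)) h1 h2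
  exact h3.congr fun p => by
    show _ = (if c p.1 then T p.1 else T' p.1) p.2
    by_cases h : c p.1
    · rw [if_pos h, if_pos h]
    · rw [if_neg h, if_neg h]

theorem uDm {U : α → List Unit} (hU : Poly U) : UPoly (fun a => Dm (U a).length) := by
  have h := (UPoly.length hU).eval dX
  simp only [eval_dX] at h
  exact h

theorem pTA3 {U : α → List Unit} {L : α → List ℕ} (hU : Poly U) (hL : Poly L) :
    PT (fun a => CH.TA (3 * (U a).length) (L a).length) := by
  have h1 : UPoly (fun a => 3 * (U a).length) := UPoly.mul (UPoly.const 3) (UPoly.length hU)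
  have h2 : UPoly (fun a => (L a).length) := UPoly.length hL
  have h3 := pt_comp (α := α) pTA (f := fun a => (List.replicate (3 * (U a).length) (),
    List.replicate (L a).length ())) (NPC.Poly.pair h1 h2)
  simp only [List.length_replicate] at h3
  exact h3

theorem pmainT {U : α → List Unit} {st : α → IJ} (hU : Poly U) (hst : Poly st) :
    PT (fun a => mainT (U a).length (st a)) := by
  unfold mainT
  refine pt_ite (NPC.Poly.dec_eq (NPC.Poly.length (NPC.Poly.snd hst)) (NPC.Poly.const 0))
    (pzeroT hU) ?_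
  refine t_PT.2.1 _ _ _ _ (fun a S => tr (Dm (U a).length) (bcf (U a).length (st a).2 S)
    (CH.TA (3 * (U a).length) (st a).2.length)) (psgnT hU hst) ?_
  have b1 : Poly (fun p : α × List Outcome => p.1) := NPC.Poly.fst NPC.Poly.id
  refine ptr (α := α × List Outcome) (D := fun p => Dm (U p.1).length)
    (bc := fun p => bcf (U p.1).length (st p.1).2 p.2)
    (T := fun p => CH.TA (3 * (U p.1).length) (st p.1).2.length)
    (uDm (hU.comp b1)) ?_ (pTA3 (hU.comp b1) (NPC.Poly.snd (hst.comp b1)))
  have c1 : Poly (fun p : (α × List Outcome) × (Reg × ℕ) => p.1.1) :=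
    NPC.Poly.fst (NPC.Poly.fst NPC.Poly.id)
  exact pbcf (α := (α × List Outcome) × (Reg × ℕ)) (U := fun p => U p.1.1)
    (J := fun p => (st p.1.1).2) (S := fun p => p.1.2) (r := fun p => p.2.1) (k := fun p => p.2.2)
    (hU.comp c1) (NPC.Poly.snd (hst.comp c1)) (NPC.Poly.snd (NPC.Poly.fst NPC.Poly.id))
    (NPC.Poly.fst (NPC.Poly.snd NPC.Poly.id)) (NPC.Poly.snd (NPC.Poly.snd NPC.Poly.id))

theorem pTW : PT (fun p : List Unit × List Unit => TW p.1.length p.2.length) := by
  unfold TW
  have hU : Poly (fun p : List Unit × List Unit => p.1) := NPC.Poly.fst NPC.Poly.id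
  have hV : Poly (fun p : List Unit × List Unit => p.2) := NPC.Poly.snd NPC.Poly.id
  refine t_PT.2.1 _ _ _ _ (fun (p : List Unit × List Unit) st => mainT p.1.length st)
    (piterR hU hV) ?_
  exact pmainT (α := (List Unit × List Unit) × IJ) (U := fun q => q.1.1) (st := fun q => q.2)
    (NPC.Poly.fst (NPC.Poly.fst NPC.Poly.id)) (NPC.Poly.snd NPC.Poly.id)

theorem ctrl : PolyControl alg := t_OUT.2 TW pTW

theorem oracleFree : OracleFree alg := by
  intro m n h w
  unfold alg algOf
  cases TW m n h <;> simp

/-- **The main theorem.** -/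
theorem main : PolyControl alg ∧ OracleFree alg ∧
    DecidesOn ∅ (fun m n A _ => SignedNonneg m n A) alg :=
  ⟨ctrl, oracleFree, decides⟩

end Pool.Agent.H37.TN
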