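import Pool.Agent.H37.HO.Vand
import Pool.Agent.H37.CH.Tsys

/-! A totally positive kernel near the identity. -/

set_option autoImplicit false

namespace Pool.Agent.H37.TN

open Matrix Finset
open Pool.Agent.H37.CH (IsCheb nb btw)

/-- the exponents -/
def ex (i l : ℕ) : ℕ := if i ≤ l then (l - i) * (2 * (l - i) + 1) else (i - l) * (2 * (i - l) - 1)

theorem ex_self (i : ℕ) : ex i i = 0 := by simp [ex]

theorem ex_pos {i l : ℕ} (h : l ≠ i) : 1 ≤ ex i l := by
  unfold ex
  split_ifs with h1
  · exact Nat.mul_pos (by omega) (by omega)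
  · exact Nat.mul_pos (by omega) (by omega)

theorem ex_eq (i l : ℕ) : ex i l + 4 * i * l = i * (2 * i - 1) + l * (2 * l + 1) := by
  unfold ex
  split_ifs with h1
  · obtain ⟨d, rfl⟩ : ∃ d, l = i + d := ⟨l - i, by omega⟩
    rw [Nat.add_sub_cancel_left]
    rcases i with _ | i
    · simp
    · have : 2 * (i + 1) - 1 = 2 * i + 1 := by omega
      rw [this]
      ring
  · obtain ⟨d, rfl⟩ : ∃ d, i = l + (d + 1) := ⟨i - l - 1, by omega⟩
    rw [Nat.add_sub_cancel_left]
    have e1 : 2 * (d + 1) - 1 = 2 * d + 1 := by omega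
    have e2 : 2 * (l + (d + 1)) - 1 = 2 * l + 2 * d + 1 := by omega
    rw [e1, e2]
    ring

/-- triangular numbers -/
theorem tri_inj {a b : ℕ} (h : a * (a + 1) = b * (b + 1)) : a = b := by
  rcases lt_trichotomy a b with h1 | h1 | h1
  · have : a * (a + 1) < b * (b + 1) := Nat.mul_lt_mul_of_lt_of_le h1 (by omega) (by omega)
    omega
  · exact h1
  · have : b * (b + 1) < a * (a + 1) := Nat.mul_lt_mul_of_lt_of_le h1 (by omega) (by omega)
    omega

/-- the index of the triangular number -/
def tI (i l : ℕ) : ℕ := if i ≤ l then 2 * (l - i) else 2 * (i - l) - 1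

theorem ex_tri (i l : ℕ) : 2 * ex i l = tI i l * (tI i l + 1) := by
  unfold ex tI
  split_ifs with h1
  · ring
  · obtain ⟨d, hd⟩ : ∃ d, i - l = d + 1 := ⟨i - l - 1, by omega⟩
    rw [hd]
    have e1 : 2 * (d + 1) - 1 = 2 * d + 1 := by omega
    rw [e1]
    ring

theorem ex_inj {i l l' : ℕ} (h : ex i l = ex i l') : l = l' := by
  have h1 : tI i l = tI i l' := tri_inj (by rw [← ex_tri, ← ex_tri, h])
  unfold tI at h1
  split_ifs at h1 <;> omega

theorem ex_le {m i l : ℕ} (hi : i < m) (hl : l < m) : ex i l ≤ 2 * m * m := by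
  unfold ex
  split_ifs with h1
  · calc (l - i) * (2 * (l - i) + 1) ≤ m * (2 * m) := Nat.mul_le_mul (by omega) (by omega)
      _ = 2 * m * m := by ring
  · calc (i - l) * (2 * (i - l) - 1) ≤ m * (2 * m) := Nat.mul_le_mul (by omega) (by omega)
      _ = 2 * m * m := by ring

variable {m r : ℕ}

/-- the kernel -/
def Gk (m : ℕ) (t : ℝ) : Matrix (Fin m) (Fin m) ℝ := Matrix.of fun i l => t ^ ex i l

theorem Gk_det {t : ℝ} (h0 : 0 < t) (h1 : t < 1) (f g : Fin r → Fin m) (hf : StrictMono f)
    (hg : StrictMono g) : 0 < ((Gk m t).submatrix f g).det := by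
  have key : (Gk m t).submatrix f g = Matrix.of fun i j => t ^ ((f i : ℕ) * (2 * (f i : ℕ) - 1)) *
      ((Matrix.of fun i j => t ^ ((g j : ℕ) * (2 * (g j : ℕ) + 1)) *
        ((Matrix.of fun i j => ((t ^ (4 * (f i : ℕ)))⁻¹) ^ (g j : ℕ)) i j)) i j) := by
    ext i j
    simp only [Gk, Matrix.submatrix_apply, Matrix.of_apply]
    have h2 : t ^ (4 * (f i : ℕ) * (g j : ℕ)) ≠ 0 := (pow_pos h0 _).ne'
    have h3 : t ^ ex (f i) (g j) * t ^ (4 * (f i : ℕ) * (g j : ℕ)) =
        t ^ ((f i : ℕ) * (2 * (f i : ℕ) - 1)) * t ^ ((g j : ℕ) * (2 * (g j : ℕ) + 1)) := by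
      rw [← pow_add, ← pow_add, ex_eq]
    rw [inv_pow, ← pow_mul, ← mul_assoc, ← h3]
    field_simp
  rw [key, Matrix.det_mul_column (fun i => t ^ ((f i : ℕ) * (2 * (f i : ℕ) - 1))),
    Matrix.det_mul_row (fun j => t ^ ((g j : ℕ) * (2 * (g j : ℕ) + 1)))]
  refine mul_pos (Finset.prod_pos fun i _ => pow_pos h0 _)
    (mul_pos (Finset.prod_pos fun i _ => pow_pos h0 _) ?_)
  refine Pool.Agent.H37.HO.gv_pos r _ (fun j => (g j : ℕ)) (fun i => inv_pos.2 (pow_pos h0 _))
    (fun i j hij => ?_) (fun i j hij => hg hij)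
  rw [inv_lt_inv₀ (pow_pos h0 _) (pow_pos h0 _)]
  exact pow_lt_pow_right_of_lt_one₀ h0 h1 (by have := hf hij; rw [Fin.lt_def] at this; omega)

/-- All maximal minors are nonnegative, and some maximal minor is positive. -/
def NN (T : Matrix (Fin m) (Fin r) ℝ) : Prop :=
  (∀ f : Fin r → Fin m, StrictMono f → 0 ≤ (T.submatrix f id).det) ∧
    ∃ f : Fin r → Fin m, StrictMono f ∧ 0 < (T.submatrix f id).det

theorem sort_det (T : Matrix (Fin m) (Fin r) ℝ) (c : Fin r → Fin m) :
    (T.submatrix (fun i => c (Tuple.sort c i)) id).det =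
      ((Equiv.Perm.sign (Tuple.sort c) : ℤ) : ℝ) * (T.submatrix c id).det := by
  rw [← Matrix.det_permute]
  rfl

theorem sort_mono {c : Fin r → Fin m} (hc : Function.Injective c) :
    StrictMono fun i => c (Tuple.sort c i) := by
  have h1 := (Tuple.monotone_sort c).strictMono_of_injective (hc.comp (Tuple.sort c).injective)
  exact h1

theorem sgn_sq (c : Fin r → Fin m) : ((Equiv.Perm.sign (Tuple.sort c) : ℤ) : ℝ) *
    ((Equiv.Perm.sign (Tuple.sort c) : ℤ) : ℝ) = 1 := by
  rw [← Int.cast_mul, ← Units.val_mul, Int.units_mul_self]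
  simp

/-- Smoothing a matrix with nonnegative maximal minors gives positive maximal minors. -/
theorem smooth {t : ℝ} (h0 : 0 < t) (h1 : t < 1) {T : Matrix (Fin m) (Fin r) ℝ} (hT : NN T)
    (f : Fin r → Fin m) (hf : StrictMono f) : 0 < ((Gk m t * T).submatrix f id).det := by
  have hcb := Pool.Agent.V117.CB.cauchyBinet ((Gk m t).submatrix f id) Tᵀ
  have e0 : ((Gk m t).submatrix f id) * Tᵀᵀ = (Gk m t * T).submatrix f id := by
    rw [Matrix.transpose_transpose]
    rfl
  rw [e0] at hcb
  have hfac : (0 : ℝ) < ((Fintype.card (Fin r)).factorial : ℝ) := by positivity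
  have hA : ∀ c : Fin r → Fin m, (((Gk m t).submatrix f id).submatrix id c).det =
      ((Gk m t).submatrix f c).det := fun c => rfl
  have hB : ∀ c : Fin r → Fin m, (Tᵀ.submatrix id c).det = (T.submatrix c id).det := by
    intro c
    rw [← Matrix.det_transpose]
    rfl
  have hG : ∀ c : Fin r → Fin m, ((Gk m t).submatrix f (fun i => c (Tuple.sort c i))).det =
      ((Equiv.Perm.sign (Tuple.sort c) : ℤ) : ℝ) * ((Gk m t).submatrix f c).det := by
    intro c
    rw [← Matrix.det_permute']
    rfl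
  have hterm : ∀ c : Fin r → Fin m, Function.Injective c →
      (((Gk m t).submatrix f id).submatrix id c).det * (Tᵀ.submatrix id c).det =
        ((Gk m t).submatrix f (fun i => c (Tuple.sort c i))).det *
          (T.submatrix (fun i => c (Tuple.sort c i)) id).det := by
    intro c hc
    rw [hA, hB, hG, sort_det, mul_mul_mul_comm, sgn_sq, one_mul]
  have hzero : ∀ c : Fin r → Fin m, ¬Function.Injective c →
      (((Gk m t).submatrix f id).submatrix id c).det * (Tᵀ.submatrix id c).det = 0 := by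
    intro c hc
    rw [Function.not_injective_iff] at hc
    obtain ⟨i, j, h1, h2⟩ := hc
    rw [hA, Matrix.det_zero_of_column_eq h2
      (fun k => by simp only [Matrix.submatrix_apply, h1]), zero_mul]
  have hnn : ∀ c : Fin r → Fin m, 0 ≤ (((Gk m t).submatrix f id).submatrix id c).det *
      (Tᵀ.submatrix id c).det := by
    intro c
    by_cases hc : Function.Injective c
    · rw [hterm c hc]
      exact mul_nonneg (Gk_det h0 h1 f _ hf (sort_mono hc)).le (hT.1 _ (sort_mono hc))
    · exact (hzero c hc).ge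
  obtain ⟨g, hg1, hg2⟩ := hT.2
  have hsum : 0 < ∑ c : Fin r → Fin m, (((Gk m t).submatrix f id).submatrix id c).det *
      (Tᵀ.submatrix id c).det := by
    refine Finset.sum_pos' (fun c _ => hnn c) ⟨g, Finset.mem_univ _, ?_⟩
    rw [hA, hB]
    exact mul_pos (Gk_det h0 h1 f g hf hg1) hg2
  rw [← hcb] at hsum
  exact (mul_pos_iff_of_pos_left hfac).1 hsum

/-! ### Relations between the signs of minors -/

/-- the Vandermonde matrix -/
def Vm (m r : ℕ) : Matrix (Fin m) (Fin r) ℝ := Matrix.of fun i k => ((i : ℕ) : ℝ) ^ (k : ℕ)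

theorem Vm_pos (f : Fin r → Fin m) (hf : StrictMono f) : 0 < ((Vm m r).submatrix f id).det := by
  have h1 : (Vm m r).submatrix f id = Matrix.vandermonde fun p => ((f p : ℕ) : ℝ) := by
    ext i j
    rfl
  rw [h1, Matrix.det_vandermonde]
  refine Finset.prod_pos fun i _ => Finset.prod_pos fun j hj => ?_
  rw [sub_pos]
  exact_mod_cast hf (Finset.mem_Ioi.1 hj)

theorem inj_of_det {T : Matrix (Fin m) (Fin r) ℝ} {c : Fin r → Fin m}
    (h : (T.submatrix c id).det ≠ 0) : Function.Injective c := by
  by_contra hc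
  rw [Function.not_injective_iff] at hc
  obtain ⟨i, j, h1, h2⟩ := hc
  exact h (Matrix.det_zero_of_row_eq h2 (funext fun k => by simp only [Matrix.submatrix_apply, h1]))

theorem NN.pos {T : Matrix (Fin m) (Fin r) ℝ} (hT : NN T) {c : Fin r → Fin m}
    (h : (T.submatrix c id).det ≠ 0) :
    0 < ((Equiv.Perm.sign (Tuple.sort c) : ℤ) : ℝ) * (T.submatrix c id).det := by
  have h1 := hT.1 _ (sort_mono (inj_of_det h))
  rw [sort_det] at h1
  refine lt_of_le_of_ne h1 (mul_ne_zero ?_ h).symm
  intro h0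
  have := sgn_sq c
  rw [h0, zero_mul] at this
  exact zero_ne_one this

/-- the other elements of the basis -/
def Zs (I : Fin r → Fin m) (p : Fin r) : Finset (Fin m) := (univ.erase p).image I

/-- The relation between the signs. -/
theorem sign_rel {T : Matrix (Fin m) (Fin r) ℝ} (hT : NN T) {I : Fin r → Fin m} {p : Fin r}
    {i : Fin m} (h1 : (T.submatrix I id).det ≠ 0)
    (h2 : (T.submatrix (Function.update I p i) id).det ≠ 0) :
    0 < (-1) ^ nb (Zs I p) (I p) i *
      ((T.submatrix I id).det * (T.submatrix (Function.update I p i) id).det) := by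
  have hI := inj_of_det h1
  have hI' := inj_of_det h2
  have hV : IsCheb (fun i => Vm m r i) := ⟨1, fun s => by
    rw [one_mul]
    exact Vm_pos s s.strictMono⟩
  have hVNN : NN (Vm m r) := ⟨fun f hf => (Vm_pos f hf).le, _, sort_mono hI,
    Vm_pos _ (sort_mono hI)⟩
  have hv0 : ∀ c : Fin r → Fin m, Function.Injective c → ((Vm m r).submatrix c id).det ≠ 0 := by
    intro c hc h0
    have := Vm_pos _ (sort_mono hc)
    rw [sort_det, h0, mul_zero] at this
    exact lt_irrefl _ this
  set x : Fin r → ℝ := fun k => (((Vm m r).submatrix I id)ᵀ).adjugate p k with hx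
  have hdot : ∀ w : Fin m, Vm m r w ⬝ᵥ x =
      ((Vm m r).submatrix (Function.update I p w) id).det := by
    intro w
    have e1 : (Vm m r).submatrix (Function.update I p w) id =
        ((Vm m r).submatrix I id).updateRow p (Vm m r w) := by
      ext a b
      simp only [Matrix.submatrix_apply, Matrix.updateRow_apply, id]
      by_cases h : a = p
      · rw [if_pos h, h, Function.update_self]
      · rw [if_neg h, Function.update_of_ne h]
    rw [e1, ← Matrix.cramer_transpose_apply, Matrix.cramer_eq_adjugate_mulVec]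
    simp only [Matrix.mulVec, dotProduct, hx]
    exact Finset.sum_congr rfl fun k _ => mul_comm _ _
  have hZ : (Zs I p).card + 1 = r := by
    unfold Zs
    rw [Finset.card_image_of_injective _ hI, Finset.card_erase_of_mem (Finset.mem_univ _),
      Finset.card_univ, Fintype.card_fin]
    have := p.2
    omega
  have hpZ : I p ∉ Zs I p := by
    intro h
    obtain ⟨q, hq, hq2⟩ := Finset.mem_image.1 h
    exact (Finset.mem_erase.1 hq).1 (hI hq2)
  have hiZ : i ∉ Zs I p := by
    intro h
    obtain ⟨q, hq, hq2⟩ := Finset.mem_image.1 h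
    have hqp := (Finset.mem_erase.1 hq).1
    have h3 : Function.update I p i q = Function.update I p i p := by
      rw [Function.update_of_ne hqp, Function.update_self]
      exact hq2
    exact hqp (hI' h3)
  have hself : Function.update I p (I p) = I := Function.update_eq_self p I
  have hxne : x ≠ 0 := by
    intro h0
    have h3 := hdot (I p)
    rw [hself, h0, dotProduct_zero] at h3
    exact hv0 I hI h3.symm
  have hzero : ∀ z ∈ Zs I p, Vm m r z ⬝ᵥ x = 0 := by
    intro z hz
    obtain ⟨q, hq, rfl⟩ := Finset.mem_image.1 hz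
    have hqp := (Finset.mem_erase.1 hq).1
    rw [hdot]
    refine Matrix.det_zero_of_row_eq hqp (funext fun k => ?_)
    simp only [Matrix.submatrix_apply, Function.update_self, Function.update_of_ne hqp]
  have h3 := hV.sign hZ hxne hzero hpZ hiZ
  rw [hdot, hdot, hself] at h3
  have a1 := hT.pos h1
  have a2 := hT.pos h2
  have b1 := hVNN.pos (hv0 I hI)
  have b2 := hVNN.pos (hv0 _ hI')
  set s1 := ((Equiv.Perm.sign (Tuple.sort I) : ℤ) : ℝ)
  set s2 := ((Equiv.Perm.sign (Tuple.sort (Function.update I p i)) : ℤ) : ℝ)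
  set N := (-1 : ℝ) ^ nb (Zs I p) (I p) i
  set u1 := (T.submatrix I id).det
  set u2 := (T.submatrix (Function.update I p i) id).det
  set v1 := ((Vm m r).submatrix I id).det
  set v2 := ((Vm m r).submatrix (Function.update I p i) id).det
  have c1 : 0 < u1 * v1 := by
    have := mul_pos a1 b1
    have e : s1 * u1 * (s1 * v1) = (s1 * s1) * (u1 * v1) := by ring
    rwa [e, sgn_sq, one_mul] at this
  have c2 : 0 < u2 * v2 := by
    have := mul_pos a2 b2
    have e : s2 * u2 * (s2 * v2) = (s2 * s2) * (u2 * v2) := by ring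
    rwa [e, sgn_sq, one_mul] at this
  have c3 := mul_pos (mul_pos c1 c2) h3
  have e : u1 * v1 * (u2 * v2) * (N * (v1 * v2)) = (N * (u1 * u2)) * ((v1 * v2) * (v1 * v2)) := by
    ring
  rw [e] at c3
  exact pos_of_mul_pos_left c3 (mul_self_nonneg _)

end Pool.Agent.H37.TN
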