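import Pool.Agent.H37.TN.Tr

/-! The transformed computation is controlled in polynomial time. -/

set_option autoImplicit false

namespace Pool.Agent.H37.TN

open Pool.Agent.NPC Pool.Agent.H558R2 Pool.Agent.H622R3.SM Pool.Agent.W920.FC Pool.Agent.H37.CH
open Pool.Agent.Y648.CS.TQQ (pcode pdst pfst psnd pmk pheadD)

theorem range_filter {k D : ℕ} (h : k ≤ D) :
    (List.range (D + 1)).filter (fun j => decide (j ≤ k)) = List.range (k + 1) := by
  obtain ⟨t, rfl⟩ : ∃ t, D = k + t := ⟨D - k, by omega⟩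
  rw [show k + t + 1 = (k + 1) + t by ring,
    (List.range_add : List.range ((k + 1) + t) = _), List.filter_append]
  have h1 : (List.range (k + 1)).filter (fun j => decide (j ≤ k)) = List.range (k + 1) := by
    rw [List.filter_eq_self]
    intro j hj
    rw [List.mem_range] at hj
    simpa using (by omega : j ≤ k)
  have h2 : ((List.range t).map (k + 1 + ·)).filter (fun j => decide (j ≤ k)) = [] := by
    rw [List.filter_eq_nil_iff]
    intro j hj
    obtain ⟨i, -, rfl⟩ := List.mem_map.1 hj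
    simp
    omega
  rw [h1, h2, List.append_nil]

/-- the same as `mulI` -/
def mulJ (D : ℕ) (I : Instr) (k : ℕ) : List Instr :=
  ((⟨Op.add, 62 :: k :: 0 :: I.dst, [3], [3]⟩ : Instr) ::
    (((List.range (D + 1)).filter fun j => decide (j ≤ k)).flatMap fun j =>
      [(⟨Op.mul, 61 :: k :: j :: I.dst, opn 63 I.dst I.fst j, opn 64 I.dst I.snd (k - j)⟩ : Instr),
        ⟨Op.add, 62 :: k :: (j + 1) :: I.dst, 62 :: k :: j :: I.dst, 61 :: k :: j :: I.dst⟩])) ++
    [(⟨Op.add, cr k I.dst, 62 :: k :: (k + 1) :: I.dst, [3]⟩ : Instr)]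

theorem body_eq (D : ℕ) (I : Instr) : body D I = (List.range (D + 1)).flatMap fun k =>
    if I.op = Op.mul then mulJ D I k else oneI I k := by
  unfold body
  refine List.flatMap_congr fun k hk => ?_
  rw [List.mem_range] at hk
  unfold mulJ mulI
  rw [range_filter (by omega : k ≤ D)]

variable {α : Type} [TEnc α]

theorem pisop {I : α → Instr} (h : Poly I) (o : Op) :
    Poly (fun a => decide ((I a).op = o)) :=
  (NPC.Poly.decide_eq (NPC.Poly.fst (pcode h)) (NPC.Poly.const (opCode o))).congr fun a => by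
    refine decide_eq_decide.2 ⟨fun h => opCode_injective h, fun h => ?_⟩
    show opCode (I a).op = opCode o
    rw [h]

theorem pheadlt {r : α → Reg} (h : Poly r) : Poly (fun a => decide ((r a).headD 0 < 4)) :=
  NPC.Poly.decide_lt (pheadD h) (NPC.Poly.const 4)

theorem pcr {k : α → ℕ} {r : α → Reg} (hk : Poly k) (hr : Poly r) :
    Poly (fun a => cr (k a) (r a)) :=
  NPC.Poly.cons (NPC.Poly.const 60) (NPC.Poly.cons hk hr)

theorem popn (h : ℕ) {d r : α → Reg} {k : α → ℕ} (hd : Poly d) (hr : Poly r) (hk : Poly k) :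
    Poly (fun a => opn h (d a) (r a) (k a)) := by
  unfold opn
  exact NPC.Poly.ite (pheadlt hr) (NPC.Poly.cons (NPC.Poly.const h) (NPC.Poly.cons hk hd))
    (pcr hk hr)

theorem popI (h : ℕ) {D : α → ℕ} {bc : α → Reg → ℕ → Src}
    (hD : UPoly D) (hbc : Poly (fun p : α × (Reg × ℕ) => bc p.1 p.2.1 p.2.2)) {d r : α → Reg}
    (hd : Poly d) (hr : Poly r) : Poly (fun a => opI (D a) (bc a) h (d a) (r a)) := by
  unfold opI
  refine NPC.Poly.ite (pheadlt hr) ?_ (NPC.Poly.const _)
  refine NPC.Poly.map (F := fun a k => srcI (bc a (r a) k) (h :: k :: d a))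
    (UPoly.add hD (UPoly.const 1)).range ?_
  have b1 : Poly (fun p : α × ℕ => p.1) := NPC.Poly.fst NPC.Poly.id
  have b2 : Poly (fun p : α × ℕ => p.2) := NPC.Poly.snd NPC.Poly.id
  exact psrcI (hbc.comp (f := fun p : α × ℕ => (p.1, (r p.1, p.2)))
    (NPC.Poly.pair b1 (NPC.Poly.pair (hr.comp b1) b2)))
    (NPC.Poly.cons (NPC.Poly.const h) (NPC.Poly.cons b2 (hd.comp b1)))

theorem pmulJ {D : α → ℕ} (hD : UPoly D) {I : α → Instr} (hI : Poly I) {k : α → ℕ}
    (hk : Poly k) : Poly (fun a => mulJ (D a) (I a) (k a)) := by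
  unfold mulJ
  have r3 : Poly (fun _ : α => ([3] : Reg)) := NPC.Poly.const _
  have n62 : Poly (fun _ : α => (62 : ℕ)) := NPC.Poly.const _
  have hd := pdst hI
  refine NPC.Poly.append (NPC.Poly.cons ?_ ?_) (NPC.Poly.cons ?_ (NPC.Poly.const []))
  · exact TPM.pInstr _ (NPC.Poly.cons n62 (NPC.Poly.cons hk (NPC.Poly.cons (NPC.Poly.const 0) hd)))
      r3 r3
  · refine NPC.Poly.flatMap (F := fun a j =>
      [(⟨Op.mul, 61 :: k a :: j :: (I a).dst, opn 63 (I a).dst (I a).fst j,
        opn 64 (I a).dst (I a).snd (k a - j)⟩ : Instr),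
        ⟨Op.add, 62 :: k a :: (j + 1) :: (I a).dst, 62 :: k a :: j :: (I a).dst,
          61 :: k a :: j :: (I a).dst⟩])
      (NPC.Poly.filter (p := fun a j => decide (j ≤ k a)) (UPoly.add hD (UPoly.const 1)).range ?_) ?_
    · exact NPC.Poly.decide_le (NPC.Poly.snd NPC.Poly.id) (hk.comp (NPC.Poly.fst NPC.Poly.id))
    · have b1 : Poly (fun p : α × ℕ => p.1) := NPC.Poly.fst NPC.Poly.id
      have b2 : Poly (fun p : α × ℕ => p.2) := NPC.Poly.snd NPC.Poly.id
      have c61 : Poly (fun _ : α × ℕ => (61 : ℕ)) := NPC.Poly.const _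
      have c62 : Poly (fun _ : α × ℕ => (62 : ℕ)) := NPC.Poly.const _
      have hk' := hk.comp b1
      have hd' := hd.comp b1
      refine NPC.Poly.cons ?_ (NPC.Poly.cons ?_ (NPC.Poly.const []))
      · exact TPM.pInstr _ (NPC.Poly.cons c61 (NPC.Poly.cons hk' (NPC.Poly.cons b2 hd')))
          (popn 63 hd' ((pfst hI).comp b1) b2)
          (popn 64 hd' ((psnd hI).comp b1) (NPC.Poly.sub hk' b2))
      · exact TPM.pInstr _ (NPC.Poly.cons c62 (NPC.Poly.cons hk' (NPC.Poly.cons
          (NPC.Poly.add b2 (NPC.Poly.const 1)) hd')))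
          (NPC.Poly.cons c62 (NPC.Poly.cons hk' (NPC.Poly.cons b2 hd')))
          (NPC.Poly.cons c61 (NPC.Poly.cons hk' (NPC.Poly.cons b2 hd')))
  · exact TPM.pInstr _ (pcr hk hd) (NPC.Poly.cons n62 (NPC.Poly.cons hk (NPC.Poly.cons
      (NPC.Poly.add hk (NPC.Poly.const 1)) hd))) r3

theorem poneI {I : α → Instr} (hI : Poly I) {k : α → ℕ} (hk : Poly k) :
    Poly (fun a => oneI (I a) (k a)) := by
  unfold oneI
  exact NPC.Poly.cons (pmk hI (pcr hk (pdst hI)) (popn 63 (pdst hI) (pfst hI) hk)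
    (popn 64 (pdst hI) (psnd hI) (NPC.Poly.ite (pisop hI Op.div) (NPC.Poly.const 0) hk)))
    (NPC.Poly.const [])

theorem pbody {D : α → ℕ} (hD : UPoly D) {I : α → Instr} (hI : Poly I) :
    Poly (fun a => body (D a) (I a)) := by
  simp only [body_eq]
  refine NPC.Poly.flatMap (F := fun a k => if (I a).op = Op.mul then mulJ (D a) (I a) k
    else oneI (I a) k) (UPoly.add hD (UPoly.const 1)).range ?_
  have b1 : Poly (fun p : α × ℕ => p.1) := NPC.Poly.fst NPC.Poly.id
  have b2 : Poly (fun p : α × ℕ => p.2) := NPC.Poly.snd NPC.Poly.id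
  exact NPC.Poly.ite (pisop (hI.comp b1) Op.mul) (pmulJ (hD.comp b1) (hI.comp b1) b2)
    (poneI (hI.comp b1) b2)

theorem plift {D : α → ℕ} {bc : α → Reg → ℕ → Src} (hD : UPoly D)
    (hbc : Poly (fun p : α × (Reg × ℕ) => bc p.1 p.2.1 p.2.2)) {P : α → List Instr}
    (hP : Poly P) : Poly (fun a => lift (D a) (bc a) (P a)) := by
  unfold lift
  refine NPC.Poly.flatMap (F := fun a I => liftI (D a) (bc a) I) hP ?_
  unfold liftI
  have b1 : Poly (fun p : α × Instr => p.1) := NPC.Poly.fst NPC.Poly.id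
  have b2 : Poly (fun p : α × Instr => p.2) := NPC.Poly.snd NPC.Poly.id
  have hbc' : Poly (fun p : (α × Instr) × (Reg × ℕ) => bc p.1.1 p.2.1 p.2.2) :=
    hbc.comp (f := fun p : (α × Instr) × (Reg × ℕ) => (p.1.1, p.2))
      (NPC.Poly.pair (NPC.Poly.fst (NPC.Poly.fst NPC.Poly.id)) (NPC.Poly.snd NPC.Poly.id))
  exact NPC.Poly.append (popI (α := α × Instr) (D := fun p => D p.1) (bc := fun p => bc p.1) 63
      (hD.comp b1) hbc' (pdst b2) (pfst b2))
    (NPC.Poly.append (popI (α := α × Instr) (D := fun p => D p.1) (bc := fun p => bc p.1) 64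
      (hD.comp b1) hbc' (pdst b2) (psnd b2)) (pbody (hD.comp b1) b2))

theorem plqd {D : α → ℕ} {bc : α → Reg → ℕ → Src} (hD : UPoly D)
    (hbc : Poly (fun p : α × (Reg × ℕ) => bc p.1 p.2.1 p.2.2)) {q : α → Qry} {k : α → ℕ}
    (hq : Poly q) (hk : Poly k) : Poly (fun a => lqd (D a) (bc a) (q a) (k a)) := by
  unfold lqd
  exact NPC.Poly.ite (NPC.Poly.dec_eq (NPC.Poly.length (NPC.Poly.fst hq)) (NPC.Poly.const 0))
    (NPC.Poly.const _) (NPC.Poly.pair (plift hD hbc (NPC.Poly.fst hq))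
      (pcr hk (NPC.Poly.snd hq)))

theorem pfstO {l : α → List Outcome} (h : Poly l) : Poly (fun a => fstO (l a)) := by
  unfold fstO
  refine ((NPC.Poly.optGetD (NPC.Poly.head? (NPC.Poly.filter
    (p := fun _ o => decide (o ≠ none)) h ?_)) (NPC.Poly.const none))).congr fun a => ?_
  · have := NPC.Poly.dec_eq (f := fun p : α × Outcome => p.2) (g := fun _ => (none : Outcome))
      (NPC.Poly.snd NPC.Poly.id) (NPC.Poly.const none)
    refine (NPC.Poly.not this).congr fun p => ?_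
    simp
  · cases (l a).filter (fun o => decide (o ≠ none)) <;> rfl

theorem pdec {D : α → ℕ} (hD : UPoly D) {h : α → List Outcome} (hh : Poly h) :
    Poly (fun a => dec (D a) (h a)) := by
  unfold dec
  have hD1 : UPoly (fun a => D a + 1) := UPoly.add hD (UPoly.const 1)
  have hu : UPoly (fun a => (h a).length / (D a + 1)) :=
    UPoly.of_le (NPC.Poly.div (NPC.Poly.length hh) hD1.toPoly) (UPoly.length hh)
      fun a => Nat.div_le_self _ _
  refine NPC.Poly.map (F := fun a i => fstO ((List.range (D a + 1)).map fun j =>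
    (h a).getD (i * (D a + 1) + j) none)) hu.range ?_
  refine pfstO (α := α × ℕ) ?_
  refine NPC.Poly.map (α := α × ℕ) (l := fun p => List.range (D p.1 + 1)) (F := fun p j =>
    (h p.1).getD (p.2 * (D p.1 + 1) + j) none) (hD1.range.comp (NPC.Poly.fst NPC.Poly.id)) ?_
  have b : Poly (fun q : (α × ℕ) × ℕ => q.1.1) := NPC.Poly.fst (NPC.Poly.fst NPC.Poly.id)
  have b2 : Poly (fun q : (α × ℕ) × ℕ => q.1.2) := NPC.Poly.snd (NPC.Poly.fst NPC.Poly.id)
  have b3 : Poly (fun q : (α × ℕ) × ℕ => q.2) := NPC.Poly.snd NPC.Poly.id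
  exact NPC.Poly.getD (hh.comp b) (NPC.Poly.add (NPC.Poly.mul b2 (hD1.toPoly.comp b)) b3)
    (NPC.Poly.const none)

/-- The transformed computation is controlled in polynomial time. -/
theorem ptr {β : Type} [TEnc β] {D : α → ℕ} {bc : α → Reg → ℕ → Src} (hD : UPoly D)
    (hbc : Poly (fun p : α × (Reg × ℕ) => bc p.1 p.2.1 p.2.2)) {T : α → TT β} (hT : PT T) :
    PT (fun a => tr (D a) (bc a) (T a)) := by
  have b1 : Poly (fun p : α × List Outcome => p.1) := NPC.Poly.fst NPC.Poly.id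
  have b2 : Poly (fun p : α × List Outcome => p.2) := NPC.Poly.snd NPC.Poly.id
  have hdec : Poly (fun p : α × List Outcome => dec (D p.1) p.2) := pdec (hD.comp b1) b2
  have hT' : Poly (fun p : α × List Outcome => T p.1 (dec (D p.1) p.2)) :=
    NPC.Poly.comp (g := fun p : α × List Outcome => T p.1 p.2) hT (NPC.Poly.pair b1 hdec)
  have hD1 : UPoly (fun a => D a + 1) := UPoly.add hD (UPoly.const 1)
  have hg : Poly (fun p : (α × List Outcome) × (β × List Outcome) =>
      (Sum.inl (p.2.1, p.1.2.drop (((dec (D p.1.1) p.1.2).length - p.2.2.length) *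
        (D p.1.1 + 1))) : (β × List Outcome) ⊕ Qry)) := by
    refine NPC.Poly.inl (NPC.Poly.pair (NPC.Poly.fst (NPC.Poly.snd NPC.Poly.id)) ?_)
    have c1 : Poly (fun p : (α × List Outcome) × (β × List Outcome) => p.1) :=
      NPC.Poly.fst NPC.Poly.id
    have hu : UPoly (fun p : (α × List Outcome) × (β × List Outcome) =>
        ((dec (D p.1.1) p.1.2).length - p.2.2.length) * (D p.1.1 + 1)) := by
      refine UPoly.of_le (NPC.Poly.mul (NPC.Poly.sub (NPC.Poly.length (hdec.comp c1))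
        (NPC.Poly.length (NPC.Poly.snd (NPC.Poly.snd NPC.Poly.id))))
        (hD1.toPoly.comp (NPC.Poly.fst c1))) (UPoly.length (NPC.Poly.snd c1)) fun p => ?_
      refine (Nat.mul_le_mul_right _ (Nat.sub_le _ _)).trans ?_
      rw [len_dec]
      exact Nat.div_mul_le_self _ _
    refine (TPT.drop_length (NPC.Poly.snd c1) hu).congr fun p => ?_
    rw [List.length_replicate]
  have hh : Poly (fun p : (α × List Outcome) × Qry =>
      (Sum.inr (lqd (D p.1.1) (bc p.1.1) p.2 (p.1.2.length % (D p.1.1 + 1))) :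
        (β × List Outcome) ⊕ Qry)) := by
    have c1 : Poly (fun p : (α × List Outcome) × Qry => p.1.1) :=
      NPC.Poly.fst (NPC.Poly.fst NPC.Poly.id)
    have hbc' : Poly (fun p : ((α × List Outcome) × Qry) × (Reg × ℕ) =>
        bc p.1.1.1 p.2.1 p.2.2) :=
      hbc.comp (f := fun p : ((α × List Outcome) × Qry) × (Reg × ℕ) => (p.1.1.1, p.2))
        (NPC.Poly.pair (NPC.Poly.fst (NPC.Poly.fst (NPC.Poly.fst NPC.Poly.id)))
          (NPC.Poly.snd NPC.Poly.id))
    exact NPC.Poly.inr (plqd (α := (α × List Outcome) × Qry) (D := fun p => D p.1.1)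
      (bc := fun p => bc p.1.1) (hD.comp c1) hbc' (NPC.Poly.snd NPC.Poly.id)
      (NPC.Poly.mod (NPC.Poly.length (NPC.Poly.snd (NPC.Poly.fst NPC.Poly.id)))
        (hD1.toPoly.comp c1)))
  refine (NPC.Poly.sumCases (o := fun p : α × List Outcome => T p.1 (dec (D p.1) p.2))
    (g := fun p q => Sum.inl (q.1, p.2.drop (((dec (D p.1) p.2).length - q.2.length) *
        (D p.1 + 1)))) (h := fun p q => Sum.inr (lqd (D p.1) (bc p.1) q
          (p.2.length % (D p.1 + 1)))) hT' hg hh).congr fun p => ?_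
  show _ = tr (D p.1) (bc p.1) (T p.1) p.2
  unfold tr
  cases T p.1 (dec (D p.1) p.2) <;> rfl

end Pool.Agent.H37.TN
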