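import Pool.Agent.H37.TN.Pert
import Pool.Agent.H37.TN.TrP
import Pool.Agent.H37.CH.Final

/-! The perturbed instance. -/

set_option autoImplicit false

namespace Pool.Agent.H37.TN

open Matrix Pool.Agent.NPC Pool.Agent.H558R2 Pool.Agent.H622R3.SM Pool.Agent.W920.FC
open Pool.Agent.H37.CH

variable {m n r : ℕ}

/-- the number of the row -/
def nu (i : Fin (3 * m)) : Fin m := ⟨(i : ℕ) % m, Nat.mod_lt _ (by have := i.2; omega)⟩

/-- the factor of a row -/
noncomputable def kap (s : Fin m → ℝ) (δ : ℝ) (i : Fin (3 * m)) : ℝ :=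
  if (i : ℕ) < m then s (nu i) else if 2 * m ≤ (i : ℕ) then -δ else δ

/-- the matrix -/
noncomputable def Ad (B : Matrix (Fin m) (Fin r) ℝ) (s : Fin m → ℝ) (δ : ℝ) :
    Matrix (Fin (3 * m)) (Fin r) ℝ :=
  Matrix.of fun i j => kap s δ i * (Gk m (δ ^ 3) * B) (nu i) j

/-- the right-hand side -/
noncomputable def bd (b : Fin m → ℝ) (δ : ℝ) (i : Fin (3 * m)) : ℝ :=
  if (i : ℕ) < m then b (nu i) - δ else -1

theorem Ad_mulVec (B : Matrix (Fin m) (Fin r) ℝ) (s : Fin m → ℝ) (δ : ℝ) (x : Fin r → ℝ)
    (i : Fin (3 * m)) : (Ad B s δ *ᵥ x) i = kap s δ i * ((Gk m (δ ^ 3) * B) *ᵥ x) (nu i) := by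
  simp only [Ad, Matrix.mulVec, dotProduct, Matrix.of_apply, Finset.mul_sum]
  exact Finset.sum_congr rfl fun j _ => by ring

theorem feas_iff (B : Matrix (Fin m) (Fin r) ℝ) (s b : Fin m → ℝ) (δ : ℝ) :
    (∃ x : Fin r → ℝ, ∀ i, bd b δ i ≤ (Ad B s δ *ᵥ x) i) ↔ PS B s b δ := by
  constructor
  · rintro ⟨x, hx⟩
    refine ⟨x, fun i => ?_⟩
    have hi := i.2
    have h0 := hx ⟨i, by omega⟩
    have h1 := hx ⟨m + i, by omega⟩
    have h2 := hx ⟨2 * m + i, by omega⟩
    rw [Ad_mulVec] at h0 h1 h2
    have n0 : nu (⟨i, by omega⟩ : Fin (3 * m)) = i := Fin.ext (Nat.mod_eq_of_lt hi)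
    have n1 : nu (⟨m + i, by omega⟩ : Fin (3 * m)) = i :=
      Fin.ext (by simp [nu, Nat.mod_eq_of_lt hi])
    have n2 : nu (⟨2 * m + i, by omega⟩ : Fin (3 * m)) = i :=
      Fin.ext (by simp [nu, Nat.mod_eq_of_lt hi, Nat.add_mod])
    simp only [bd, kap, n0, n1, n2, hi, if_true] at h0 h1 h2
    rw [if_neg (by omega), if_neg (by omega), if_neg (by omega)] at h1
    rw [if_neg (by omega), if_neg (by omega), if_pos (by omega)] at h2
    exact ⟨h0, h1, h2⟩
  · rintro ⟨x, hx⟩
    refine ⟨x, fun i => ?_⟩
    rw [Ad_mulVec]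
    obtain ⟨h0, h1, h2⟩ := hx (nu i)
    unfold bd kap
    split_ifs
    · exact h0
    · exact h2
    · exact h1

theorem le_of_strictMono {f : Fin r → Fin m} (hf : StrictMono f) : r ≤ m := by
  have := Fintype.card_le_of_injective f hf.injective
  simpa using this

/-- The perturbed instance belongs to a Chebyshev system. -/
theorem cheb_Ad {B T : Matrix (Fin m) (Fin r) ℝ} {P : Matrix (Fin r) (Fin r) ℝ} (hT : NN T)
    (hP : P.det ≠ 0) (hB : B = T * P) {s : Fin m → ℝ} (hs : ∀ i, |s i| = 1) {δ : ℝ} (h0 : 0 < δ)
    (h1 : δ < 1) : ChebyshevRows (3 * m) r (Ad B s δ) := by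
  have ht0 : 0 < δ ^ 3 := pow_pos h0 3
  have ht1 : δ ^ 3 < 1 := pow_lt_one₀ h0.le h1 (by norm_num)
  obtain ⟨f, hf, -⟩ := hT.2
  refine ⟨m, fun i => (Gk m (δ ^ 3) * B) i, ⟨le_of_strictMono hf, P.det, fun f hf => ?_⟩,
    fun i => ⟨nu i, kap s δ i, ?_, fun j => rfl⟩⟩
  · have e : (Matrix.of fun p => (Gk m (δ ^ 3) * B) (f p)) =
        (Gk m (δ ^ 3) * T).submatrix f id * P := by
      rw [hB, ← Matrix.mul_assoc]
      rfl
    rw [e, Matrix.det_mul]
    have h2 := smooth ht0 ht1 hT f hf
    have h3 : 0 < P.det * P.det := mul_self_pos.2 hP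
    have := mul_pos h2 h3
    calc 0 < _ := this
      _ = _ := by ring
  · unfold kap
    split_ifs
    · intro h
      have := hs (nu i)
      rw [h, abs_zero] at this
      exact zero_ne_one this
    · exact neg_ne_zero.2 h0.ne'
    · exact h0.ne'

/-! ### The registers -/

/-- the sign of a row is negative -/
def neg (S : List Outcome) (i : ℕ) : Bool := decide (S.getD i none = some false)

/-- the index with a given exponent -/
def pick (m c i k : ℕ) : Option ℕ :=
  ((List.range m).filter fun l => decide (3 * ex i l + c = k)).head?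

/-- the source of a coefficient of an entry of the matrix -/
def bcA (m : ℕ) (J : List ℕ) (S : List Outcome) (i q k : ℕ) : Src :=
  ((pick m (if i < m then 0 else 1) (i % m) k).map fun l =>
    (xor (neg S l) (if i < m then neg S (i % m) else decide (2 * m ≤ i)),
      [0, l, J.getD q 0])).getD (false, [3])

/-- the source of a coefficient of an entry of the right-hand side -/
def bcB (m i k : ℕ) : Src :=
  if k = 0 then (if i < m then (false, [1, i]) else (true, [2]))
  else if k = 1 ∧ i < m then (true, [2]) else (false, [3])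

/-- the source of a coefficient of a register -/
def bcf (m : ℕ) (J : List ℕ) (S : List Outcome) (r : Reg) (k : ℕ) : Src :=
  if r.length = 3 ∧ r.headD 0 = 0 ∧ r.getD 1 0 < 3 * m ∧ r.getD 2 0 < J.length then
    bcA m J S (r.getD 1 0) (r.getD 2 0) k
  else if r.length = 2 ∧ r.headD 0 = 1 ∧ r.getD 1 0 < 3 * m then bcB m (r.getD 1 0) k
  else if r = [2] ∧ k = 0 then (false, [2]) else (false, [3])

theorem low_bcf (m : ℕ) (J : List ℕ) (S : List Outcome) {D : ℕ} (hD : 6 * m * m + 1 ≤ D) :
    Low D (bcf m J S) (6 * m * m + 1) := by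
  refine ⟨hD, fun r k hk => ?_⟩
  unfold bcf
  split_ifs with h1 h2 h3
  · unfold bcA
    have : pick m (if r.getD 1 0 < m then 0 else 1) (r.getD 1 0 % m) k = none := by
      unfold pick
      have : ((List.range m).filter fun l => decide (3 * ex (r.getD 1 0 % m) l +
          (if r.getD 1 0 < m then 0 else 1) = k)) = [] := by
        rw [List.filter_eq_nil_iff]
        intro l hl
        rw [List.mem_range] at hl
        have hm : r.getD 1 0 % m < m := Nat.mod_lt _ (by omega)
        have h4 := ex_le hm hl
        have h5 : (if r.getD 1 0 < m then 0 else 1) ≤ 1 := by split_ifs <;> simp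
        simp only [decide_eq_true_eq]
        intro h6
        have h7 : 6 * m * m = 3 * (2 * m * m) := by ring
        omega
      rw [this]
      rfl
    rw [this]
    rfl
  · unfold bcB
    rw [if_neg (by omega), if_neg (by omega)]
  · omega
  · rfl

theorem gd_eq (D : ℕ) (g : Reg → ℝ) (bc : Reg → ℕ → Src) (δ : ℝ) (r : Reg) :
    gd D g bc δ r = ∑ k ∈ Finset.range (D + 1), sv g (bc r k) * δ ^ k := by
  unfold gd gX
  rw [Polynomial.eval_finsetSum]
  refine Finset.sum_congr rfl fun k _ => ?_
  rw [Polynomial.eval_mul, Polynomial.eval_C, Polynomial.eval_pow, Polynomial.eval_X]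

theorem pick_sum {g : Reg → ℝ} (hg : Base g) (m D : ℕ) (f : ℕ → ℕ)
    (hf : ∀ a b, f a = f b → a = b) (hD : ∀ l < m, f l ≤ D) (F : ℕ → Src) (δ : ℝ) :
    ∑ k ∈ Finset.range (D + 1), sv g (((((List.range m).filter fun l => decide (f l = k)).head?).map
      F).getD (false, [3])) * δ ^ k = ∑ l ∈ Finset.range m, sv g (F l) * δ ^ f l := by
  have h1 : ∀ k, sv g (((((List.range m).filter fun l => decide (f l = k)).head?).map
      F).getD (false, [3])) = ∑ l ∈ Finset.range m, if f l = k then sv g (F l) else 0 := by
    intro k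
    cases hh : ((List.range m).filter fun l => decide (f l = k)).head? with
    | none =>
      rw [List.head?_eq_none_iff, List.filter_eq_nil_iff] at hh
      rw [Option.map_none, Option.getD_none, sv_nil hg]
      refine (Finset.sum_eq_zero fun l hl => if_neg fun h => ?_).symm
      exact hh l (List.mem_range.2 (Finset.mem_range.1 hl)) (by simpa using h)
    | some l₀ =>
      have h2 := List.mem_of_mem_head? hh
      rw [List.mem_filter, List.mem_range] at h2
      have h3 : f l₀ = k := by simpa using h2.2
      rw [Option.map_some, Option.getD_some, Finset.sum_eq_single l₀]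
      · rw [if_pos h3]
      · intro l _ hl
        exact if_neg fun h => hl (hf _ _ (h.trans h3.symm))
      · exact fun h => absurd (Finset.mem_range.2 h2.1) h
  simp only [h1, Finset.sum_mul]
  rw [Finset.sum_comm]
  refine Finset.sum_congr rfl fun l hl => ?_
  have hl' := hD l (Finset.mem_range.1 hl)
  rw [Finset.sum_eq_single (f l)]
  · rw [if_pos rfl]
  · intro k _ hk
    rw [if_neg fun h => hk h.symm, zero_mul]
  · exact fun h => absurd (Finset.mem_range.2 (by omega)) h

theorem start_else {A : Matrix (Fin m) (Fin n) ℝ} {b : Fin m → ℝ} {r : Reg}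
    (h1 : ¬(r.length = 3 ∧ r.headD 0 = 0)) (h2 : ¬(r.length = 2 ∧ r.headD 0 = 1))
    (h3 : r ≠ [2]) : start A b r = 0 := by
  unfold start
  split
  · exact absurd ⟨rfl, rfl⟩ h1
  · exact absurd ⟨rfl, rfl⟩ h2
  · exact absurd rfl h3
  · rfl

theorem reg3 {r : Reg} (h : r.length = 3 ∧ r.headD 0 = 0) :
    r = [0, r.getD 1 0, r.getD 2 0] := by
  obtain ⟨h1, h2⟩ := h
  match r, h1, h2 with
  | [a, i, j], _, h2 =>
    have : a = 0 := h2
    subst this
    rfl

theorem reg2 {r : Reg} (h : r.length = 2 ∧ r.headD 0 = 1) : r = [1, r.getD 1 0] := by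
  obtain ⟨h1, h2⟩ := h
  match r, h1, h2 with
  | [a, i], _, h2 =>
    have : a = 1 := h2
    subst this
    rfl

/-- the signs as numbers -/
noncomputable def sR (S : List Outcome) (i : ℕ) : ℝ := if neg S i = true then -1 else 1

theorem sR_abs (S : List Outcome) (i : ℕ) : |sR S i| = 1 := by
  unfold sR
  split_ifs <;> simp

theorem sR_xor (a c : Bool) : (if xor a c = true then (-1 : ℝ) else 1) =
    (if a = true then -1 else 1) * (if c = true then -1 else 1) := by
  cases a <;> cases c <;> simp

theorem start_ij (A : Matrix (Fin m) (Fin n) ℝ) (b : Fin m → ℝ) {i j : ℕ} (hi : i < m)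
    (hj : j < n) : start A b [0, i, j] = A ⟨i, hi⟩ ⟨j, hj⟩ := by
  show (if h : i < m ∧ j < n then A ⟨i, h.1⟩ ⟨j, h.2⟩ else 0) = _
  rw [dif_pos ⟨hi, hj⟩]

theorem start_i (A : Matrix (Fin m) (Fin n) ℝ) (b : Fin m → ℝ) {i : ℕ} (hi : i < m) :
    start A b [1, i] = b ⟨i, hi⟩ := by
  show (if h : i < m then b ⟨i, h⟩ else 0) = _
  rw [dif_pos hi]

/-- the matrix of the reduced system -/
noncomputable def BJ (A : Matrix (Fin m) (Fin n) ℝ) (fJ : Fin r → Fin n) (S : List Outcome) :
    Matrix (Fin m) (Fin r) ℝ := Matrix.of fun i q => sR S i * A i (fJ q)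

/-- **The registers of the perturbed instance.** -/
theorem gd_start (A : Matrix (Fin m) (Fin n) ℝ) (b : Fin m → ℝ) {J : List ℕ}
    {S : List Outcome} {fJ : Fin J.length → Fin n} (hJ : ∀ q, (fJ q : ℕ) = J.getD q 0)
    {D : ℕ} (hD : 6 * m * m + 1 ≤ D) (δ : ℝ) :
    gd D (start A b) (bcf m J S) δ =
      start (Ad (BJ A fJ S) (fun i => sR S i) δ) (bd b δ) := by
  have hg : Base (start A b) := ⟨rfl, rfl⟩
  have h3 : ∀ x : Bool, sv (start A b) (x, [3]) = 0 := by
    intro x
    unfold sv rd
    simp [show start A b [3] = 0 from rfl]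
  funext r
  rw [gd_eq]
  by_cases c1 : r.length = 3 ∧ r.headD 0 = 0
  · rw [reg3 c1]
    set i := r.getD 1 0
    set q := r.getD 2 0
    by_cases c2 : i < 3 * m ∧ q < J.length
    · obtain ⟨hi, hq⟩ := c2
      have hm : i % m < m := Nat.mod_lt _ (by omega)
      have e1 : ∀ k, bcf m J S [0, i, q] k = bcA m J S i q k := fun k => by
        unfold bcf
        exact if_pos ⟨rfl, rfl, hi, hq⟩
      rw [start_ij _ _ hi hq]
      simp only [e1]
      unfold bcA pick
      rw [pick_sum hg m D (fun l => 3 * ex (i % m) l + if i < m then 0 else 1)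
        (fun a c hac => ex_inj (i := i % m) (by omega)) (fun l hl => by
          have h4 := ex_le hm hl
          have h5 : (if i < m then 0 else 1) ≤ 1 := by split_ifs <;> simp
          have h7 : 6 * m * m = 3 * (2 * m * m) := by ring
          omega)]
      simp only [Ad, Matrix.of_apply, Matrix.mul_apply, Finset.mul_sum]
      rw [← Fin.sum_univ_eq_sum_range (fun l => sv (start A b) (xor (neg S l)
        (if i < m then neg S (i % m) else decide (2 * m ≤ i)), [0, l, J.getD q 0]) *
          δ ^ (3 * ex (i % m) l + if i < m then 0 else 1)) m]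
      refine Finset.sum_congr rfl fun l _ => ?_
      have hjn : J.getD q 0 < n := by
        have := hJ ⟨q, hq⟩
        have h5 := (fJ ⟨q, hq⟩).2
        simp only at this
        omega
      have e2 : sv (start A b) (xor (neg S l)
          (if i < m then neg S (i % m) else decide (2 * m ≤ i)), [0, (l : ℕ), J.getD q 0]) =
          (sR S l * (if (if i < m then neg S (i % m) else decide (2 * m ≤ i)) = true then -1
            else 1)) * A l (fJ ⟨q, hq⟩) := by
        unfold sv
        rw [sR_xor]
        have : rd (xor (neg S l) (if i < m then neg S (i % m) else decide (2 * m ≤ i)),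
            [0, (l : ℕ), J.getD q 0]) = [0, (l : ℕ), J.getD q 0] := if_pos (by simp)
        rw [this, start_ij A b l.2 hjn]
        have h5 : (⟨J.getD q 0, hjn⟩ : Fin n) = fJ ⟨q, hq⟩ := Fin.ext (hJ ⟨q, hq⟩).symm
        rw [h5]
        rfl
      rw [e2]
      simp only [BJ, Gk, Matrix.of_apply]
      have e3 : ((nu (⟨i, hi⟩ : Fin (3 * m)) : Fin m) : ℕ) = i % m := rfl
      rw [e3]
      unfold kap
      simp only [e3]
      by_cases t1 : i < m
      · simp only [if_pos t1]
        rw [add_zero, pow_mul, show sR S (i % m) = if neg S (i % m) = true then (-1 : ℝ) else 1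
          from rfl]
        ring
      · simp only [if_neg t1]
        by_cases t2 : 2 * m ≤ i
        · simp only [t2, decide_true, if_true]
          rw [pow_succ, pow_mul]
          ring
        · simp only [t2, decide_false, if_false, Bool.false_eq_true]
          rw [pow_succ, pow_mul]
          ring
    · have e1 : ∀ k, bcf m J S [0, i, q] k = (false, [3]) := fun k => by
        unfold bcf
        rw [if_neg fun h => c2 ⟨h.2.2.1, h.2.2.2⟩, if_neg (by simp), if_neg (by simp)]
      simp only [e1, h3, zero_mul, Finset.sum_const_zero]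
      show 0 = if h : i < 3 * m ∧ q < J.length then _ else 0
      rw [dif_neg c2]
  · by_cases c2 : r.length = 2 ∧ r.headD 0 = 1
    · rw [reg2 c2]
      set i := r.getD 1 0
      by_cases hi : i < 3 * m
      · have e1 : ∀ k, bcf m J S [1, i] k = bcB m i k := fun k => by
          unfold bcf
          rw [if_neg (by simp)]
          exact if_pos ⟨rfl, rfl, hi⟩
        rw [start_i _ _ hi]
        simp only [e1]
        have hD1 : D + 1 = (D - 1) + 1 + 1 := by omega
        rw [hD1, Finset.sum_range_succ', Finset.sum_range_succ']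
        have e2 : ∀ k, bcB m i (k + 1 + 1) = (false, [3]) := fun k => by
          unfold bcB
          rw [if_neg (by omega), if_neg (by omega)]
        simp only [e2, h3, zero_mul, Finset.sum_const_zero, zero_add]
        unfold bd
        have e3 : nu (⟨i, hi⟩ : Fin (3 * m)) = ⟨i % m, Nat.mod_lt _ (by omega)⟩ := rfl
        by_cases t1 : i < m
        · have e4 : bcB m i 1 = (true, [2]) := by
            unfold bcB
            rw [if_neg (by omega), if_pos ⟨rfl, t1⟩]
          have e5 : bcB m i 0 = (false, [1, i]) := by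
            unfold bcB
            rw [if_pos rfl, if_pos t1]
          have e6 : sv (start A b) (true, [2]) = -1 := by
            unfold sv rd
            simp [show start A b [2] = 1 from rfl]
          have e7 : sv (start A b) (false, [1, i]) = b ⟨i, t1⟩ := by
            unfold sv rd
            simp [start_i A b t1]
          rw [e4, e5, e6, e7]
          simp only [if_pos t1]
          have e8 : nu (⟨i, hi⟩ : Fin (3 * m)) = ⟨i, t1⟩ := Fin.ext (Nat.mod_eq_of_lt t1)
          rw [e8]
          ring
        · have e4 : bcB m i 1 = (false, [3]) := by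
            unfold bcB
            rw [if_neg (by omega), if_neg (by omega)]
          have e5 : bcB m i 0 = (true, [2]) := by
            unfold bcB
            rw [if_pos rfl, if_neg t1]
          have e6 : sv (start A b) (true, [2]) = -1 := by
            unfold sv rd
            simp [show start A b [2] = 1 from rfl]
          rw [e4, e5, e6, h3]
          simp only [if_neg t1]
          ring
      · have e1 : ∀ k, bcf m J S [1, i] k = (false, [3]) := fun k => by
          unfold bcf
          rw [if_neg (by simp), if_neg fun h => hi h.2.2, if_neg (by simp)]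
        simp only [e1, h3, zero_mul, Finset.sum_const_zero]
        show 0 = if h : i < 3 * m then _ else 0
        rw [dif_neg hi]
    · by_cases c3 : r = [2]
      · subst c3
        show _ = 1
        have e1 : ∀ k, bcf m J S [2] (k + 1) = (false, [3]) := fun k => by
          unfold bcf
          rw [if_neg (by simp), if_neg (by simp), if_neg (by simp)]
        have e2 : bcf m J S [2] 0 = (false, [2]) := by
          unfold bcf
          rw [if_neg (by simp), if_neg (by simp), if_pos ⟨rfl, rfl⟩]
        rw [Finset.sum_range_succ']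
        simp only [e1, h3, zero_mul, Finset.sum_const_zero, zero_add, e2]
        unfold sv rd
        simp [show start A b [2] = 1 from rfl]
      · rw [start_else c1 c2 c3]
        have e1 : ∀ k, bcf m J S r k = (false, [3]) := fun k => by
          unfold bcf
          rw [if_neg fun h => c1 ⟨h.1, h.2.1⟩, if_neg fun h => c2 ⟨h.1, h.2.1⟩,
            if_neg fun h => c3 h.1]
        simp only [e1, h3, zero_mul, Finset.sum_const_zero]

end Pool.Agent.H37.TN
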