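import Pool.Agent.H37.TN.Lift

/-! Sizes of the coefficients of a polynomial, from its values. -/

set_option autoImplicit false

namespace Pool.Agent.H37.TN

open Pool.Agent.NPC Pool.Agent.H558R2 Pool.Agent.H622R3.SM Pool.Agent.W920.FC Pool.Agent.H37.CH
open Polynomial

theorem qb_mono {a b : ℕ} {v : ℝ} (h : QB a v) (hab : a ≤ b) : QB b v := by
  obtain ⟨E, z, h1, h2, h3, h4⟩ := h
  have := Nat.pow_le_pow_right (n := 2) (by norm_num) hab
  exact ⟨E, z, h1, h2.trans this, h3.trans this, h4⟩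

theorem qb_zero (a : ℕ) : QB a 0 :=
  ⟨1, 0, le_rfl, Nat.one_le_two_pow, by simp, by simp⟩

theorem qb_mul {a b : ℕ} {v w : ℝ} (h : QB a v) (h' : QB b w) : QB (a + b) (v * w) := by
  obtain ⟨E, z, h1, h2, h3, h4⟩ := h
  obtain ⟨E', z', h1', h2', h3', h4'⟩ := h'
  refine ⟨E * E', z * z', Nat.mul_pos h1 h1', ?_, ?_, ?_⟩
  · rw [pow_add]; exact Nat.mul_le_mul h2 h2'
  · rw [pow_add, Int.natAbs_mul]; exact Nat.mul_le_mul h3 h3'
  · push_cast
    rw [← h4, ← h4']
    ring

theorem qb_add {a b : ℕ} {v w : ℝ} (h : QB a v) (h' : QB b w) : QB (a + b + 1) (v + w) := by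
  obtain ⟨E, z, h1, h2, h3, h4⟩ := h
  obtain ⟨E', z', h1', h2', h3', h4'⟩ := h'
  have e : 2 ^ (a + b + 1) = 2 ^ a * 2 ^ b + 2 ^ a * 2 ^ b := by
    rw [pow_succ, pow_add]; ring
  refine ⟨E * E', z * E' + z' * E, Nat.mul_pos h1 h1', ?_, ?_, ?_⟩
  · rw [e]
    exact (Nat.mul_le_mul h2 h2').trans (Nat.le_add_right _ _)
  · rw [e]
    refine (Int.natAbs_add_le _ _).trans (Nat.add_le_add ?_ ?_)
    · rw [Int.natAbs_mul, Int.natAbs_natCast]
      exact Nat.mul_le_mul h3 h2'
    · rw [Int.natAbs_mul, Int.natAbs_natCast, mul_comm]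
      exact Nat.mul_le_mul h2 h3'
  · push_cast
    rw [← h4, ← h4']
    ring

theorem qb_sum {a : ℕ} (f : ℕ → ℝ) : ∀ n : ℕ, (∀ i < n, QB a (f i)) →
    QB (n * (a + 1)) (∑ i ∈ Finset.range n, f i) := by
  intro n
  induction n with
  | zero =>
    intro _
    rw [Finset.sum_range_zero]
    exact qb_zero _
  | succ n ih =>
    intro h
    rw [Finset.sum_range_succ]
    have := qb_add (ih fun i hi => h i (by omega)) (h n (by omega))
    refine qb_mono this ?_
    rw [Nat.succ_mul]
    omega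

theorem qb_int {a : ℕ} {z : ℤ} (h : z.natAbs ≤ 2 ^ a) : QB a (z : ℝ) :=
  ⟨1, z, le_rfl, Nat.one_le_two_pow, h, by simp⟩

theorem coeff_prod (s : Finset ℕ) : ∀ k : ℕ, ∃ z : ℤ,
    (∏ i ∈ s, (X - C (i : ℝ))).coeff k = (z : ℝ) ∧ z.natAbs ≤ ∏ i ∈ s, (1 + i) := by
  classical
  induction s using Finset.induction_on with
  | empty =>
    intro k
    rw [Finset.prod_empty, Finset.prod_empty, Polynomial.coeff_one]
    split_ifs
    · exact ⟨1, by simp, by simp⟩
    · exact ⟨0, by simp, by simp⟩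
  | insert i s hi ih =>
    intro k
    rw [Finset.prod_insert hi, Finset.prod_insert hi]
    obtain ⟨z, h1, h2⟩ := ih k
    rcases k with _ | k
    · refine ⟨-(i * z), ?_, ?_⟩
      · rw [sub_mul, Polynomial.coeff_sub, Polynomial.mul_coeff_zero, Polynomial.coeff_X_zero,
          Polynomial.coeff_C_mul, h1]
        push_cast
        ring
      · rw [Int.natAbs_neg, Int.natAbs_mul, Int.natAbs_natCast]
        exact Nat.mul_le_mul (by omega) h2
    · obtain ⟨z', h1', h2'⟩ := ih k
      refine ⟨z' - i * z, ?_, ?_⟩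
      · rw [sub_mul, Polynomial.coeff_sub, Polynomial.coeff_X_mul, Polynomial.coeff_C_mul, h1, h1']
        push_cast
        ring
      · refine (Int.natAbs_sub_le _ _).trans ?_
        rw [Int.natAbs_mul, Int.natAbs_natCast, Nat.add_mul, Nat.one_mul]
        exact Nat.add_le_add h2' (Nat.mul_le_mul_left _ h2)

theorem prod_le_pow (s : Finset ℕ) (f : ℕ → ℕ) (a n : ℕ) (hs : s.card ≤ n)
    (h : ∀ i ∈ s, f i ≤ 2 ^ a) : ∏ i ∈ s, f i ≤ 2 ^ (n * a) := by
  calc ∏ i ∈ s, f i ≤ ∏ _i ∈ s, 2 ^ a := Finset.prod_le_prod' h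
    _ = 2 ^ (s.card * a) := by rw [Finset.prod_const, ← pow_mul, mul_comm]
    _ ≤ 2 ^ (n * a) := Nat.pow_le_pow_right (by norm_num) (Nat.mul_le_mul_right _ hs)

/-- the size of the coefficients -/
def iB (β D : ℕ) : ℕ := (D + 1) * (β + 2 * ((D + 1) * (D + 1)) + 1)

/-- The coefficients of a polynomial of degree at most `D` are not much larger than its values. -/
theorem qb_coeff {W : ℝ[X]} {D β : ℕ} (hW : W.natDegree ≤ D)
    (h : ∀ j ≤ D, QB β (W.eval (j : ℝ))) (k : ℕ) : QB (iB β D) (W.coeff k) := by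
  classical
  have hinj : Set.InjOn (fun j : ℕ => (j : ℝ)) (Finset.range (D + 1)) :=
    fun a _ b _ hab => Nat.cast_injective hab
  have hdeg : W.degree < (Finset.range (D + 1)).card := by
    rw [Finset.card_range]
    refine lt_of_le_of_lt Polynomial.degree_le_natDegree ?_
    exact_mod_cast Nat.lt_succ_of_le hW
  have hint := Lagrange.eq_interpolate hinj hdeg
  have hc : W.coeff k = ∑ j ∈ Finset.range (D + 1), W.eval (j : ℝ) *
      ((∏ i ∈ (Finset.range (D + 1)).erase j, ((j : ℝ) - i)⁻¹) *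
        (∏ i ∈ (Finset.range (D + 1)).erase j, (X - C (i : ℝ))).coeff k) := by
    conv_lhs => rw [hint]
    rw [Lagrange.interpolate_apply, Polynomial.finsetSum_coeff]
    refine Finset.sum_congr rfl fun j _ => ?_
    rw [Polynomial.coeff_C_mul]
    congr 1
    unfold Lagrange.basis Lagrange.basisDivisor
    rw [Finset.prod_mul_distrib, ← map_prod, Polynomial.coeff_C_mul]
  rw [hc]
  refine qb_sum _ _ fun j hj => ?_
  rw [show β + 2 * ((D + 1) * (D + 1)) = β + ((D + 1) * (D + 1) + (D + 1) * (D + 1)) by ring]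
  have hcard : ((Finset.range (D + 1)).erase j).card ≤ D + 1 :=
    (Finset.card_le_card (Finset.erase_subset _ _)).trans (by simp)
  have hD2 : D + 1 ≤ 2 ^ (D + 1) := Nat.lt_two_pow_self.le
  refine qb_mul (h j (by omega)) (qb_mul ?_ ?_)
  · refine ⟨∏ i ∈ (Finset.range (D + 1)).erase j, ((j : ℤ) - i).natAbs,
      ∏ i ∈ (Finset.range (D + 1)).erase j, ((j : ℤ) - i).sign, ?_, ?_, ?_, ?_⟩
    · refine Finset.one_le_prod' fun i hi => ?_
      have := (Finset.mem_erase.1 hi).1
      omega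
    · refine prod_le_pow _ _ _ _ hcard fun i hi => ?_
      have h1 := (Finset.mem_erase.1 hi).2
      rw [Finset.mem_range] at h1
      have : ((j : ℤ) - i).natAbs ≤ D + 1 := by omega
      exact this.trans hD2
    · have e : ∀ s : Finset ℕ, (∏ i ∈ s, ((j : ℤ) - i).sign).natAbs ≤ 1 := by
        intro s
        induction s using Finset.induction_on with
        | empty => simp
        | insert i s hi ih =>
          rw [Finset.prod_insert hi, Int.natAbs_mul]
          have h2 : ((j : ℤ) - i).sign.natAbs ≤ 1 := by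
            rcases lt_trichotomy ((j : ℤ) - i) 0 with h1 | h1 | h1
            · rw [Int.sign_eq_neg_one_of_neg h1]; simp
            · rw [h1]; simp
            · rw [Int.sign_eq_one_of_pos h1]; simp
          exact Nat.mul_le_mul h2 ih
      exact (e _).trans Nat.one_le_two_pow
    · push_cast
      rw [← Finset.prod_mul_distrib]
      refine Finset.prod_congr rfl fun i hi => ?_
      have h1 := (Finset.mem_erase.1 hi).1
      have h2 : ((j : ℤ) - i) ≠ 0 := by omega
      have h3 : ((j : ℝ) - i) ≠ 0 := by exact_mod_cast h2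
      have h4 : ((((j : ℤ) - i).sign : ℤ) : ℝ) * ((j : ℝ) - i) = |(j : ℝ) - i| := by
        have h5 := Int.sign_mul_self_eq_abs ((j : ℤ) - i)
        have h6 := congrArg (fun t : ℤ => (t : ℝ)) h5
        push_cast at h6
        exact h6
      have h5 : (((((j : ℤ) - i).natAbs : ℕ)) : ℝ) = |(j : ℝ) - i| := by
        rw [Nat.cast_natAbs]
        push_cast
        rfl
      rw [h5, ← h4]
      field_simp
  · obtain ⟨z, h1, h2⟩ := coeff_prod ((Finset.range (D + 1)).erase j) k
    rw [h1]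
    refine qb_int (h2.trans (prod_le_pow _ _ _ _ hcard fun i hi => ?_))
    have h1 := (Finset.mem_erase.1 hi).2
    rw [Finset.mem_range] at h1
    exact (by omega : 1 + i ≤ D + 1).trans hD2

end Pool.Agent.H37.TN
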