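import Pool.Agent.H37.CH.Det
import Pool.Graph.R_seed8.W920.FC.T_ORD2A

/-! Programs for truncated power series. -/

set_option autoImplicit false

namespace Pool.Agent.H37.TN

open Pool.Agent.NPC Pool.Agent.H558R2 Pool.Agent.H622R3.SM Pool.Agent.W920.FC Pool.Agent.H37.CH
open Pool.Agent.Y648.CS.TDET (b2 b3)

/-- the register of a coefficient -/
def cr (k : ℕ) (r : Reg) : Reg := 60 :: k :: r

/-- the register of a coefficient of an operand of the instruction with the target `d` -/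
def opn (h : ℕ) (d r : Reg) (k : ℕ) : Reg := if r.headD 0 < 4 then h :: k :: d else cr k r

/-- the coefficients of an operand -/
def opI (D : ℕ) (bc : Reg → ℕ → Src) (h : ℕ) (d r : Reg) : List Instr :=
  if r.headD 0 < 4 then (List.range (D + 1)).map fun k => srcI (bc r k) (h :: k :: d) else []

/-- one coefficient of a product -/
def mulI (I : Instr) (k : ℕ) : List Instr :=
  ((⟨Op.add, 62 :: k :: 0 :: I.dst, [3], [3]⟩ : Instr) ::
    ((List.range (k + 1)).flatMap fun j =>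
      [(⟨Op.mul, 61 :: k :: j :: I.dst, opn 63 I.dst I.fst j, opn 64 I.dst I.snd (k - j)⟩ : Instr),
        ⟨Op.add, 62 :: k :: (j + 1) :: I.dst, 62 :: k :: j :: I.dst, 61 :: k :: j :: I.dst⟩])) ++
    [(⟨Op.add, cr k I.dst, 62 :: k :: (k + 1) :: I.dst, [3]⟩ : Instr)]

/-- one coefficient of a sum, a difference or a quotient -/
def oneI (I : Instr) (k : ℕ) : List Instr :=
  [⟨I.op, cr k I.dst, opn 63 I.dst I.fst k, opn 64 I.dst I.snd (if I.op = Op.div then 0 else k)⟩]

/-- the coefficients of the result -/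
def body (D : ℕ) (I : Instr) : List Instr :=
  (List.range (D + 1)).flatMap fun k => if I.op = Op.mul then mulI I k else oneI I k

/-- the program of an instruction -/
def liftI (D : ℕ) (bc : Reg → ℕ → Src) (I : Instr) : List Instr :=
  opI D bc 63 I.dst I.fst ++ (opI D bc 64 I.dst I.snd ++ body D I)

/-- the program -/
def lift (D : ℕ) (bc : Reg → ℕ → Src) (P : List Instr) : List Instr := P.flatMap (liftI D bc)

/-! ### Order -/

/-- the order of the registers of a block -/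
def key : Reg → List ℕ
  | 63 :: k :: _ => [0, k]
  | 64 :: k :: _ => [1, k]
  | 62 :: k :: j :: _ => [2, k, 2 * j]
  | 61 :: k :: j :: _ => [2, k, 2 * j + 1]
  | 60 :: k :: _ => [2, k, 2 * k + 3]
  | _ => []

theorem pairwise_flatMap {α β : Type} {R : β → β → Prop} (f : α → List β) :
    ∀ l : List α, (∀ a ∈ l, (f a).Pairwise R) →
      l.Pairwise (fun a b => ∀ x ∈ f a, ∀ y ∈ f b, R x y) → (l.flatMap f).Pairwise R := by
  intro l
  induction l with
  | nil => simp
  | cons a l ih =>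
    intro h1 h2
    rw [List.pairwise_cons] at h2
    rw [List.flatMap_cons, List.pairwise_append]
    refine ⟨h1 a (by simp), ih (fun b hb => h1 b (by simp [hb])) h2.2, fun x hx y hy => ?_⟩
    obtain ⟨b, hb, hy⟩ := List.mem_flatMap.1 hy
    exact h2.1 b hb x hx y hy

theorem pairwise_range (n : ℕ) : (List.range n).Pairwise (· < ·) := List.pairwise_lt_range

variable {D : ℕ} {bc : Reg → ℕ → Src}

theorem mem_opI {h : ℕ} {d r : Reg} {J : Instr} (hJ : J ∈ opI D bc h d r) :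
    r.headD 0 < 4 ∧ ∃ k ≤ D, J = srcI (bc r k) (h :: k :: d) := by
  unfold opI at hJ
  split_ifs at hJ with h1
  · simp only [List.mem_map, List.mem_range] at hJ
    obtain ⟨k, hk, rfl⟩ := hJ
    exact ⟨h1, k, by omega, rfl⟩
  · exact absurd hJ (by simp)

theorem mem_mulI {I J : Instr} {k : ℕ} (hJ : J ∈ mulI I k) :
    J = ⟨Op.add, 62 :: k :: 0 :: I.dst, [3], [3]⟩ ∨
    (∃ j ≤ k, J = ⟨Op.mul, 61 :: k :: j :: I.dst, opn 63 I.dst I.fst j,
      opn 64 I.dst I.snd (k - j)⟩) ∨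
    (∃ j ≤ k, J = ⟨Op.add, 62 :: k :: (j + 1) :: I.dst, 62 :: k :: j :: I.dst,
      61 :: k :: j :: I.dst⟩) ∨
    J = ⟨Op.add, cr k I.dst, 62 :: k :: (k + 1) :: I.dst, [3]⟩ := by
  simp only [mulI, List.mem_append, List.mem_cons, List.mem_flatMap, List.mem_range,
    List.not_mem_nil, or_false] at hJ
  rcases hJ with (h | ⟨j, hj, h | h⟩) | h
  · exact Or.inl h
  · exact Or.inr (Or.inl ⟨j, by omega, h⟩)
  · exact Or.inr (Or.inr (Or.inl ⟨j, by omega, h⟩))
  · exact Or.inr (Or.inr (Or.inr h))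

theorem mem_body {I J : Instr} (hJ : J ∈ body D I) : ∃ k ≤ D,
    (I.op = Op.mul ∧ J ∈ mulI I k) ∨ (I.op ≠ Op.mul ∧ J ∈ oneI I k) := by
  simp only [body, List.mem_flatMap, List.mem_range] at hJ
  obtain ⟨k, hk, hJ⟩ := hJ
  refine ⟨k, by omega, ?_⟩
  split_ifs at hJ with h
  · exact Or.inl ⟨h, hJ⟩
  · exact Or.inr ⟨h, hJ⟩

theorem mem_liftI {I J : Instr} (hJ : J ∈ liftI D bc I) :
    (I.fst.headD 0 < 4 ∧ ∃ k ≤ D, J = srcI (bc I.fst k) (63 :: k :: I.dst)) ∨
    (I.snd.headD 0 < 4 ∧ ∃ k ≤ D, J = srcI (bc I.snd k) (64 :: k :: I.dst)) ∨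
    ∃ k ≤ D, (I.op = Op.mul ∧ J ∈ mulI I k) ∨ (I.op ≠ Op.mul ∧ J ∈ oneI I k) := by
  rw [liftI, List.mem_append, List.mem_append] at hJ
  rcases hJ with h | h | h
  · exact Or.inl (mem_opI h)
  · exact Or.inr (Or.inl (mem_opI h))
  · exact Or.inr (Or.inr (mem_body h))

theorem lt_of_cons {a b : ℕ} {l l' : List ℕ} (h : a < b) : a :: l < b :: l' :=
  List.cons_lt_cons_iff.2 (Or.inl h)

theorem lt_of_cons' {a : ℕ} {l l' : List ℕ} (h : l < l') : a :: l < a :: l' :=
  List.cons_lt_cons_iff.2 (Or.inr ⟨rfl, h⟩)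

theorem key_mulI {I J : Instr} {k : ℕ} (hJ : J ∈ mulI I k) :
    ∃ t ≤ 2 * k + 3, key J.dst = [2, k, t] := by
  rcases mem_mulI hJ with rfl | ⟨j, hj, rfl⟩ | ⟨j, hj, rfl⟩ | rfl
  · exact ⟨0, by omega, rfl⟩
  · exact ⟨2 * j + 1, by omega, rfl⟩
  · exact ⟨2 * (j + 1), by omega, rfl⟩
  · exact ⟨2 * k + 3, le_rfl, rfl⟩

theorem pw_mulI (I : Instr) (k : ℕ) :
    (mulI I k).Pairwise (fun I J => key I.dst < key J.dst) := by
  unfold mulI
  rw [List.pairwise_append, List.pairwise_cons]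
  refine ⟨⟨fun J hJ => ?_, ?_⟩, List.pairwise_singleton _ _, fun J hJ J' hJ' => ?_⟩
  · obtain ⟨j, hj, hJ⟩ := List.mem_flatMap.1 hJ
    simp only [List.mem_cons, List.not_mem_nil, or_false] at hJ
    rcases hJ with rfl | rfl <;> exact lt_of_cons' (lt_of_cons' (lt_of_cons (by omega)))
  · refine pairwise_flatMap _ _ (fun j _ => ?_) ((pairwise_range _).imp fun {a b} hab x hx y hy => ?_)
    · rw [List.pairwise_cons]
      refine ⟨fun J hJ => ?_, List.pairwise_singleton _ _⟩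
      rw [List.mem_singleton.1 hJ]
      exact lt_of_cons' (lt_of_cons' (lt_of_cons (by omega)))
    · simp only [List.mem_cons, List.not_mem_nil, or_false] at hx hy
      rcases hx with rfl | rfl <;> rcases hy with rfl | rfl <;>
        exact lt_of_cons' (lt_of_cons' (lt_of_cons (by omega)))
  · rw [List.mem_singleton.1 hJ']
    rcases List.mem_cons.1 hJ with rfl | hJ
    · exact lt_of_cons' (lt_of_cons' (lt_of_cons (by omega)))
    · obtain ⟨j, hj, hJ⟩ := List.mem_flatMap.1 hJ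
      rw [List.mem_range] at hj
      simp only [List.mem_cons, List.not_mem_nil, or_false] at hJ
      rcases hJ with rfl | rfl <;> exact lt_of_cons' (lt_of_cons' (lt_of_cons (by omega)))

theorem key_body {I J : Instr} (hJ : J ∈ body D I) : ∃ k t, key J.dst = [2, k, t] := by
  obtain ⟨k, -, ⟨-, h⟩ | ⟨-, h⟩⟩ := mem_body hJ
  · obtain ⟨t, -, h⟩ := key_mulI h
    exact ⟨k, t, h⟩
  · rw [List.mem_singleton.1 h]
    exact ⟨k, 2 * k + 3, rfl⟩

theorem pw_body (I : Instr) : (body D I).Pairwise (fun I J => key I.dst < key J.dst) := by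
  unfold body
  refine pairwise_flatMap _ _ (fun k _ => ?_) ((pairwise_range _).imp fun {a b} hab x hx y hy => ?_)
  · split_ifs
    · exact pw_mulI I k
    · exact List.pairwise_singleton _ _
  · split_ifs at hx hy with h
    · obtain ⟨t, -, h1⟩ := key_mulI hx
      obtain ⟨t', -, h2⟩ := key_mulI hy
      rw [h1, h2]
      exact lt_of_cons' (lt_of_cons hab)
    · rw [List.mem_singleton.1 hx, List.mem_singleton.1 hy]
      exact lt_of_cons' (lt_of_cons hab)

theorem pw_opI (h : ℕ) (hh : h = 63 ∨ h = 64) (d r : Reg) :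
    (opI D bc h d r).Pairwise (fun I J => key I.dst < key J.dst) := by
  unfold opI
  split_ifs
  · rw [List.pairwise_map]
    refine (pairwise_range _).imp fun {a b} hab => ?_
    rw [srcI_dst, srcI_dst]
    rcases hh with rfl | rfl <;> exact lt_of_cons' (lt_of_cons hab)
  · exact List.Pairwise.nil

theorem pw_liftI (I : Instr) :
    (liftI D bc I).Pairwise (fun I J => key I.dst < key J.dst) := by
  unfold liftI
  rw [List.pairwise_append, List.pairwise_append]
  refine ⟨pw_opI 63 (Or.inl rfl) _ _, ⟨pw_opI 64 (Or.inr rfl) _ _, pw_body I,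
    fun J hJ J' hJ' => ?_⟩, fun J hJ J' hJ' => ?_⟩
  · obtain ⟨-, k, -, rfl⟩ := mem_opI hJ
    obtain ⟨k', t, h⟩ := key_body hJ'
    rw [srcI_dst, h]
    exact lt_of_cons (by omega)
  · obtain ⟨-, k, -, rfl⟩ := mem_opI hJ
    rw [srcI_dst]
    rcases List.mem_append.1 hJ' with hJ' | hJ'
    · obtain ⟨-, k', -, rfl⟩ := mem_opI hJ'
      rw [srcI_dst]
      exact lt_of_cons (by omega)
    · obtain ⟨k', t, h⟩ := key_body hJ'
      rw [h]
      exact lt_of_cons (by omega)

/-- the registers which belong to `d` -/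
def Own (d r : Reg) : Prop := ∃ k : ℕ, r = 60 :: k :: d ∨ (∃ j : ℕ, r = 61 :: k :: j :: d) ∨
  (∃ j : ℕ, r = 62 :: k :: j :: d) ∨ r = 63 :: k :: d ∨ r = 64 :: k :: d

theorem own_unique {d d' r : Reg} (h : Own d r) (h' : Own d' r) : d = d' := by
  obtain ⟨k, h⟩ := h
  obtain ⟨k', h'⟩ := h'
  rcases h with rfl | ⟨j, rfl⟩ | ⟨j, rfl⟩ | rfl | rfl <;>
    rcases h' with h' | ⟨j', h'⟩ | ⟨j', h'⟩ | h' | h' <;>
    simp_all

theorem own_base {d r : Reg} (h : Own d r) : r ∉ baseReg := by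
  obtain ⟨k, rfl | ⟨j, rfl⟩ | ⟨j, rfl⟩ | rfl | rfl⟩ := h <;> simp [baseReg]

theorem own_lift {I J : Instr} (hJ : J ∈ liftI D bc I) : Own I.dst J.dst := by
  rcases mem_liftI hJ with ⟨-, k, -, rfl⟩ | ⟨-, k, -, rfl⟩ | ⟨k, -, ⟨-, h⟩ | ⟨-, h⟩⟩
  · rw [srcI_dst]; exact ⟨k, by simp⟩
  · rw [srcI_dst]; exact ⟨k, by simp⟩
  · rcases mem_mulI h with rfl | ⟨j, -, rfl⟩ | ⟨j, -, rfl⟩ | rfl <;> exact ⟨k, by simp [cr]⟩
  · rw [List.mem_singleton.1 h]
    exact ⟨k, Or.inl rfl⟩

theorem wr_opn {h : ℕ} {d r : Reg} (hr : r.headD 0 < 4) {k : ℕ} (hk : k ≤ D) :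
    ∃ J ∈ opI D bc h d r, J.dst = h :: k :: d := by
  unfold opI
  rw [if_pos hr]
  exact ⟨_, List.mem_map.2 ⟨k, List.mem_range.2 (by omega), rfl⟩, srcI_dst _ _⟩

theorem ord_liftI {I : Instr} {S' : Set Reg} (hb : baseReg ⊆ S')
    (h1 : ¬ I.fst.headD 0 < 4 → ∀ k ≤ D, cr k I.fst ∈ S')
    (h2 : ¬ I.snd.headD 0 < 4 → ∀ k ≤ D, cr k I.snd ∈ S')
    (h3 : ∀ r ∈ S', ¬ Own I.dst r) : Ord S' (liftI D bc I) := by
  refine TORD2A.ord_of_sorted key _ _ (pw_liftI I) (fun J hJ h => h3 _ h (own_lift hJ))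
    fun J hJ r hr => ?_
  have base3 : ([3] : Reg) ∈ S' := hb b3
  -- the operands
  have o1 : ∀ k ≤ D, ∀ t u, opn 63 I.dst I.fst k ∈ S' ∨ ∃ J ∈ liftI D bc I,
      J.dst = opn 63 I.dst I.fst k ∧ key (opn 63 I.dst I.fst k) < [2, t, u] := by
    intro k hk t u
    unfold opn
    split_ifs with h
    · right
      obtain ⟨J, hJ, e⟩ := wr_opn (D := D) (bc := bc) (h := 63) (d := I.dst) h hk
      exact ⟨J, List.mem_append_left _ hJ, e, lt_of_cons (by omega)⟩
    · exact Or.inl (h1 h k hk)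
  have o2 : ∀ k ≤ D, ∀ t u, opn 64 I.dst I.snd k ∈ S' ∨ ∃ J ∈ liftI D bc I,
      J.dst = opn 64 I.dst I.snd k ∧ key (opn 64 I.dst I.snd k) < [2, t, u] := by
    intro k hk t u
    unfold opn
    split_ifs with h
    · right
      obtain ⟨J, hJ, e⟩ := wr_opn (D := D) (bc := bc) (h := 64) (d := I.dst) h hk
      exact ⟨J, List.mem_append_right _ (List.mem_append_left _ hJ), e, lt_of_cons (by omega)⟩
    · exact Or.inl (h2 h k hk)
  rcases mem_liftI hJ with ⟨-, k, -, rfl⟩ | ⟨-, k, -, rfl⟩ | ⟨k, hk, ⟨hop, h⟩ | ⟨hop, h⟩⟩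
  · have := srcI_ops (bc I.fst k) (63 :: k :: I.dst)
    rcases hr with rfl | rfl
    · exact Or.inl (hb this.1)
    · exact Or.inl (hb this.2)
  · have := srcI_ops (bc I.snd k) (64 :: k :: I.dst)
    rcases hr with rfl | rfl
    · exact Or.inl (hb this.1)
    · exact Or.inl (hb this.2)
  · have hmem : ∀ J ∈ mulI I k, J ∈ liftI D bc I := by
      intro J hJ
      refine List.mem_append_right _ (List.mem_append_right _ ?_)
      unfold body
      refine List.mem_flatMap.2 ⟨k, List.mem_range.2 (by omega), ?_⟩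
      rw [if_pos hop]
      exact hJ
    have w0 : (⟨Op.add, 62 :: k :: 0 :: I.dst, [3], [3]⟩ : Instr) ∈ mulI I k := by
      simp [mulI]
    have w1 : ∀ j ≤ k, (⟨Op.mul, 61 :: k :: j :: I.dst, opn 63 I.dst I.fst j,
        opn 64 I.dst I.snd (k - j)⟩ : Instr) ∈ mulI I k := by
      intro j hj
      refine List.mem_append_left _ (List.mem_cons_of_mem _ (List.mem_flatMap.2
        ⟨j, List.mem_range.2 (by omega), by simp⟩))
    have w2 : ∀ j ≤ k, (⟨Op.add, 62 :: k :: (j + 1) :: I.dst, 62 :: k :: j :: I.dst,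
        61 :: k :: j :: I.dst⟩ : Instr) ∈ mulI I k := by
      intro j hj
      refine List.mem_append_left _ (List.mem_cons_of_mem _ (List.mem_flatMap.2
        ⟨j, List.mem_range.2 (by omega), by simp⟩))
    have w62 : ∀ j ≤ k + 1, ∃ J ∈ liftI D bc I, J.dst = 62 :: k :: j :: I.dst := by
      intro j hj
      rcases j with _ | j
      · exact ⟨_, hmem _ w0, rfl⟩
      · exact ⟨_, hmem _ (w2 j (by omega)), rfl⟩
    rcases mem_mulI h with rfl | ⟨j, hj, rfl⟩ | ⟨j, hj, rfl⟩ | rfl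
    · rcases hr with rfl | rfl <;> exact Or.inl base3
    · rcases hr with rfl | rfl
      · exact o1 j (by omega) _ _
      · exact o2 (k - j) (by omega) _ _
    · right
      rcases hr with rfl | rfl
      · obtain ⟨J, hJ, e⟩ := w62 j (by omega)
        exact ⟨J, hJ, e, lt_of_cons' (lt_of_cons' (lt_of_cons (by omega)))⟩
      · exact ⟨_, hmem _ (w1 j hj), rfl, lt_of_cons' (lt_of_cons' (lt_of_cons (by omega)))⟩
    · rcases hr with rfl | rfl
      · right
        obtain ⟨J, hJ, e⟩ := w62 (k + 1) le_rfl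
        exact ⟨J, hJ, e, lt_of_cons' (lt_of_cons' (lt_of_cons (by omega)))⟩
      · exact Or.inl base3
  · rw [List.mem_singleton.1 h] at hr ⊢
    rcases hr with rfl | rfl
    · exact o1 k hk _ _
    · refine o2 _ ?_ _ _
      split_ifs
      · exact Nat.zero_le _
      · exact hk

theorem wr_cr {I : Instr} {k : ℕ} (hk : k ≤ D) : cr k I.dst ∈ wr (liftI D bc I) := by
  by_cases h : I.op = Op.mul
  · refine ⟨⟨Op.add, cr k I.dst, 62 :: k :: (k + 1) :: I.dst, [3]⟩, ?_, rfl⟩
    refine List.mem_append_right _ (List.mem_append_right _ (List.mem_flatMap.2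
      ⟨k, List.mem_range.2 (by omega), ?_⟩))
    rw [if_pos h]
    simp [mulI]
  · refine ⟨⟨I.op, cr k I.dst, opn 63 I.dst I.fst k,
      opn 64 I.dst I.snd (if I.op = Op.div then 0 else k)⟩, ?_, rfl⟩
    refine List.mem_append_right _ (List.mem_append_right _ (List.mem_flatMap.2
      ⟨k, List.mem_range.2 (by omega), ?_⟩))
    rw [if_neg h]
    exact List.mem_singleton_self _

theorem ord_lift (P : List Instr) : ∀ (S S' : Set Reg), Ord S P → baseReg ⊆ S → baseReg ⊆ S' →
    (∀ r ∈ S, ¬ r.headD 0 < 4 → ∀ k ≤ D, cr k r ∈ S') →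
    (∀ r ∈ S', r ∈ baseReg ∨ ∃ d ∈ S, Own d r) → Ord S' (lift D bc P) := by
  induction P with
  | nil => exact fun _ _ _ _ _ _ _ => trivial
  | cons I P ih =>
    intro S S' hP hbS hb h1 h2
    obtain ⟨hf, hs, hd, hP⟩ := hP
    unfold lift
    rw [List.flatMap_cons, t_ORD1.1]
    refine ⟨ord_liftI hb (fun h => h1 _ hf h) (fun h => h1 _ hs h) (fun r hr ho => ?_), ?_⟩
    · rcases h2 r hr with h | ⟨d, hd2, ho2⟩
      · exact own_base ho h
      · exact hd (own_unique ho ho2 ▸ hd2)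
    · refine ih (insert I.dst S) _ hP (hbS.trans (Set.subset_insert _ _))
        (hb.trans Set.subset_union_left) (fun r hr hr4 k hk => ?_) (fun r hr => ?_)
      · rcases hr with rfl | hr
        · exact Or.inr (wr_cr hk)
        · exact Or.inl (h1 r hr hr4 k hk)
      · rcases hr with hr | ⟨J, hJ, rfl⟩
        · rcases h2 r hr with h | ⟨d, hd2, ho2⟩
          · exact Or.inl h
          · exact Or.inr ⟨d, Set.mem_insert_of_mem _ hd2, ho2⟩
        · exact Or.inr ⟨I.dst, Set.mem_insert _ _, own_lift hJ⟩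

theorem ord_lift' {P : List Instr} (hP : Ord baseReg P) : Ord baseReg (lift D bc P) :=
  ord_lift P baseReg baseReg hP subset_rfl subset_rfl (fun r hr h => absurd hr h)
    fun r hr => Or.inl hr

theorem wr_lift {P : List Instr} {r : Reg} (hr : r ∈ wr P) {k : ℕ} (hk : k ≤ D) :
    cr k r ∈ wr (lift D bc P) := by
  obtain ⟨I, hI, rfl⟩ := hr
  obtain ⟨J, hJ, e⟩ := wr_cr (D := D) (bc := bc) (I := I) hk
  exact ⟨J, List.mem_flatMap.2 ⟨I, hI, hJ⟩, e⟩

/-! ### Values -/

theorem dst_notMem {P : List Instr} : ∀ {S : Set Reg}, Ord S P → ∀ I ∈ P, I.dst ∉ S := by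
  induction P with
  | nil => exact fun _ _ hI => absurd hI (by simp)
  | cons J P ih =>
    intro S hP I hI
    rcases List.mem_cons.1 hI with rfl | hI
    · exact hP.2.2.1
    · exact fun h => ih hP.2.2.2 I hI (Set.mem_insert_of_mem _ h)

/-- the instruction which computes a register -/
def ofR (P : List Instr) (r : Reg) : Instr :=
  ((P.filter fun I => decide (I.dst = r)).head?).getD ⟨Op.add, [], [3], [3]⟩

theorem ofR_eq {P : List Instr} : ∀ {S : Set Reg}, Ord S P → ∀ I ∈ P, ofR P I.dst = I := by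
  induction P with
  | nil => exact fun _ _ hI => absurd hI (by simp)
  | cons J P ih =>
    intro S hP I hI
    unfold ofR
    rw [List.filter_cons]
    by_cases h : J.dst = I.dst
    · rw [if_pos (by simpa using h)]
      rcases List.mem_cons.1 hI with rfl | hI
      · rfl
      · exact absurd (h ▸ Set.mem_insert _ _) (dst_notMem hP.2.2.2 I hI)
    · rw [if_neg (by simpa using h)]
      rcases List.mem_cons.1 hI with rfl | hI
      · exact absurd rfl h
      · exact ih hP.2.2.2 I hI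

open Polynomial

/-- The equations of an instruction for power series. -/
def EqX (W : Reg → ℝ[X]) (I : Instr) : Prop :=
  (I.op = Op.add → W I.dst = W I.fst + W I.snd) ∧
  (I.op = Op.sub → W I.dst = W I.fst - W I.snd) ∧
  (I.op = Op.mul → W I.dst = W I.fst * W I.snd) ∧
  (I.op = Op.div → ∃ c : ℝ, c ≠ 0 ∧ W I.snd = C c ∧ C c * W I.dst = W I.fst)

/-- the values of the new registers -/
noncomputable def vl (P : List Instr) (g : Reg → ℝ) (W : Reg → ℝ[X]) : Reg → ℝ
  | 60 :: k :: r => (W r).coeff k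
  | 61 :: k :: j :: r => (W (ofR P r).fst).coeff j * (W (ofR P r).snd).coeff (k - j)
  | 62 :: k :: j :: r => ∑ i ∈ Finset.range j,
      (W (ofR P r).fst).coeff i * (W (ofR P r).snd).coeff (k - i)
  | 63 :: k :: r => (W (ofR P r).fst).coeff k
  | 64 :: k :: r => (W (ofR P r).snd).coeff k
  | r => g r

theorem vl_base (P : List Instr) (g : Reg → ℝ) (W : Reg → ℝ[X]) :
    ∀ r ∈ baseReg, vl P g W r = g r := by
  intro r hr
  unfold vl
  split <;> first | rfl | (exfalso; revert hr; simp [baseReg])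

/-- `W` describes the power series of the registers. -/
structure Desc (D : ℕ) (bc : Reg → ℕ → Src) (P : List Instr) (g : Reg → ℝ) (W : Reg → ℝ[X]) :
    Prop where
  ord : Ord baseReg P
  eqs : ∀ I ∈ P, EqX W I
  base : ∀ r ∈ baseReg, ∀ k ≤ D, (W r).coeff k = sv g (bc r k)
  hg : Base g

theorem Desc.opn1 {P : List Instr} {g : Reg → ℝ} {W : Reg → ℝ[X]} (H : Desc D bc P g W)
    {I : Instr} (hI : I ∈ P) (k : ℕ) :
    vl P g W (opn 63 I.dst I.fst k) = (W I.fst).coeff k := by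
  unfold opn
  split_ifs
  · show (W (ofR P I.dst).fst).coeff k = _
    rw [ofR_eq H.ord I hI]
  · rfl

theorem Desc.opn2 {P : List Instr} {g : Reg → ℝ} {W : Reg → ℝ[X]} (H : Desc D bc P g W)
    {I : Instr} (hI : I ∈ P) (k : ℕ) :
    vl P g W (opn 64 I.dst I.snd k) = (W I.snd).coeff k := by
  unfold opn
  split_ifs
  · show (W (ofR P I.dst).snd).coeff k = _
    rw [ofR_eq H.ord I hI]
  · rfl

theorem Desc.eqn {P : List Instr} {g : Reg → ℝ} {W : Reg → ℝ[X]} (H : Desc D bc P g W) :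
    ∀ J ∈ lift D bc P, Eqn (vl P g W) J := by
  intro J hJ
  obtain ⟨I, hI, hJ⟩ := List.mem_flatMap.1 hJ
  have h3 : vl P g W [3] = 0 := (vl_base _ _ _ _ b3).trans H.hg.2
  obtain ⟨e1, e2, e3, e4⟩ := H.eqs I hI
  have hof := ofR_eq H.ord I hI
  rcases mem_liftI hJ with ⟨hb, k, hk, rfl⟩ | ⟨hb, k, hk, rfl⟩ | ⟨k, hk, ⟨hop, h⟩ | ⟨hop, h⟩⟩
  · refine srcI_eqn _ _ g _ H.hg (vl_base _ _ _) ?_
    show (W (ofR P I.dst).fst).coeff k = _
    rw [hof, H.base _ hb k hk]
  · refine srcI_eqn _ _ g _ H.hg (vl_base _ _ _) ?_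
    show (W (ofR P I.dst).snd).coeff k = _
    rw [hof, H.base _ hb k hk]
  · rcases mem_mulI h with rfl | ⟨j, hj, rfl⟩ | ⟨j, hj, rfl⟩ | rfl
    · refine ⟨?_, by simp⟩
      simp only [Op.eval, h3]
      show ∑ i ∈ Finset.range 0, _ = _
      simp
    · refine ⟨?_, by simp⟩
      simp only [Op.eval, H.opn1 hI, H.opn2 hI]
      show (W (ofR P I.dst).fst).coeff j * (W (ofR P I.dst).snd).coeff (k - j) = _
      rw [hof]
    · refine ⟨?_, by simp⟩
      simp only [Op.eval]
      exact Finset.sum_range_succ _ _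
    · refine ⟨?_, by simp⟩
      simp only [Op.eval, h3, add_zero]
      show (W I.dst).coeff k = ∑ i ∈ Finset.range (k + 1),
        (W (ofR P I.dst).fst).coeff i * (W (ofR P I.dst).snd).coeff (k - i)
      rw [hof, e3 hop, Polynomial.coeff_mul,
        Finset.Nat.sum_antidiagonal_eq_sum_range_succ
          (fun a b => (W I.fst).coeff a * (W I.snd).coeff b)]
  · rw [List.mem_singleton.1 h]
    unfold Eqn
    simp only [H.opn1 hI, H.opn2 hI]
    have hd : vl P g W (cr k I.dst) = (W I.dst).coeff k := rfl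
    rw [hd]
    rcases ho : I.op with _ | _ | _ | _
    · simp only [Op.eval, e1 ho, Polynomial.coeff_add]
      simp
    · simp only [Op.eval, e2 ho, Polynomial.coeff_sub]
      simp
    · exact absurd ho hop
    · obtain ⟨c, hc, h1, h2⟩ := e4 ho
      simp only [if_true, Op.eval]
      rw [h1, Polynomial.coeff_C_zero, ← h2, Polynomial.coeff_C_mul]
      exact ⟨by field_simp, fun _ => hc⟩

end Pool.Agent.H37.TN
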