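import Pool.Agent.H37.TN.Pert
import Pool.Agent.H37.CH.Simplex

/-! Linear algebra of the first phase. -/

set_option autoImplicit false

namespace Pool.Agent.H37.TN

open Matrix Finset

variable {m n k : ℕ}

/-- the bordered minor -/
noncomputable def bdet (A : Matrix (Fin m) (Fin n) ℝ) (fI : Fin k → Fin m) (fJ : Fin k → Fin n)
    (i : Fin m) (j : Fin n) : ℝ :=
  (A.submatrix (Fin.snoc (α := fun _ => Fin m) fI i) (Fin.snoc (α := fun _ => Fin n) fJ j)).det

/-- the coordinates of the rows -/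
noncomputable def Cf (A : Matrix (Fin m) (Fin n) ℝ) (fI : Fin k → Fin m) (fJ : Fin k → Fin n) :
    Matrix (Fin m) (Fin k) ℝ := A.submatrix id fJ * (A.submatrix fI fJ)⁻¹

theorem schur (A : Matrix (Fin m) (Fin n) ℝ) (fI : Fin k → Fin m) (fJ : Fin k → Fin n)
    (h : (A.submatrix fI fJ).det ≠ 0) (hb : ∀ i j, bdet A fI fJ i j = 0) :
    A = Cf A fI fJ * A.submatrix fI id := by
  ext i j
  obtain ⟨v, hv, hv2⟩ := Matrix.exists_vecMul_eq_zero_iff.2 (hb i j)
  have hcol : ∀ q : Fin k, ∑ p : Fin k, v p.castSucc * A (fI p) (fJ q) +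
      v (Fin.last k) * A i (fJ q) = 0 := by
    intro q
    have := congrFun hv2 q.castSucc
    simp only [Matrix.vecMul, dotProduct, Matrix.submatrix_apply, Fin.sum_univ_castSucc,
      Fin.snoc_castSucc, Fin.snoc_last, Pi.zero_apply] at this
    exact this
  have hlast : ∑ p : Fin k, v p.castSucc * A (fI p) j + v (Fin.last k) * A i j = 0 := by
    have := congrFun hv2 (Fin.last k)
    simp only [Matrix.vecMul, dotProduct, Matrix.submatrix_apply, Fin.sum_univ_castSucc,
      Fin.snoc_castSucc, Fin.snoc_last, Pi.zero_apply] at this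
    exact this
  set c : Fin k → ℝ := fun p => v p.castSucc
  set d := v (Fin.last k)
  have hc : c ᵥ* A.submatrix fI fJ = -(d • fun q => A i (fJ q)) := by
    funext q
    have := hcol q
    simp only [Matrix.vecMul, dotProduct, Matrix.submatrix_apply, Pi.neg_apply, Pi.smul_apply,
      smul_eq_mul]
    linarith
  have hc2 : c = -(d • (Cf A fI fJ) i) := by
    have h1 : c = (c ᵥ* A.submatrix fI fJ) ᵥ* (A.submatrix fI fJ)⁻¹ := by
      rw [Matrix.vecMul_vecMul, Matrix.mul_nonsing_inv _ (isUnit_iff_ne_zero.2 h),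
        Matrix.vecMul_one]
    rw [h1, hc, Matrix.neg_vecMul, Matrix.smul_vecMul]
    congr 1
  have hd : d ≠ 0 := by
    intro hd
    apply hv
    have hc0 : c = 0 := by rw [hc2, hd, zero_smul, neg_zero]
    funext p
    refine Fin.lastCases ?_ (fun p => ?_) p
    · exact hd
    · exact congrFun hc0 p
  rw [Matrix.mul_apply]
  have h2 : ∑ p, c p * A (fI p) j = -(d * ∑ p, Cf A fI fJ i p * A (fI p) j) := by
    rw [hc2, Finset.mul_sum, ← Finset.sum_neg_distrib]
    refine Finset.sum_congr rfl fun p _ => ?_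
    simp only [Pi.neg_apply, Pi.smul_apply, smul_eq_mul]
    ring
  have h3 : d * (A i j - ∑ p, Cf A fI fJ i p * A (fI p) j) = 0 := by
    have h4 : ∑ p, c p * A (fI p) j + d * A i j = 0 := hlast
    rw [h2] at h4
    linarith
  have h5 := (mul_eq_zero.1 h3).resolve_left hd
  simp only [Matrix.submatrix_apply, id]
  linarith

theorem schur' (A : Matrix (Fin m) (Fin n) ℝ) (fI : Fin k → Fin m) (fJ : Fin k → Fin n)
    (h : (A.submatrix fI fJ).det ≠ 0) (hb : ∀ i j, bdet A fI fJ i j = 0) :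
    A = A.submatrix id fJ * ((A.submatrix fI fJ)⁻¹ * A.submatrix fI id) := by
  conv_lhs => rw [schur A fI fJ h hb]
  rw [Cf, Matrix.mul_assoc]

/-- The reduced system. -/
theorem reduce_iff (A : Matrix (Fin m) (Fin n) ℝ) (fI : Fin k → Fin m) (fJ : Fin k → Fin n)
    (h : (A.submatrix fI fJ).det ≠ 0) (hb : ∀ i j, bdet A fI fJ i j = 0) (b : Fin m → ℝ) :
    (∃ x : Fin k → ℝ, ∀ i, b i ≤ (A.submatrix id fJ *ᵥ x) i) ↔
      ∃ x : Fin n → ℝ, ∀ i, b i ≤ (A *ᵥ x) i := by
  constructor
  · rintro ⟨x, hx⟩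
    refine ⟨fun j => ∑ q, if fJ q = j then x q else 0, fun i => ?_⟩
    have : (A *ᵥ fun j => ∑ q, if fJ q = j then x q else 0) i = (A.submatrix id fJ *ᵥ x) i := by
      simp only [Matrix.mulVec, dotProduct, Finset.mul_sum, Matrix.submatrix_apply, id]
      rw [Finset.sum_comm]
      refine Finset.sum_congr rfl fun q _ => ?_
      rw [Finset.sum_eq_single (fJ q)]
      · rw [if_pos rfl]
      · intro j _ hj
        rw [if_neg fun h => hj h.symm, mul_zero]
      · exact fun h => absurd (Finset.mem_univ _) h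
    rw [this]
    exact hx i
  · rintro ⟨x, hx⟩
    refine ⟨((A.submatrix fI fJ)⁻¹ * A.submatrix fI id) *ᵥ x, fun i => ?_⟩
    rw [Matrix.mulVec_mulVec, ← schur' A fI fJ h hb]
    exact hx i

theorem le_of_det_mul {s k : ℕ} (X : Matrix (Fin s) (Fin k) ℝ) (Y : Matrix (Fin k) (Fin s) ℝ)
    (h : (X * Y).det ≠ 0) : s ≤ k := by
  have h1 : (X * Y).rank = s := by
    have := Matrix.rank_of_isUnit (X * Y) ((Matrix.isUnit_iff_isUnit_det _).2
      (isUnit_iff_ne_zero.2 h))
    simpa using this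
  have h2 := Matrix.rank_mul_le_left X Y
  have h3 := Matrix.rank_le_width X
  omega

/-- The number of rows selected is the rank. -/
theorem rank_eq {ρ : ℕ} (A : Matrix (Fin m) (Fin n) ℝ) (fI : Fin k → Fin m) (fJ : Fin k → Fin n)
    (h : (A.submatrix fI fJ).det ≠ 0) (hb : ∀ i j, bdet A fI fJ i j = 0)
    (T : Matrix (Fin m) (Fin ρ) ℝ) (P : Matrix (Fin ρ) (Fin n) ℝ) (R : Matrix (Fin n) (Fin ρ) ℝ)
    (hPR : P * R = 1) (f : Fin ρ → Fin m) (hf : (T.submatrix f id).det ≠ 0) (hA : A = T * P) :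
    k = ρ := by
  refine le_antisymm ?_ ?_
  · have e : A.submatrix fI fJ = T.submatrix fI id * P.submatrix id fJ := by
      rw [hA]
      ext i j
      simp only [Matrix.submatrix_apply, Matrix.mul_apply, id]
    exact le_of_det_mul _ _ (e ▸ h)
  · have e : T.submatrix f id = (Cf A fI fJ).submatrix f id * (A.submatrix fI id * R) := by
      have h1 : T = Cf A fI fJ * (A.submatrix fI id * R) := by
        calc T = T * (P * R) := by rw [hPR, Matrix.mul_one]
          _ = A * R := by rw [← Matrix.mul_assoc, ← hA]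
          _ = (Cf A fI fJ * A.submatrix fI id) * R := by rw [← schur A fI fJ h hb]
          _ = _ := Matrix.mul_assoc _ _ _
      conv_lhs => rw [h1]
      ext i j
      simp only [Matrix.submatrix_apply, Matrix.mul_apply, id]
    exact le_of_det_mul _ _ (e ▸ hf)

/-- **The correct signs.** -/
theorem resign {W T' : Matrix (Fin m) (Fin k) ℝ} {PJ : Matrix (Fin k) (Fin k) ℝ}
    (hW : W = T' * PJ) (hPJ : PJ.det ≠ 0) {fI : Fin k → Fin m}
    (hI : (W.submatrix fI id).det ≠ 0) {C : Matrix (Fin m) (Fin k) ℝ}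
    (hC : W = C * W.submatrix fI id) {τ : Fin m → ℝ} (hτ : ∀ i, τ i ≠ 0)
    (hrel : ∀ i p, C i p ≠ 0 → τ i = τ (fI p)) :
    ∃ P'' : Matrix (Fin k) (Fin k) ℝ, P''.det ≠ 0 ∧ Matrix.diagonal τ * W = T' * P'' := by
  set U := W.submatrix fI id with hU
  have hUu : IsUnit U.det := isUnit_iff_ne_zero.2 hI
  set L := U⁻¹ * (Matrix.diagonal (fun p => τ (fI p)) * U) with hL
  refine ⟨PJ * L, ?_, ?_⟩
  · rw [Matrix.det_mul, hL, Matrix.det_mul, Matrix.det_mul, Matrix.det_diagonal]
    refine mul_ne_zero hPJ (mul_ne_zero (fun h0 => ?_) (mul_ne_zero (Finset.prod_ne_zero_iff.2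
      fun p _ => hτ _) hI))
    have h1 := congrArg Matrix.det (Matrix.nonsing_inv_mul U hUu)
    rw [Matrix.det_mul, h0, zero_mul, Matrix.det_one] at h1
    exact zero_ne_one h1
  · have h1 : U * L = Matrix.diagonal (fun p => τ (fI p)) * U := by
      rw [hL, Matrix.mul_nonsing_inv_cancel_left _ _ hUu]
    have h2 : Matrix.diagonal τ * C = C * Matrix.diagonal (fun p => τ (fI p)) := by
      ext i p
      rw [Matrix.diagonal_mul, Matrix.mul_diagonal]
      by_cases h : C i p = 0
      · rw [h, mul_zero, zero_mul]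
      · rw [hrel i p h]
        ring
    calc Matrix.diagonal τ * W = Matrix.diagonal τ * (C * U) := by rw [← hC]
      _ = (C * Matrix.diagonal (fun p => τ (fI p))) * U := by rw [← Matrix.mul_assoc, h2]
      _ = C * (U * L) := by rw [h1, Matrix.mul_assoc]
      _ = (C * U) * L := by rw [Matrix.mul_assoc]
      _ = W * L := by rw [← hC]
      _ = T' * (PJ * L) := by rw [hW, Matrix.mul_assoc]

end Pool.Agent.H37.TN
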