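import Pool.Agent.H37.TN.Gauss
import Pool.Graph.R_seed8.H575R2.Farkas

/-! The perturbed system. -/

set_option autoImplicit false

namespace Pool.Agent.H37.TN

open Matrix Finset Filter Topology

variable {m r : ℕ}

theorem Gk_close {t : ℝ} (h0 : 0 ≤ t) (h1 : t ≤ 1) (z : Fin m → ℝ) {M : ℝ} (hz : ∀ l, |z l| ≤ M)
    (i : Fin m) : |(Gk m t *ᵥ z) i - z i| ≤ m * t * M := by
  have e : (Gk m t *ᵥ z) i - z i = ∑ l : Fin m, (t ^ ex i l - if l = i then 1 else 0) * z l := by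
    simp only [sub_mul, Finset.sum_sub_distrib, ite_mul, one_mul, zero_mul,
      Finset.sum_ite_eq', Finset.mem_univ, if_true]
    rfl
  rw [e]
  refine (Finset.abs_sum_le_sum_abs _ _).trans ?_
  calc ∑ l : Fin m, |(t ^ ex i l - if l = i then 1 else 0) * z l| ≤ ∑ _l : Fin m, t * M := by
        refine Finset.sum_le_sum fun l _ => ?_
        rw [abs_mul]
        refine mul_le_mul ?_ (hz l) (abs_nonneg _) h0
        by_cases h : l = i
        · rw [if_pos h, h, ex_self, pow_zero, sub_self, abs_zero]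
          exact h0
        · rw [if_neg h, sub_zero, abs_of_nonneg (pow_nonneg h0 _)]
          have h2 : 1 ≤ ex i l := ex_pos fun h' => h (Fin.ext h')
          calc t ^ ex i l ≤ t ^ 1 := pow_le_pow_of_le_one h0 h1 h2
            _ = t := pow_one t
    _ = m * t * M := by
        rw [Finset.sum_const, Finset.card_univ, Fintype.card_fin, nsmul_eq_mul]
        ring

theorem Gk_close' {t : ℝ} (h0 : 0 ≤ t) (h1 : t ≤ 1) (hm : m * t ≤ 1 / 2) (z : Fin m → ℝ) {Y : ℝ}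
    (hz : ∀ l, |(Gk m t *ᵥ z) l| ≤ Y)
    (i : Fin m) : |(Gk m t *ᵥ z) i - z i| ≤ m * t * (2 * Y) := by
  have hne : (Finset.univ : Finset (Fin m)).Nonempty := ⟨i, Finset.mem_univ i⟩
  obtain ⟨j, -, hj⟩ := Finset.exists_max_image Finset.univ (fun l => |z l|) hne
  have h2 := Gk_close h0 h1 z (M := |z j|) (fun l => hj l (Finset.mem_univ l)) j
  have h3 : |z j| ≤ 2 * Y := by
    have h4 := abs_sub_abs_le_abs_sub (z j) ((Gk m t *ᵥ z) j)
    rw [abs_sub_comm] at h4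
    have h5 := hz j
    have h6 : m * t * |z j| ≤ 1 / 2 * |z j| := mul_le_mul_of_nonneg_right hm (abs_nonneg _)
    linarith
  refine (Gk_close h0 h1 z (fun l => hj l (Finset.mem_univ l)) i).trans ?_
  exact mul_le_mul_of_nonneg_left h3 (mul_nonneg (Nat.cast_nonneg _) h0)

theorem farkas' (B : Matrix (Fin m) (Fin r) ℝ) (s b : Fin m → ℝ)
    (h : ¬∃ x : Fin r → ℝ, ∀ i, b i ≤ s i * (B *ᵥ x) i) :
    ∃ w : Fin m → ℝ, (∀ i, 0 ≤ w i) ∧ (∑ i, w i * b i = 1) ∧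
      ∀ x : Fin r → ℝ, ∑ i, w i * (s i * (B *ᵥ x) i) = 0 := by
  let ℓ : Fin m → ((Fin r → ℝ) × ℝ) →ₗ[ℝ] ℝ := fun i =>
    { toFun := fun p => b i * p.2 - s i * (B *ᵥ p.1) i
      map_add' := fun p q => by
        simp only [Prod.fst_add, Prod.snd_add, Matrix.mulVec_add, Pi.add_apply]
        ring
      map_smul' := fun c p => by
        simp only [Prod.smul_fst, Prod.smul_snd, Matrix.mulVec_smul, Pi.smul_apply, smul_eq_mul,
          RingHom.id_apply]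
        ring }
  have h1 : ∀ p : (Fin r → ℝ) × ℝ, (∀ i, ℓ i p ≤ 0) → (LinearMap.snd ℝ (Fin r → ℝ) ℝ) p ≤ 0 := by
    intro p hp
    by_contra hneg
    have hpos : 0 < p.2 := not_le.1 hneg
    refine h ⟨p.2⁻¹ • p.1, fun i => ?_⟩
    have h2 : b i * p.2 - s i * (B *ᵥ p.1) i ≤ 0 := hp i
    rw [Matrix.mulVec_smul, Pi.smul_apply, smul_eq_mul]
    have h3 : b i * p.2 ≤ s i * (B *ᵥ p.1) i := by linarith
    have h4 := mul_le_mul_of_nonneg_right h3 (inv_nonneg.2 hpos.le)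
    calc b i = b i * p.2 * p.2⁻¹ := by field_simp
      _ ≤ s i * (B *ᵥ p.1) i * p.2⁻¹ := h4
      _ = _ := by ring
  obtain ⟨w, hw, hw2⟩ := H575R2.farkas_lin m ℓ _ h1
  refine ⟨w, hw, ?_, fun x => ?_⟩
  · have h2 := hw2 (0, 1)
    have h3 : ∀ i, ℓ i ((0 : Fin r → ℝ), (1 : ℝ)) = b i := by
      intro i
      show b i * 1 - s i * (B *ᵥ 0) i = b i
      rw [Matrix.mulVec_zero]
      simp
    simp only [h3, LinearMap.snd_apply] at h2
    exact h2.symm
  · have h2 := hw2 (x, 0)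
    have h3 : ∀ i, ℓ i (x, (0 : ℝ)) = -(s i * (B *ᵥ x) i) := by
      intro i
      show b i * 0 - s i * (B *ᵥ x) i = _
      ring
    simp only [h3, LinearMap.snd_apply, mul_neg, Finset.sum_neg_distrib] at h2
    linarith

/-- The perturbed system. -/
def PS (B : Matrix (Fin m) (Fin r) ℝ) (s b : Fin m → ℝ) (δ : ℝ) : Prop :=
  ∃ x : Fin r → ℝ, ∀ i, b i - δ ≤ s i * ((Gk m (δ ^ 3) * B) *ᵥ x) i ∧
    -1 ≤ δ * ((Gk m (δ ^ 3) * B) *ᵥ x) i ∧ -1 ≤ -δ * ((Gk m (δ ^ 3) * B) *ᵥ x) i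

/-- **The perturbed system is solvable for small arguments if and only if the system is.** -/
theorem pert_iff (B : Matrix (Fin m) (Fin r) ℝ) (s b : Fin m → ℝ) (hs : ∀ i, |s i| = 1) :
    ∀ᶠ δ in 𝓝[>] (0 : ℝ), (PS B s b δ ↔ ∃ x : Fin r → ℝ, ∀ i, b i ≤ s i * (B *ᵥ x) i) := by
  by_cases hf : ∃ x : Fin r → ℝ, ∀ i, b i ≤ s i * (B *ᵥ x) i
  · obtain ⟨x, hx⟩ := hf
    set z := B *ᵥ x with hz
    set M : ℝ := ∑ l, |z l| + 1 with hM
    have hM0 : 0 < M := by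
      have : 0 ≤ ∑ l, |z l| := Finset.sum_nonneg fun l _ => abs_nonneg _
      linarith
    have hzM : ∀ l, |z l| ≤ M := by
      intro l
      have := Finset.single_le_sum (f := fun l => |z l|) (fun l _ => abs_nonneg _)
        (Finset.mem_univ l)
      linarith
    have hC : 0 < M * (m + 1) + 1 := by positivity
    have hε : 0 < 1 / (M * (m + 1) + 1) := by positivity
    filter_upwards [Ioo_mem_nhdsGT hε] with δ hδ
    obtain ⟨h0, h1⟩ := hδ
    rw [lt_div_iff₀ hC] at h1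
    have hδ1 : δ ≤ 1 := by
      have : 0 ≤ δ * (M * (m + 1)) := by positivity
      nlinarith
    have hMm : 0 ≤ M * (m + 1 : ℝ) := by positivity
    have hδ2 : δ * (M * (m + 1)) ≤ 1 := by nlinarith
    have ht0 : 0 ≤ δ ^ 3 := by positivity
    have ht1 : δ ^ 3 ≤ 1 := pow_le_one₀ h0.le hδ1
    have ht2 : δ ^ 3 ≤ δ ^ 2 := pow_le_pow_of_le_one h0.le hδ1 (by norm_num)
    have e : (Gk m (δ ^ 3) * B) *ᵥ x = Gk m (δ ^ 3) *ᵥ z := by
      rw [hz, Matrix.mulVec_mulVec]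
    refine ⟨fun _ => ⟨x, hx⟩, fun _ => ⟨x, fun i => ?_⟩⟩
    rw [e]
    have hc := Gk_close ht0 ht1 z hzM i
    have hc2 : (m : ℝ) * δ ^ 3 * M ≤ δ := by
      have h2 : (m : ℝ) * δ ^ 3 * M ≤ m * δ ^ 2 * M := by gcongr
      have h3 : (m : ℝ) * δ ^ 2 * M = δ * (δ * (M * m)) := by ring
      have h4 : δ * (M * m) ≤ 1 := by
        have : δ * (M * m) ≤ δ * (M * (m + 1)) := by gcongr; linarith
        linarith
      have h5 : δ * (δ * (M * m)) ≤ δ * 1 := mul_le_mul_of_nonneg_left h4 h0.le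
      linarith
    have hc3 : |(Gk m (δ ^ 3) *ᵥ z) i - z i| ≤ δ := hc.trans hc2
    have hb : |(Gk m (δ ^ 3) *ᵥ z) i| ≤ M * (m + 1) := by
      have h2 := hzM i
      have h3 : (m : ℝ) * δ ^ 3 * M ≤ m * 1 * M := by gcongr
      have h4 := abs_sub_abs_le_abs_sub ((Gk m (δ ^ 3) *ᵥ z) i) (z i)
      nlinarith
    have hb2 : |δ * (Gk m (δ ^ 3) *ᵥ z) i| ≤ 1 := by
      rw [abs_mul, abs_of_pos h0]
      exact (mul_le_mul_of_nonneg_left hb h0.le).trans hδ2
    have hb3 := abs_le.1 hb2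
    refine ⟨?_, hb3.1, by linarith [hb3.2]⟩
    have h5 : |s i * (Gk m (δ ^ 3) *ᵥ z) i - s i * z i| ≤ δ := by
      rw [← mul_sub, abs_mul, hs i, one_mul]
      exact hc3
    have h6 := (abs_le.1 h5).1
    have h7 := hx i
    linarith
  · obtain ⟨w, hw0, hw1, hw2⟩ := farkas' B s b hf
    have hm0 : (0 : ℝ) ≤ m := Nat.cast_nonneg m
    have hW0 : 0 ≤ ∑ i, w i := Finset.sum_nonneg fun i _ => hw0 i
    have hC : 0 < (∑ i, w i + 1) * (1 + 2 * m) := by positivity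
    have hε : 0 < 1 / ((∑ i, w i + 1) * (1 + 2 * m)) := by positivity
    filter_upwards [Ioo_mem_nhdsGT hε] with δ hδ
    obtain ⟨h0, h1⟩ := hδ
    rw [lt_div_iff₀ hC] at h1
    refine ⟨fun hps => ?_, fun h => absurd h hf⟩
    exfalso
    obtain ⟨x, hx⟩ := hps
    set z := B *ᵥ x with hz
    have e : (Gk m (δ ^ 3) * B) *ᵥ x = Gk m (δ ^ 3) *ᵥ z := by
      rw [hz, Matrix.mulVec_mulVec]
    rw [e] at hx
    have hδ2 : δ * (1 + 2 * m) < 1 := by
      have h2 : δ * (1 + 2 * m) ≤ δ * ((∑ i, w i + 1) * (1 + 2 * m)) := by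
        have : (1 + 2 * (m : ℝ)) ≤ (∑ i, w i + 1) * (1 + 2 * m) := by nlinarith
        exact mul_le_mul_of_nonneg_left this h0.le
      linarith
    have hδ1 : δ ≤ 1 := by nlinarith
    have ht0 : 0 ≤ δ ^ 3 := by positivity
    have ht1 : δ ^ 3 ≤ 1 := pow_le_one₀ h0.le hδ1
    have ht2 : δ ^ 3 ≤ δ := by
      calc δ ^ 3 ≤ δ ^ 1 := pow_le_pow_of_le_one h0.le hδ1 (by norm_num)
        _ = δ := pow_one δ
    have hmt : (m : ℝ) * δ ^ 3 ≤ 1 / 2 := by
      have : (m : ℝ) * δ ^ 3 ≤ m * δ := mul_le_mul_of_nonneg_left ht2 hm0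
      nlinarith
    have hY : ∀ l, |(Gk m (δ ^ 3) *ᵥ z) l| ≤ 1 / δ := by
      intro l
      obtain ⟨-, h2, h3⟩ := hx l
      rw [le_div_iff₀ h0, mul_comm]
      have h4 : |δ * (Gk m (δ ^ 3) *ᵥ z) l| ≤ 1 := abs_le.2 ⟨h2, by linarith⟩
      rwa [abs_mul, abs_of_pos h0] at h4
    have hc : ∀ i, b i - s i * z i ≤ (1 + 2 * m) * δ := by
      intro i
      have h2 := Gk_close' ht0 ht1 hmt z hY i
      have h3 : (m : ℝ) * δ ^ 3 * (2 * (1 / δ)) = 2 * m * δ ^ 2 := by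
        field_simp
      rw [h3] at h2
      have h4 : |s i * (Gk m (δ ^ 3) *ᵥ z) i - s i * z i| ≤ 2 * m * δ ^ 2 := by
        rw [← mul_sub, abs_mul, hs i, one_mul]
        exact h2
      have h5 := (abs_le.1 h4).2
      have h6 := (hx i).1
      have h7 : 2 * (m : ℝ) * δ ^ 2 ≤ 2 * m * δ := by
        have : δ ^ 2 ≤ δ := by nlinarith
        exact mul_le_mul_of_nonneg_left this (by positivity)
      linarith
    have hsum : (1 : ℝ) ≤ ∑ i, w i * ((1 + 2 * m) * δ) := by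
      calc (1 : ℝ) = ∑ i, w i * b i - ∑ i, w i * (s i * z i) := by rw [hw1, hw2 x, sub_zero]
        _ = ∑ i, w i * (b i - s i * z i) := by
            rw [← Finset.sum_sub_distrib]
            exact Finset.sum_congr rfl fun i _ => by ring
        _ ≤ _ := Finset.sum_le_sum fun i _ => mul_le_mul_of_nonneg_left (hc i) (hw0 i)
    rw [← Finset.sum_mul] at hsum
    have h8 : (∑ i, w i) * ((1 + 2 * m) * δ) ≤ δ * ((∑ i, w i + 1) * (1 + 2 * m)) := by
      nlinarith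
    linarith

end Pool.Agent.H37.TN
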