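import Pool.Agent.H37.TN.Ser
import Pool.Graph.R_seed8.Y648.CS.T_FINAL

/-! The queries for the coefficients of the determinants. -/

set_option autoImplicit false

namespace Pool.Agent.H37.TN

open Pool.Agent.NPC Pool.Agent.H558R2 Pool.Agent.H622R3.SM Pool.Agent.W920.FC Pool.Agent.H37.CH
open Polynomial
open Pool.Agent.Y648.CS.TDET (vd qD b2 b3)

/-- the query for a coefficient -/
def lqd (D : ℕ) (bc : Reg → ℕ → Src) (q : Qry) (k : ℕ) : Qry :=
  if q.1.length = 0 then ([], [3]) else (lift D bc q.1, cr k q.2)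

theorem ord_ops {P : List Instr} : ∀ {S : Set Reg}, Ord S P → ∀ I ∈ P,
    I.fst ∈ S ∪ wr P ∧ I.snd ∈ S ∪ wr P := by
  induction P with
  | nil => exact fun _ _ hI => absurd hI (by simp)
  | cons J P ih =>
    intro S hP I hI
    obtain ⟨h1, h2, h3, h4⟩ := hP
    rcases List.mem_cons.1 hI with rfl | hI
    · exact ⟨Or.inl h1, Or.inl h2⟩
    · have key : ∀ r, r ∈ insert J.dst S ∪ wr P → r ∈ S ∪ wr (J :: P) := by
        rintro r ((rfl | hr) | ⟨I', hI', rfl⟩)
        · exact Or.inr ⟨J, by simp, rfl⟩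
        · exact Or.inl hr
        · exact Or.inr ⟨I', by simp [hI'], rfl⟩
      obtain ⟨e1, e2⟩ := ih h4 I hI
      exact ⟨key _ e1, key _ e2⟩

/-- the polynomial -/
noncomputable def PX (D : ℕ) (g : Reg → ℝ) (bc : Reg → ℕ → Src) (K : Key) : ℝ[X] :=
  if K.length = 0 then 0 else WK D g bc K [10, K.length - 1]

theorem eval_PX (D : ℕ) (g : Reg → ℝ) (bc : Reg → ℕ → Src) (K : Key) (δ : ℝ) :
    (PX D g bc K).eval δ = dv (gd D g bc δ) K := by
  unfold PX dv
  split_ifs with h
  · simp
  · rw [eval_WK]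
    show cVal _ _ = _
    rw [cVal_det' (by omega)]

theorem rb_gd {D : ℕ} {g : Reg → ℝ} {bc : Reg → ℕ → Src} {lam : ℕ} (h : RB lam g) {j : ℕ}
    (hj : j ≤ D) : RB (lam + (D + 1) * (D + 1)) (gd D g bc (j : ℝ)) := by
  obtain ⟨E, h1, h2, h3⟩ := h
  refine ⟨E, h1, h2.trans (Nat.pow_le_pow_right (by norm_num) (Nat.le_add_right _ _)),
    fun r _ => ?_⟩
  have hsv : ∀ k, ∃ z : ℤ, z.natAbs ≤ 2 ^ lam ∧ sv g (bc r k) * E = z := by
    intro k
    obtain ⟨z, h4, h5⟩ := sv_IB g (bc r k) h3
    refine ⟨z, ?_, h4⟩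
    rw [← Int.natCast_natAbs] at h5
    exact_mod_cast h5
  choose z hz1 hz2 using hsv
  refine ⟨∑ k ∈ Finset.range (D + 1), z k * (j : ℤ) ^ k, ?_, ?_⟩
  · refine (Int.natAbs_sum_le _ _).trans ?_
    have e1 : ∀ k ∈ Finset.range (D + 1), (z k * (j : ℤ) ^ k).natAbs ≤ 2 ^ lam * 2 ^ (D * D) := by
      intro k hk
      rw [Finset.mem_range] at hk
      rw [Int.natAbs_mul, Int.natAbs_pow, Int.natAbs_natCast]
      refine Nat.mul_le_mul (hz1 k) ?_
      rcases Nat.eq_zero_or_pos j with rfl | hj0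
      · exact (pow_le_one₀ (Nat.zero_le _) (Nat.zero_le _)).trans Nat.one_le_two_pow
      · calc j ^ k ≤ j ^ D := Nat.pow_le_pow_right hj0 (by omega)
          _ ≤ (2 ^ D) ^ D := Nat.pow_le_pow_left (hj.trans Nat.lt_two_pow_self.le) _
          _ = 2 ^ (D * D) := by rw [← pow_mul]
    refine (Finset.sum_le_card_nsmul _ _ _ e1).trans ?_
    rw [Finset.card_range, smul_eq_mul]
    calc (D + 1) * (2 ^ lam * 2 ^ (D * D)) ≤ 2 ^ (D + 1) * (2 ^ lam * 2 ^ (D * D)) :=
          Nat.mul_le_mul_right _ Nat.lt_two_pow_self.le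
      _ = 2 ^ (lam + (D * D + (D + 1))) := by rw [pow_add, pow_add]; ring
      _ ≤ 2 ^ (lam + (D + 1) * (D + 1)) := by
          refine Nat.pow_le_pow_right (by norm_num) ?_
          nlinarith
  · unfold gd gX
    rw [Polynomial.eval_finsetSum, Finset.sum_mul]
    push_cast
    refine Finset.sum_congr rfl fun k _ => ?_
    rw [Polynomial.eval_mul, Polynomial.eval_C, Polynomial.eval_pow, Polynomial.eval_X, ← hz2 k]
    ring

/-- the polynomial for the sizes -/
noncomputable def qL : ℕ[X] :=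
  (X + 3) * (2 * ((X + 1) * ((qD.comp (X + (X + 1) * (X + 1))) + 2 * ((X + 1) * (X + 1)) + 1) + X)
    + 1)

theorem qL_ge (D N lam : ℕ) : (D + 2) * (2 * (iB (qD.eval (N + (lam + (D + 1) * (D + 1)))) D + lam)
    + 1) ≤ qL.eval (D + N + lam) := by
  have h0 := Nat.mul_le_mul (show D + 1 ≤ D + N + lam + 1 by omega)
    (show D + 1 ≤ D + N + lam + 1 by omega)
  have h1 := Pool.Agent.Y648.CS.pe_mono qD (show N + (lam + (D + 1) * (D + 1)) ≤
    (D + N + lam) + ((D + N + lam) + 1) * ((D + N + lam) + 1) by omega)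
  unfold qL iB
  simp only [Polynomial.eval_add, Polynomial.eval_mul, Polynomial.eval_X, Polynomial.eval_one,
    Polynomial.eval_ofNat, Polynomial.eval_comp]
  have hD : D ≤ D + N + lam := by omega
  have hl : lam ≤ D + N + lam := by omega
  have hD2 : D + 2 ≤ D + N + lam + 3 := by omega
  gcongr

section

variable {D : ℕ} {g : Reg → ℝ} {bc : Reg → ℕ → Src}

/-- sizes of the coefficients -/
theorem coeff_size (hg : Base g) {d : ℕ} (hL : Low D bc d) {K : Key} (hK : K.length ≠ 0) {N : ℕ}
    (hN : K.length ≤ N + 2) (hd : K.length * d ≤ D) {lam : ℕ} (hlam : RB lam g) :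
    ∀ r ∈ baseReg ∪ wr (entK K ++ flProg K.length), ∀ k ≤ D,
      QB (iB (qD.eval (N + (lam + (D + 1) * (D + 1)))) D + lam) ((WK D g bc K r).coeff k) := by
  rintro r (hr | ⟨I, hI, rfl⟩) k hk
  · unfold WK
    rw [wd_base _ _ r hr, coeff_gX D g bc r hk]
    obtain ⟨E, h1, h2, h3⟩ := hlam
    obtain ⟨z, h4, h5⟩ := sv_IB g (bc r k) h3
    rw [← Int.natCast_natAbs] at h5
    refine qb_mono ⟨E, z, h1, h2, by exact_mod_cast h5, h4⟩ (Nat.le_add_left _ _)
  · refine qb_mono (qb_coeff (deg_WK hg hL hd I hI) (fun j hj => ?_) k) (Nat.le_add_right _ _)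
    rw [eval_WK]
    exact det_sizes K hK hN I hI _ (rb_gd hlam hj)

theorem len_mulI (I : Instr) (k : ℕ) : (mulI I k).length = 2 * (k + 1) + 2 := by
  unfold mulI
  rw [List.length_append, List.length_cons, List.length_flatMap]
  simp
  ring

theorem len_liftI (D : ℕ) (bc : Reg → ℕ → Src) (I : Instr) :
    (liftI D bc I).length ≤ (D + 1) * (2 * D + 6) := by
  have h1 : ∀ h d r, (opI D bc h d r).length ≤ D + 1 := by
    intro h d r
    unfold opI
    split_ifs <;> simp
  have h2 : (body D I).length ≤ (D + 1) * (2 * D + 4) := by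
    unfold body
    rw [List.length_flatMap]
    have : ∀ x ∈ (List.range (D + 1)).map (fun k => (if I.op = Op.mul then mulI I k
        else oneI I k).length), x ≤ 2 * D + 4 := by
      intro x hx
      simp only [List.mem_map, List.mem_range] at hx
      obtain ⟨k, hk, rfl⟩ := hx
      split_ifs
      · rw [len_mulI]
        omega
      · simp [oneI]
    refine (List.sum_le_card_nsmul _ _ this).trans ?_
    simp
  unfold liftI
  rw [List.length_append, List.length_append]
  have e1 := h1 63 I.dst I.fst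
  have e2 := h1 64 I.dst I.snd
  nlinarith

theorem len_lift (D : ℕ) (bc : Reg → ℕ → Src) (P : List Instr) :
    (lift D bc P).length ≤ P.length * ((D + 1) * (2 * D + 6)) := by
  induction P with
  | nil => simp [lift]
  | cons I P ih =>
    have h1 := len_liftI D bc I
    unfold lift at ih ⊢
    rw [List.flatMap_cons, List.length_append, List.length_cons, Nat.succ_mul]
    omega

/-- The query for a coefficient. -/
theorem t_lqd (hg : Base g) (hB : ∀ δ, Base (gd D g bc δ)) {d : ℕ} (hL : Low D bc d) {K : Key}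
    {N : ℕ} (hN : K.length ≤ N + 2) (hd : K.length * d ≤ D) {k : ℕ} (hk : k ≤ D) :
    HasVal g (Gd qL (D + N) g) (lqd D bc (detK K) k) ((PX D g bc K).coeff k) ∧
      (lqd D bc (detK K) k).1.length ≤ qD.eval N * ((D + 1) * (2 * D + 6)) := by
  by_cases h0 : K.length = 0
  · unfold lqd detK PX
    rw [if_pos h0, if_pos h0]
    simp only [List.length_nil, if_true, Polynomial.coeff_zero]
    exact ⟨⟨trivial, g, fun _ _ => rfl, fun I hI => absurd hI (by simp), Or.inl b3, hg.2⟩,
      Nat.zero_le _⟩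
  have hlen := (t_detK N g hg K hN).2
  have hord := (t_detK N g hg K hN).1.1
  have hD := desc (K := K) hg hB
  unfold lqd PX
  unfold detK at hlen hord ⊢
  rw [if_neg h0] at hlen hord ⊢
  rw [if_neg h0]
  have hne : (entK K ++ flProg K.length).length ≠ 0 := by
    rw [List.length_append]
    have h1 : (entK K).length = K.length * K.length := by
      unfold entK
      rw [List.length_flatMap]
      simp
    have : 0 < K.length * K.length := Nat.mul_pos (by omega) (by omega)
    omega
  simp only [if_neg hne]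
  have hwr : [10, K.length - 1] ∈ wr (entK K ++ flProg K.length) := by
    have hfl := t_ORD2B t_ORD1 K.length (baseReg ∪ wr (entK K)) Set.subset_union_left
      (fun i hi j hj => Or.inr (wrK hi hj)) (fun r hr => by
        rcases hr with hr | hr
        · have : r.headD 0 < 4 := hr
          omega
        · have := wrK_hd hr
          omega)
    obtain ⟨I, hI, hI2⟩ := hfl.2.2.2 (K.length - 1) (by omega)
    exact ⟨I, List.mem_append_right _ hI, hI2⟩
  refine ⟨⟨ord_lift' hord, vl (entK K ++ flProg K.length) g (WK D g bc K), vl_base _ _ _, ?_,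
    Or.inr ?_, rfl⟩, ?_⟩
  · intro J hJ
    have hE := hD.eqn J hJ
    refine ⟨hE.1, hE.2, fun lam hlam => ?_⟩
    have hsz := coeff_size hg hL h0 hN hd hlam
    set B := iB (qD.eval (N + (lam + (D + 1) * (D + 1)))) D + lam with hBd
    refine qb_mono (?_ : QB ((D + 2) * (2 * B + 1)) _) (qL_ge D N lam)
    have hmono : B ≤ (D + 2) * (2 * B + 1) := by nlinarith [Nat.zero_le D, Nat.zero_le B]
    obtain ⟨I, hI, hJI⟩ := List.mem_flatMap.1 hJ
    have hof := ofR_eq hord I hI
    obtain ⟨hf, hs⟩ := ord_ops hord I hI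
    have hd' : I.dst ∈ baseReg ∪ wr (entK K ++ flProg K.length) := Or.inr ⟨I, hI, rfl⟩
    have c1 : ∀ k ≤ D, QB ((D + 2) * (2 * B + 1)) (vl (entK K ++ flProg K.length) g
        (WK D g bc K) (cr k I.dst)) := fun k hk => qb_mono (hsz _ hd' k hk) hmono
    rcases mem_liftI hJI with ⟨hb, k, hk, rfl⟩ | ⟨hb, k, hk, rfl⟩ | ⟨k, hk, ⟨hop, h⟩ | ⟨hop, h⟩⟩
    · rw [srcI_dst]
      show QB _ ((WK D g bc K (ofR _ I.dst).fst).coeff k)
      rw [hof]
      exact qb_mono (hsz _ hf k hk) hmono
    · rw [srcI_dst]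
      show QB _ ((WK D g bc K (ofR _ I.dst).snd).coeff k)
      rw [hof]
      exact qb_mono (hsz _ hs k hk) hmono
    · have hprod : ∀ j ≤ k, QB (2 * B) ((WK D g bc K I.fst).coeff j *
          (WK D g bc K I.snd).coeff (k - j)) := by
        intro j hj
        have := qb_mul (hsz _ hf j (by omega)) (hsz _ hs (k - j) (by omega))
        rwa [← two_mul] at this
      have hsum : ∀ j ≤ k + 1, QB ((D + 2) * (2 * B + 1)) (∑ i ∈ Finset.range j,
          (WK D g bc K I.fst).coeff i * (WK D g bc K I.snd).coeff (k - i)) := by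
        intro j hj
        refine qb_mono (qb_sum _ j fun i hi => hprod i (by omega)) ?_
        exact Nat.mul_le_mul_right _ (by omega)
      rcases mem_mulI h with rfl | ⟨j, hj, rfl⟩ | ⟨j, hj, rfl⟩ | rfl
      · show QB _ (∑ i ∈ Finset.range 0, _)
        rw [Finset.sum_range_zero]
        exact qb_zero _
      · show QB _ ((WK D g bc K (ofR _ I.dst).fst).coeff j *
          (WK D g bc K (ofR _ I.dst).snd).coeff (k - j))
        rw [hof]
        refine qb_mono (hprod j hj) ?_
        nlinarith [Nat.zero_le D, Nat.zero_le B]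
      · show QB _ (∑ i ∈ Finset.range (j + 1), (WK D g bc K (ofR _ I.dst).fst).coeff i *
          (WK D g bc K (ofR _ I.dst).snd).coeff (k - i))
        rw [hof]
        exact hsum _ (by omega)
      · exact c1 k hk
    · rw [List.mem_singleton.1 h]
      exact c1 k hk
  · exact wr_lift hwr hk
  · exact (len_lift _ _ _).trans (Nat.mul_le_mul_right _ hlen)

end

end Pool.Agent.H37.TN
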