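import Pool.Agent.H37.TN.TAlg

/-! The run of the algorithm. -/

set_option autoImplicit false

namespace Pool.Agent.H37.TN

open Matrix Pool.Agent.NPC Pool.Agent.H558R2 Pool.Agent.H622R3.SM Pool.Agent.W920.FC
open Pool.Agent.H37.CH Filter Topology Pool.Agent.R533.GU
open Pool.Agent.Y648.CS.TDET (qD)
open Pool.Agent.Y648.CS (pe_mono)

variable {m n : ℕ}

/-- sizes -/
noncomputable def qZ : Polynomial ℕ := qD + qL

/-- the degree -/
noncomputable def dX : Polynomial ℕ :=
  (Polynomial.X + 2) * (6 * Polynomial.X * Polynomial.X + 1)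

theorem eval_dX (m : ℕ) : dX.eval m = Dm m := by
  unfold dX Dm
  simp

/-- the number of steps -/
noncomputable def qC : Polynomial ℕ :=
  Polynomial.X * (Polynomial.X * Polynomial.X * (qD + 1)) +
    ((1 + Polynomial.X * Polynomial.X) * (qD + 1) +
      (qT.comp (4 * Polynomial.X)) * ((dX + 1) * (qD * ((dX + 1) * (2 * dX + 6)) + 1)) +
        Polynomial.X * (qD + 1))

theorem sO_keyZ (A : Matrix (Fin m) (Fin n) ℝ) (b : Fin m → ℝ) (i : Fin m) :
    sO (start A b) (keyZ i) = sz (b i) := by
  unfold sO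
  rw [osg_sz, dv_eq (b := 0) (by simp [keyZ]) !![b i] ?_]
  · rw [pow_zero, one_mul, Matrix.det_fin_one]
    rfl
  · intro a c ha hc
    have h1 : a = 0 := by omega
    have h2 : c = 0 := by omega
    subst h1 h2
    show sv (start A b) (false, [1, (i : ℕ)]) = b i
    unfold sv
    have : rd (false, [1, (i : ℕ)]) = [1, (i : ℕ)] := if_pos (by simp)
    rw [this, start_i A b i.2]
    simp

theorem zero_ok (A : Matrix (Fin m) (Fin n) ℝ) (b : Fin m → ℝ) (hA : ∀ i j, A i j = 0) :
    zeroF (sO (start A b)) m = true ↔ ∃ x : Fin n → ℝ, b ≤ A.mulVec x := by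
  have h1 : ∀ (x : Fin n → ℝ) i, (A *ᵥ x) i = 0 := by
    intro x i
    simp only [Matrix.mulVec, dotProduct, hA, zero_mul, Finset.sum_const_zero]
  have h2 : zeroF (sO (start A b)) m = true ↔ ∀ i : Fin m, b i ≤ 0 := by
    unfold zeroF
    rw [List.all_eq_true]
    simp only [List.mem_range, decide_eq_true_eq]
    constructor
    · intro H i
      have := H i i.2
      rw [sO_keyZ] at this
      by_contra h3
      rw [sz_pos (not_le.1 h3)] at this
      exact absurd this (by decide)
    · intro H i hi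
      have := sO_keyZ A b ⟨i, hi⟩
      simp only at this
      rw [this]
      by_contra h3
      have h4 : 0 < sz (b ⟨i, hi⟩) := not_le.1 h3
      have h5 := H ⟨i, hi⟩
      rcases h5.lt_or_eq with h6 | h6
      · rw [sz_neg h6] at h4
        exact absurd h4 (by decide)
      · rw [h6, sz_zero] at h4
        exact absurd h4 (by decide)
  rw [h2]
  constructor
  · intro H
    exact ⟨0, fun i => (H i).trans (h1 0 i).ge⟩
  · rintro ⟨x, hx⟩ i
    exact (hx i).trans (h1 x i).le

theorem le_qC1 : m * (m * n * (qD.eval (m + n) + 1)) ≤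
    (Polynomial.X * (Polynomial.X * Polynomial.X * (qD + 1)) : Polynomial ℕ).eval (m + n) := by
  simp only [Polynomial.eval_add, Polynomial.eval_mul, Polynomial.eval_X, Polynomial.eval_one]
  have hm : m ≤ m + n := Nat.le_add_right _ _
  have hn : n ≤ m + n := Nat.le_add_left _ _
  gcongr

theorem le_qC2 : (1 + m * m) * (qD.eval (m + n) + 1) ≤
    ((1 + Polynomial.X * Polynomial.X) * (qD + 1) : Polynomial ℕ).eval (m + n) := by
  simp only [Polynomial.eval_add, Polynomial.eval_mul, Polynomial.eval_X, Polynomial.eval_one]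
  have hm : m ≤ m + n := Nat.le_add_right _ _
  gcongr

theorem le_qC4 : m * (qD.eval (m + n) + 1) ≤
    (Polynomial.X * (qD + 1) : Polynomial ℕ).eval (m + n) := by
  simp only [Polynomial.eval_add, Polynomial.eval_mul, Polynomial.eval_X, Polynomial.eval_one]
  have hm : m ≤ m + n := Nat.le_add_right _ _
  gcongr

theorem le_qC3 {k : ℕ} (hk : k ≤ m) : qT.eval (3 * m + k) *
    ((Dm m + 1) * (qD.eval k * ((Dm m + 1) * (2 * Dm m + 6)) + 1)) ≤
    ((qT.comp (4 * Polynomial.X)) * ((dX + 1) * (qD * ((dX + 1) * (2 * dX + 6)) + 1))).eval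
      (m + n) := by
  simp only [Polynomial.eval_add, Polynomial.eval_mul, Polynomial.eval_X, Polynomial.eval_one,
    Polynomial.eval_comp, Polynomial.eval_ofNat]
  have h1 := pe_mono qT (show 3 * m + k ≤ 4 * (m + n) by omega)
  have h2 := pe_mono qD (show k ≤ m + n by omega)
  have h3 : Dm m ≤ dX.eval (m + n) := by
    rw [← eval_dX]
    exact pe_mono dX (Nat.le_add_right _ _)
  gcongr

theorem runs_mono {β : Type} {g : Reg → ℝ} {G G' : ℝ → Prop} {T : TT β} {b : β} {c c' : ℕ}
    (hG : ∀ v, G v → G' v) (hc : c ≤ c') (h : Runs g G T b c) : Runs g G' T b c' :=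
  t_TT.2.2.2 _ _ _ _ _ _ _ _ hG hc h

/-- The run of the algorithm. -/
theorem runs_all (A : Matrix (Fin m) (Fin n) ℝ) (b : Fin m → ℝ) (hm : 1 ≤ m)
    (hA : SignedNonneg m n A) : ∃ ans,
      Runs (start A b) (Gd qZ (Dm m + m + n) (start A b)) (TW m n) ans (qC.eval (m + n)) ∧
        (ans = true ↔ ∃ x : Fin n → ℝ, b ≤ A.mulVec x) := by
  have hg : Base (start A b) := ⟨rfl, rfl⟩
  obtain ⟨k, fI, fJ, h, hb⟩ := rk_final A b
  have hl := iter_rank_len (m := m) (n := n) (sO (start A b)) m
  have hG1 : ∀ v, Gd qD (m + n) (start A b) v → Gd qZ (Dm m + m + n) (start A b) v := by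
    refine gd_mono fun lam => ?_
    unfold qZ
    rw [Polynomial.eval_add]
    exact (pe_mono qD (by omega)).trans (Nat.le_add_right _ _)
  have r1 := runs_mono hG1 le_qC1 (runs_rank_iter (m := m) (n := n) hg m le_rfl)
  set st := (rankS (sO (start A b)) m n)^[m] ([], []) with hst
  have hk := h.lJ
  subst hk
  have hsplit : qC.eval (m + n) =
      (Polynomial.X * (Polynomial.X * Polynomial.X * (qD + 1)) : Polynomial ℕ).eval (m + n) +
      (((1 + Polynomial.X * Polynomial.X) * (qD + 1) +
      (qT.comp (4 * Polynomial.X)) * ((dX + 1) * (qD * ((dX + 1) * (2 * dX + 6)) + 1)) +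
        Polynomial.X * (qD + 1) : Polynomial ℕ)).eval (m + n) := by
    unfold qC
    rw [Polynomial.eval_add]
  by_cases h0 : st.2.length = 0
  · refine ⟨zeroF (sO (start A b)) m, ?_, ?_⟩
    · rw [hsplit]
      unfold TW
      refine rb r1 ?_
      unfold mainT
      rw [if_pos h0]
      refine runs_mono hG1 ?_ (runs_zero (m := m) (n := n) hg)
      refine le_qC4.trans ?_
      rw [Polynomial.eval_add]
      exact Nat.le_add_left _ _
    · refine zero_ok A b fun i j => ?_
      have h1 := congrFun (congrFun (schur A fI fJ h.det hb) i) j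
      rw [h1, Matrix.mul_apply]
      refine Finset.sum_eq_zero fun p _ => ?_
      exact absurd p.2 (by omega)
  · have hS := stage_ok hA b h hb
    have r2 := runs_mono hG1 le_qC2 (runs_sgn (m := m) (n := n) hg hl.1)
    set S := sgnF m (edg (sO (start A b)) m st) with hSd
    have hD : 6 * m * m + 1 ≤ Dm m := by
      unfold Dm
      exact Nat.le_mul_of_pos_left _ (by omega)
    have hgs : ∀ δ, gd (Dm m) (start A b) (bcf m st.2 S) δ =
        start (Ad (BJ A fJ S) (fun i => sR S i) δ) (bd b δ) := fun δ =>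
      gd_start A b h.eJ hD δ
    have hB : ∀ δ, Base (gd (Dm m) (start A b) (bcf m st.2 S) δ) := by
      intro δ
      rw [hgs]
      exact ⟨rfl, rfl⟩
    obtain ⟨ans, hr, hev⟩ := runs_tr' (D := Dm m) (bc := bcf m st.2 S) hg hB
      (low_bcf m st.2 S hD) (N := st.2.length)
      (by unfold Dm; exact Nat.mul_le_mul_right _ (by have := hl.2; omega))
      (allQ_TA (3 * m) st.2.length)
      (G' := fun δ => Gd qD (3 * m + st.2.length) (gd (Dm m) (start A b) (bcf m st.2 S) δ))
      (B := fun δ => ansS (sO (gd (Dm m) (start A b) (bcf m st.2 S) δ)) st.2.length (3 * m))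
      (c := qT.eval (3 * m + st.2.length))
      (Eventually.of_forall fun δ => runs_TA' (m := 3 * m) (n := st.2.length) (hB δ))
    have hG2 : ∀ v, Gd qL (Dm m + st.2.length) (start A b) v →
        Gd qZ (Dm m + m + n) (start A b) v := by
      refine gd_mono fun lam => ?_
      unfold qZ
      rw [Polynomial.eval_add]
      exact (pe_mono qL (by have := hl.2; omega)).trans (Nat.le_add_left _ _)
    have r3 := runs_mono hG2 (le_qC3 (n := n) hl.2) hr
    refine ⟨ans, ?_, ?_⟩
    · rw [hsplit]
      unfold TW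
      refine rb r1 ?_
      unfold mainT
      rw [if_neg h0]
      refine runs_mono (fun _ h => h) ?_ (rb r2 r3)
      rw [Polynomial.eval_add, Polynomial.eval_add]
      exact Nat.le_add_right _ _
    · obtain ⟨T', P', hT', hP', hBT⟩ := hS
      have hfin := final_iff b h hb S
      obtain ⟨δ, ⟨⟨hδ0, hδ1⟩, h2⟩, h3⟩ := ((Filter.Eventually.and
        (Ioo_mem_nhdsGT (show (0 : ℝ) < 1 by norm_num)) hfin).and hev).exists
      have hch := cheb_Ad hT' hP' hBT (s := fun i : Fin m => sR S i) (fun i => sR_abs S i) hδ0 hδ1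
      obtain ⟨N, D, hDA, hDb⟩ := data_of (m := 3 * m) (n := st.2.length) (by omega) (by omega)
        (bd b δ) hch
      rw [← h3, hgs, ← hDA, ← hDb, D.orc.answer, hDA, hDb]
      exact h2

/-- The algorithm decides the class. -/
theorem decides : DecidesOn ∅ (fun m n A _ => SignedNonneg m n A) alg := by
  refine ⟨qC + 1 + (2 * qZ.comp (dX + 3 * Polynomial.X) + 3), fun m n hm hn A b hA => ?_⟩
  obtain ⟨ans, hr, hans⟩ := runs_all A b hm hA
  have hfuel : qC.eval (m + n) + 1 ≤
      (qC + 1 + (2 * qZ.comp (dX + 3 * Polynomial.X) + 3)).eval (m + n) := by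
    simp only [Polynomial.eval_add, Polynomial.eval_one]
    omega
  obtain ⟨nums, steps, hrun, hsteps, hG⟩ := t_RUN TW m n _ _ _ _ hr ∅ _ hfuel
  refine ⟨ans, nums, steps, hrun, hans, by omega, ?_⟩
  intro A' b' hA' hb' v hv
  have hA2 : (fun i j => ((A' i j : ℚ) : ℝ)) = (A : Fin m → Fin n → ℝ) := by
    funext i j
    exact hA' i j
  have hb2 : (fun i => ((b' i : ℚ) : ℝ)) = b := by
    funext i
    exact hb' i
  have hRB := t_BITS.2 m n A' b'
  rw [hA2, hb2] at hRB
  have hQ := hG v hv _ hRB
  obtain ⟨q, hq, hq2⟩ := t_BITS.1 _ _ hQ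
  refine ⟨q, hq, hq2.trans ?_⟩
  have hL := Pool.Agent.Y648.CS.FL.le_inputLength hm A' b'
  have hd : Dm m ≤ dX.eval (inputLength A' b') := by
    rw [← eval_dX]
    exact pe_mono dX (by omega)
  have hmono := pe_mono qZ
    (show Dm m + m + n + 2 * inputLength A' b' ≤
      dX.eval (inputLength A' b') + 3 * inputLength A' b' by omega)
  simp only [Polynomial.eval_add, Polynomial.eval_mul, Polynomial.eval_comp,
    Polynomial.eval_X, Polynomial.eval_ofNat]
  omega

end Pool.Agent.H37.TN
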