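import Pool.Agent.H37.TN.Interp
import Pool.Agent.H37.CH.Runs

/-! The power series of the registers of the program for a determinant. -/

set_option autoImplicit false

namespace Pool.Agent.H37.TN

open Pool.Agent.NPC Pool.Agent.H558R2 Pool.Agent.H622R3.SM Pool.Agent.W920.FC Pool.Agent.H37.CH
open Polynomial
open Pool.Agent.Y648.CS.TDET (vd qD b2 b3)

/-- the base registers as polynomials -/
noncomputable def gX (D : ℕ) (g : Reg → ℝ) (bc : Reg → ℕ → Src) (r : Reg) : ℝ[X] :=
  ∑ k ∈ Finset.range (D + 1), C (sv g (bc r k)) * X ^ k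

/-- the base registers at a point -/
noncomputable def gd (D : ℕ) (g : Reg → ℝ) (bc : Reg → ℕ → Src) (δ : ℝ) (r : Reg) : ℝ :=
  (gX D g bc r).eval δ

section

variable {K : ℕ}

/-- the matrices of the algorithm of Faddeev and LeVerrier -/
noncomputable def flX (G : Matrix (Fin K) (Fin K) ℝ[X]) : ℕ → Matrix (Fin K) (Fin K) ℝ[X]
  | 0 => 1
  | k + 1 => G * flX G k - (C (1 / ((k : ℝ) + 1)) * Matrix.trace (G * flX G k)) • 1

/-- the entries -/
noncomputable def entX (G : Matrix (Fin K) (Fin K) ℝ[X]) (i j : ℕ) : ℝ[X] :=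
  if h : i < K ∧ j < K then G ⟨i, h.1⟩ ⟨j, h.2⟩ else 0

/-- the power series of the registers -/
noncomputable def wd (q : Reg → ℝ[X]) (G : Matrix (Fin K) (Fin K) ℝ[X]) : Reg → ℝ[X]
  | [4, i, j] => entX G i j
  | [5, k] => C (k : ℝ)
  | [6, k, i, j] => entX (flX G k) i j
  | [7, k, i, j, l] => entX G i l * entX (flX G k) l j
  | [8, k, i, j, l] => ∑ l' ∈ Finset.range l, entX G i l' * entX (flX G k) l' j
  | [9, k, i] => ∑ i' ∈ Finset.range i, ∑ l ∈ Finset.range K, entX G i' l * entX (flX G k) l i'
  | [10, k] => C (1 / ((k : ℝ) + 1)) * ∑ i ∈ Finset.range K, ∑ l ∈ Finset.range K,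
      entX G i l * entX (flX G k) l i
  | r => q r

theorem eval_entX (G : Matrix (Fin K) (Fin K) ℝ[X]) (δ : ℝ) (i j : ℕ) :
    (entX G i j).eval δ = ent (G.map (Polynomial.eval δ)) i j := by
  unfold entX ent
  split_ifs with h
  · rfl
  · simp

theorem map_eval_mul (A B : Matrix (Fin K) (Fin K) ℝ[X]) (δ : ℝ) :
    (A * B).map (Polynomial.eval δ) = A.map (Polynomial.eval δ) * B.map (Polynomial.eval δ) := by
  have := Matrix.map_mul (L := A) (M := B) (f := Polynomial.evalRingHom δ)
  exact this

theorem eval_trace (A : Matrix (Fin K) (Fin K) ℝ[X]) (δ : ℝ) :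
    (Matrix.trace A).eval δ = Matrix.trace (A.map (Polynomial.eval δ)) := by
  simp only [Matrix.trace, Matrix.diag_apply, Polynomial.eval_finsetSum, Matrix.map_apply]

theorem eval_flX (G : Matrix (Fin K) (Fin K) ℝ[X]) (δ : ℝ) : ∀ k : ℕ,
    (flX G k).map (Polynomial.eval δ) = flN (G.map (Polynomial.eval δ)) k := by
  intro k
  induction k with
  | zero =>
    funext i j
    simp only [flX, flN, Matrix.map_apply, Matrix.one_apply]
    split_ifs <;> simp
  | succ k ih =>
    funext i j
    simp only [flX, flN]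
    rw [← ih, ← map_eval_mul, ← eval_trace]
    simp only [Matrix.map_apply, Matrix.sub_apply, Matrix.smul_apply, Matrix.one_apply, smul_eq_mul,
      Polynomial.eval_sub, Polynomial.eval_mul, Polynomial.eval_C]
    split_ifs
    · simp
      ring
    · simp

theorem eval_wd (q : Reg → ℝ[X]) (G : Matrix (Fin K) (Fin K) ℝ[X]) (δ : ℝ) (r : Reg) :
    (wd q G r).eval δ = vd (fun r => (q r).eval δ) (G.map (Polynomial.eval δ)) r := by
  unfold wd vd
  split
  · exact eval_entX _ _ _ _
  · simp
  · rw [eval_entX, eval_flX]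
    rfl
  · rw [Polynomial.eval_mul, eval_entX, eval_entX, eval_flX]
    rfl
  · simp only [Polynomial.eval_finsetSum, Polynomial.eval_mul, eval_entX, eval_flX]
  · simp only [Polynomial.eval_finsetSum, Polynomial.eval_mul, eval_entX, eval_flX]
  · unfold cVal
    simp only [Polynomial.eval_finsetSum, Polynomial.eval_mul, eval_entX, eval_flX,
      Polynomial.eval_C]
    ring
  · split <;> first | rfl | grind

theorem wd_base (q : Reg → ℝ[X]) (G : Matrix (Fin K) (Fin K) ℝ[X]) :
    ∀ r ∈ baseReg, wd q G r = q r := by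
  intro r hr
  unfold wd
  split <;> first | rfl | (exfalso; revert hr; simp [baseReg])

end

/-- The equations of the program for a determinant. -/
theorem det_eqn {g : Reg → ℝ} (hg : Base g) (K : Key) :
    ∀ I ∈ entK K ++ flProg K.length, Eqn (vd g (MK g K)) I := by
  intro I hI
  have hent : ∀ i k, i < K.length → k < K.length →
      vd g (MK g K) [4, i, k] = sv g (kget K i k) := by
    intro i k hi hk
    rw [Pool.Agent.Y648.CS.TDET.v4, Pool.Agent.W920.FD.TEQM.ent_mk _ _ _ hi hk]
    rfl
  rcases List.mem_append.1 hI with hI | hI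
  · obtain ⟨i, k, hi, hk, rfl⟩ := mem_entK hI
    exact srcI_eqn _ _ g _ hg (Pool.Agent.Y648.CS.TDET.vd_base g _) (hent i k hi hk)
  · exact Pool.Agent.Y648.CS.TDET.good_fl _ hg I hI

/-- The sizes of the numbers in the program for a determinant. -/
theorem det_sizes {g : Reg → ℝ} (K : Key) (hK : K.length ≠ 0) {N : ℕ}
    (hN : K.length ≤ N + 2) :
    ∀ I ∈ entK K ++ flProg K.length, Gd qD N g (vd g (MK g K) I.dst) := by
  intro I hI lam hlam
  obtain ⟨D, hD1, hD2, hD3⟩ := hlam
  have hIB : ∀ i j, IB (MK g K i j) D (2 ^ lam) := fun i j =>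
    sv_IB g (kget K i j) hD3
  have hs := Pool.Agent.Y648.CS.TDET.sizes (K := K.length) (by omega) (g := g) (MK g K) hD1 hD2 hIB
    (Pool.Agent.Y648.CS.TDET.qD_ge K.length lam (N + lam) (by omega) (by omega))
  rcases List.mem_append.1 hI with hI | hI
  · obtain ⟨i, k, hi, hk, rfl⟩ := mem_entK hI
    rw [srcI_dst]
    exact hs.1 i k
  · exact hs.2 I hI

theorem fl_div {K : ℕ} {I : Instr} (hI : I ∈ flProg K) (ho : I.op = Op.div) :
    ∃ k, I.snd = [5, k + 1] := by
  unfold flProg at hI
  simp only [List.mem_append, List.mem_flatMap, List.mem_range] at hI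
  rcases hI with hI | ⟨k, hk, hI | hI | hI⟩
  · unfold initProg at hI
    simp only [List.mem_cons, List.mem_flatMap, List.mem_map, List.mem_range] at hI
    rcases hI with rfl | ⟨i, hi, j, hj, rfl⟩ <;> exact absurd ho (by simp)
  · unfold prodProg at hI
    simp only [List.mem_cons, List.mem_flatMap, List.mem_range, List.not_mem_nil, or_false] at hI
    obtain ⟨i, hi, j, hj, rfl | ⟨l, hl, rfl | rfl⟩⟩ := hI <;> exact absurd ho (by simp)
  · unfold traceProg at hI
    simp only [List.mem_cons, List.mem_append, List.mem_map, List.mem_range, List.not_mem_nil,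
      or_false, List.cons_append] at hI
    rcases hI with rfl | ⟨i, hi, rfl⟩ | rfl | rfl
    · exact absurd ho (by simp)
    · exact absurd ho (by simp)
    · exact absurd ho (by simp)
    · exact ⟨k, rfl⟩
  · unfold nextProg at hI
    simp only [List.mem_flatMap, List.mem_map, List.mem_range] at hI
    obtain ⟨i, hi, j, hj, rfl⟩ := hI
    exact absurd ho (by simp)

section

variable (D : ℕ) (g : Reg → ℝ) (bc : Reg → ℕ → Src) (K : Key)

/-- the matrix -/
noncomputable def MX : Matrix (Fin K.length) (Fin K.length) ℝ[X] :=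
  Matrix.of fun i j => (if (kget K i j).1 = true then -1 else 1) * gX D g bc (rd (kget K i j))

/-- the power series -/
noncomputable def WK : Reg → ℝ[X] := wd (gX D g bc) (MX D g bc K)

theorem eval_MX (δ : ℝ) : (MX D g bc K).map (Polynomial.eval δ) = MK (gd D g bc δ) K := by
  funext i j
  simp only [MX, MK, sv, gd, Matrix.map_apply, Matrix.of_apply, Polynomial.eval_mul]
  congr 1
  split_ifs <;> simp

theorem eval_WK (δ : ℝ) (r : Reg) :
    (WK D g bc K r).eval δ = vd (gd D g bc δ) (MK (gd D g bc δ) K) r := by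
  unfold WK
  rw [eval_wd, eval_MX]
  rfl

theorem coeff_gX (r : Reg) {k : ℕ} (hk : k ≤ D) : (gX D g bc r).coeff k = sv g (bc r k) := by
  unfold gX
  simp only [Polynomial.finsetSum_coeff, Polynomial.coeff_C_mul_X_pow]
  rw [Finset.sum_ite_eq (Finset.range (D + 1)) k]
  rw [if_pos (Finset.mem_range.2 (by omega))]

/-- the polynomials vanish above `d` -/
def Low (d : ℕ) : Prop := d ≤ D ∧ ∀ r k, d < k → bc r k = (false, [3])

variable {D g bc K}

theorem sv_nil (hg : Base g) : sv g (false, [3]) = 0 := by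
  unfold sv rd
  simp [hg.2]

theorem deg_gX (hg : Base g) {d : ℕ} (h : Low D bc d) (r : Reg) :
    (gX D g bc r).natDegree ≤ d := by
  unfold gX
  refine Polynomial.natDegree_sum_le_of_forall_le _ _ fun k _ => ?_
  by_cases hk : k ≤ d
  · exact (Polynomial.natDegree_C_mul_X_pow_le _ _).trans hk
  · rw [h.2 r k (by omega), sv_nil hg]
    simp

theorem deg_MX (hg : Base g) {d : ℕ} (h : Low D bc d) (i j : Fin K.length) :
    (MX D g bc K i j).natDegree ≤ d := by
  simp only [MX, Matrix.of_apply]
  refine Polynomial.natDegree_mul_le.trans ?_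
  have h1 : (if (kget K i j).1 = true then (-1 : ℝ[X]) else 1).natDegree = 0 := by
    split_ifs <;> simp
  rw [h1, Nat.zero_add]
  exact deg_gX hg h _

theorem deg_entX {L : ℕ} {G : Matrix (Fin L) (Fin L) ℝ[X]} {d : ℕ}
    (h : ∀ i j, (G i j).natDegree ≤ d) (i j : ℕ) : (entX G i j).natDegree ≤ d := by
  unfold entX
  split_ifs
  · exact h _ _
  · simp

theorem deg_flX {L : ℕ} {G : Matrix (Fin L) (Fin L) ℝ[X]} {d : ℕ}
    (h : ∀ i j, (G i j).natDegree ≤ d) : ∀ k i j, (flX G k i j).natDegree ≤ k * d := by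
  intro k
  induction k with
  | zero =>
    intro i j
    simp only [flX, Matrix.one_apply]
    split_ifs <;> simp
  | succ k ih =>
    intro i j
    have h1 : ∀ i j, ((G * flX G k) i j).natDegree ≤ (k + 1) * d := by
      intro i j
      rw [Matrix.mul_apply]
      refine Polynomial.natDegree_sum_le_of_forall_le _ _ fun l _ => ?_
      refine Polynomial.natDegree_mul_le.trans ?_
      have e1 := h i l
      have e2 := ih l j
      rw [Nat.succ_mul]
      omega
    simp only [flX, Matrix.sub_apply, Matrix.smul_apply, Matrix.one_apply, smul_eq_mul]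
    refine (Polynomial.natDegree_sub_le _ _).trans (max_le (h1 i j) ?_)
    refine Polynomial.natDegree_mul_le.trans ?_
    have h2 : (if i = j then (1 : ℝ[X]) else 0).natDegree = 0 := by
      split_ifs <;> simp
    rw [h2, Nat.add_zero]
    refine (Polynomial.natDegree_C_mul_le _ _).trans ?_
    unfold Matrix.trace
    exact Polynomial.natDegree_sum_le_of_forall_le _ _ fun l _ => h1 l l

/-- The degrees. -/
theorem deg_WK (hg : Base g) {d : ℕ} (h : Low D bc d) (hd : K.length * d ≤ D) :
    ∀ I ∈ entK K ++ flProg K.length, (WK D g bc K I.dst).natDegree ≤ D := by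
  have hmono : ∀ {k : ℕ}, k ≤ K.length → k * d ≤ D := fun hk => (Nat.mul_le_mul_right _ hk).trans hd
  have hG := deg_MX (K := K) hg h
  have hF := deg_flX hG
  have s4 : ∀ i j, (entX (MX D g bc K) i j).natDegree ≤ d := deg_entX hG
  have s6 : ∀ k i j, (entX (flX (MX D g bc K) k) i j).natDegree ≤ k * d := fun k =>
    deg_entX (hF k)
  have s7 : ∀ k i j l l', (entX (MX D g bc K) i l * entX (flX (MX D g bc K) k) l' j).natDegree ≤
      (k + 1) * d := by
    intro k i j l l'
    refine Polynomial.natDegree_mul_le.trans ?_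
    have e1 := s4 i l
    have e2 := s6 k l' j
    rw [Nat.succ_mul]
    omega
  have s8 : ∀ k i j l, (∑ l' ∈ Finset.range l, entX (MX D g bc K) i l' *
      entX (flX (MX D g bc K) k) l' j).natDegree ≤ (k + 1) * d := fun k i j l =>
    Polynomial.natDegree_sum_le_of_forall_le _ _ fun l' _ => s7 k i j l' l'
  have s9 : ∀ k i, (∑ i' ∈ Finset.range i, ∑ l ∈ Finset.range K.length,
      entX (MX D g bc K) i' l * entX (flX (MX D g bc K) k) l i').natDegree ≤ (k + 1) * d :=
    fun k i => Polynomial.natDegree_sum_le_of_forall_le _ _ fun i' _ => s8 k i' i' _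
  have t4 : ∀ i j, 1 ≤ K.length → (WK D g bc K [4, i, j]).natDegree ≤ D := fun i j hK =>
    (s4 i j).trans ((by simpa using hmono hK))
  have t5 : ∀ k, (WK D g bc K [5, k]).natDegree ≤ D := fun k => by
    show (C (k : ℝ)).natDegree ≤ D
    simp
  have t6 : ∀ k i j, k ≤ K.length → (WK D g bc K [6, k, i, j]).natDegree ≤ D := fun k i j hk =>
    (s6 k i j).trans (hmono hk)
  have t7 : ∀ k i j l, k < K.length → (WK D g bc K [7, k, i, j, l]).natDegree ≤ D :=
    fun k i j l hk => (s7 k i j l l).trans (hmono hk)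
  have t8 : ∀ k i j l, k < K.length → (WK D g bc K [8, k, i, j, l]).natDegree ≤ D :=
    fun k i j l hk => (s8 k i j l).trans (hmono hk)
  have t9 : ∀ k i, k < K.length → (WK D g bc K [9, k, i]).natDegree ≤ D :=
    fun k i hk => (s9 k i).trans (hmono hk)
  have t10 : ∀ k, k < K.length → (WK D g bc K [10, k]).natDegree ≤ D :=
    fun k hk => (Polynomial.natDegree_C_mul_le _ _).trans ((s9 k _).trans (hmono hk))
  intro I hI
  rcases List.mem_append.1 hI with hI | hI
  · obtain ⟨i, k, hi, hk, rfl⟩ := mem_entK hI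
    rw [srcI_dst]
    exact t4 _ _ (by omega)
  unfold flProg at hI
  simp only [List.mem_append, List.mem_flatMap, List.mem_range] at hI
  rcases hI with hI | ⟨k, hk, hI | hI | hI⟩
  · unfold initProg at hI
    simp only [List.mem_cons, List.mem_flatMap, List.mem_map, List.mem_range] at hI
    rcases hI with rfl | ⟨i, hi, j, hj, rfl⟩
    · exact t5 _
    · exact t6 _ _ _ (Nat.zero_le _)
  · unfold prodProg at hI
    simp only [List.mem_cons, List.mem_flatMap, List.mem_range, List.not_mem_nil, or_false] at hI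
    obtain ⟨i, hi, j, hj, rfl | ⟨l, hl, rfl | rfl⟩⟩ := hI
    · exact t8 _ _ _ _ hk
    · exact t7 _ _ _ _ hk
    · exact t8 _ _ _ _ hk
  · unfold traceProg at hI
    simp only [List.mem_cons, List.mem_append, List.mem_map, List.mem_range, List.not_mem_nil,
      or_false, List.cons_append] at hI
    rcases hI with rfl | ⟨i, hi, rfl⟩ | rfl | rfl
    · exact t9 _ _ hk
    · exact t9 _ _ hk
    · exact t5 _
    · exact t10 _ hk
  · unfold nextProg at hI
    simp only [List.mem_flatMap, List.mem_map, List.mem_range] at hI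
    obtain ⟨i, hi, j, hj, rfl⟩ := hI
    exact t6 _ _ _ hk

theorem desc (hg : Base g) (hB : ∀ δ, Base (gd D g bc δ)) :
    Desc D bc (entK K ++ flProg K.length) g (WK D g bc K) := by
  refine ⟨?_, fun I hI => ?_, fun r hr k hk => ?_, hg⟩
  · have hfl := t_ORD2B t_ORD1 K.length (baseReg ∪ wr (entK K)) Set.subset_union_left
      (fun i hi j hj => Or.inr (wrK hi hj)) (fun r hr => by
        rcases hr with hr | hr
        · have : r.headD 0 < 4 := hr
          omega
        · have := wrK_hd hr
          omega)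
    exact (t_ORD1.1 _ _ _).2 ⟨ordK K, hfl.1⟩
  · have hE : ∀ δ, Eqn (vd (gd D g bc δ) (MK (gd D g bc δ) K)) I := fun δ => det_eqn (hB δ) K I hI
    refine ⟨fun ho => ?_, fun ho => ?_, fun ho => ?_, fun ho => ?_⟩
    · refine Polynomial.funext fun δ => ?_
      have := (hE δ).1
      rw [ho] at this
      rw [Polynomial.eval_add, eval_WK, eval_WK, eval_WK]
      exact this
    · refine Polynomial.funext fun δ => ?_
      have := (hE δ).1
      rw [ho] at this
      rw [Polynomial.eval_sub, eval_WK, eval_WK, eval_WK]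
      exact this
    · refine Polynomial.funext fun δ => ?_
      have := (hE δ).1
      rw [ho] at this
      rw [Polynomial.eval_mul, eval_WK, eval_WK, eval_WK]
      exact this
    · have h1 : I ∈ flProg K.length := by
        rcases List.mem_append.1 hI with hI | hI
        · obtain ⟨i, k, hi, hk, rfl⟩ := mem_entK hI
          exfalso
          revert ho
          unfold srcI
          split_ifs <;> simp
        · exact hI
      obtain ⟨k, hk⟩ := fl_div h1 ho
      refine ⟨((k + 1 : ℕ) : ℝ), by positivity, ?_, ?_⟩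
      · rw [hk]
        rfl
      · refine Polynomial.funext fun δ => ?_
        have h2 := (hE δ).1
        rw [ho, hk] at h2
        have h3 : vd (gd D g bc δ) (MK (gd D g bc δ) K) [5, k + 1] = ((k + 1 : ℕ) : ℝ) := rfl
        rw [h3] at h2
        rw [Polynomial.eval_mul, Polynomial.eval_C, eval_WK, eval_WK, h2]
        simp only [Op.eval]
        have : ((k + 1 : ℕ) : ℝ) ≠ 0 := by positivity
        field_simp
  · unfold WK
    rw [wd_base _ _ r hr, coeff_gX D g bc r hk]

end

end Pool.Agent.H37.TN
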