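import Mathlib

/-! Propagation of signs. -/

set_option autoImplicit false

namespace Pool.Agent.H37.TN

/-- A relation between two signs: they are equal or different. -/
abbrev Edg : Type := ℕ × (ℕ × Bool)

/-- A partial assignment. -/
abbrev Asg : Type := List (Option Bool)

/-- assign a sign -/
def asg (m : ℕ) (S : Asg) (a : ℕ) (x : Bool) : Asg :=
  (List.range m).map fun i => if i = a then some x else S.getD i none

/-- assign one more sign -/
def stp (m : ℕ) (E : List Edg) (S : Asg) : Asg :=
  (((E.filter fun e => decide (S.getD e.1 none = none) &&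
    decide (S.getD e.2.1 none ≠ none)).head?).map fun e =>
      asg m S e.1 (decide (S.getD e.2.1 none = some e.2.2))).getD
    (((((List.range m).filter fun a => decide (S.getD a none = none)).head?).map fun a =>
      asg m S a true).getD S)

/-- the assignment -/
def sgnF (m : ℕ) (E : List Edg) : Asg := (stp m E)^[m] []

/-- the edges join numbers smaller than `m`, in both directions -/
def EdgOK (m : ℕ) (E : List Edg) : Prop :=
  ∀ e ∈ E, e.1 < m ∧ e.2.1 < m ∧ (e.2.1, (e.1, e.2.2)) ∈ E

/-- `σ` satisfies the relations -/
def Valid (E : List Edg) (σ : ℕ → Bool) : Prop :=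
  ∀ e ∈ E, e.2.2 = decide (σ e.1 = σ e.2.1)

theorem getD_asg {m : ℕ} (S : Asg) {a : ℕ} (x : Bool) {i : ℕ} (hi : i < m) :
    (asg m S a x).getD i none = if i = a then some x else S.getD i none := by
  unfold asg
  rw [List.getD_eq_getElem _ _ (by simpa using hi), List.getElem_map, List.getElem_range]

theorem getD_asg' {m : ℕ} (S : Asg) {a : ℕ} (x : Bool) {i : ℕ} (hi : ¬i < m) :
    (asg m S a x).getD i none = none := by
  unfold asg
  rw [List.getD_eq_default _ _ (by simpa using hi)]

/-- the number of free elements -/
def free (m : ℕ) (S : Asg) : ℕ := ((Finset.range m).filter fun i => S.getD i none = none).card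

theorem free_asg {m : ℕ} {S : Asg} {a : ℕ} (x : Bool) (ha : a < m) (h : S.getD a none = none) :
    free m (asg m S a x) < free m S := by
  refine Finset.card_lt_card ?_
  rw [Finset.ssubset_iff_of_subset]
  · refine ⟨a, Finset.mem_filter.2 ⟨Finset.mem_range.2 ha, h⟩, ?_⟩
    rw [Finset.mem_filter, getD_asg S x ha, if_pos rfl]
    simp
  · intro i hi
    rw [Finset.mem_filter, Finset.mem_range] at hi ⊢
    refine ⟨hi.1, ?_⟩
    have h2 := hi.2
    rw [getD_asg S x hi.1] at h2
    split_ifs at h2
    exact h2

/-- `σ` extends the assignment -/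
def Ext (m : ℕ) (S : Asg) (σ : ℕ → Bool) : Prop :=
  ∀ i < m, ∀ x, S.getD i none = some x → σ i = x

/-- the invariant -/
def Inv (m : ℕ) (E : List Edg) (S : Asg) : Prop := ∃ σ, Valid E σ ∧ Ext m S σ

theorem stp_inv {m : ℕ} {E : List Edg} (hE : EdgOK m E) {S : Asg} (h : Inv m E S) :
    Inv m E (stp m E S) ∧ (free m S ≠ 0 → free m (stp m E S) < free m S) ∧
      (free m S = 0 → stp m E S = S) := by
  obtain ⟨σ, hσ, hS⟩ := h
  unfold stp
  cases h1 : (E.filter fun e => decide (S.getD e.1 none = none) &&
    decide (S.getD e.2.1 none ≠ none)).head? with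
  | some e =>
    have h2 := List.mem_of_mem_head? h1
    rw [List.mem_filter] at h2
    obtain ⟨he, h3⟩ := h2
    simp only [Bool.and_eq_true, decide_eq_true_eq] at h3
    obtain ⟨h3, h4⟩ := h3
    obtain ⟨y, hy⟩ := Option.ne_none_iff_exists'.1 h4
    obtain ⟨ha, hb, -⟩ := hE e he
    rw [Option.map_some, Option.getD_some]
    refine ⟨⟨σ, hσ, fun i hi x hx => ?_⟩, fun _ => free_asg _ ha h3, fun h0 => ?_⟩
    · rw [getD_asg S _ hi] at hx
      split_ifs at hx with hia
      · rw [hia, ← Option.some.inj hx, hy]
        have e1 := hσ e he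
        have e2 := hS _ hb y hy
        rw [e2] at e1
        rw [e1]
        cases σ e.1 <;> cases y <;> decide
      · exact hS i hi x hx
    · exfalso
      unfold free at h0
      rw [Finset.card_eq_zero] at h0
      have : e.1 ∈ (Finset.range m).filter fun i => S.getD i none = none := by
        rw [Finset.mem_filter, Finset.mem_range]
        exact ⟨ha, h3⟩
      rw [h0] at this
      exact absurd this (Finset.notMem_empty _)
  | none =>
    rw [Option.map_none, Option.getD_none]
    rw [List.head?_eq_none_iff, List.filter_eq_nil_iff] at h1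
    have hno : ∀ e ∈ E, S.getD e.1 none = none → S.getD e.2.1 none = none := by
      intro e he h2
      by_contra h3
      refine h1 e he ?_
      rw [decide_eq_true h2, decide_eq_true h3]
      rfl
    cases h4 : ((List.range m).filter fun a => decide (S.getD a none = none)).head? with
    | none =>
      rw [Option.map_none, Option.getD_none]
      refine ⟨⟨σ, hσ, hS⟩, fun h0 => ?_, fun _ => rfl⟩
      exfalso
      apply h0
      rw [List.head?_eq_none_iff, List.filter_eq_nil_iff] at h4
      unfold free
      rw [Finset.card_eq_zero, Finset.filter_eq_empty_iff]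
      intro i hi h5
      exact h4 i (List.mem_range.2 (Finset.mem_range.1 hi)) (decide_eq_true h5)
    | some a =>
      have h5 := List.mem_of_mem_head? h4
      rw [List.mem_filter, List.mem_range] at h5
      obtain ⟨ha, h6⟩ := h5
      have h6 : S.getD a none = none := of_decide_eq_true h6
      rw [Option.map_some, Option.getD_some]
      refine ⟨⟨fun i => if S.getD i none = none then xor (σ i) (!(σ a)) else σ i, ?_, ?_⟩,
        fun _ => free_asg _ ha h6, fun h0 => ?_⟩
      · intro e he
        have e1 := hσ e he
        have h7 := hno e he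
        obtain ⟨-, -, hs⟩ := hE e he
        have h8 := hno _ hs
        simp only at h8
        rw [e1]
        simp only
        by_cases h9 : S.getD e.1 none = none
        · simp only [h9, h7 h9, if_true]
          cases σ e.1 <;> cases σ e.2.1 <;> cases σ a <;> decide
        · have h10 : ¬S.getD e.2.1 none = none := fun h => h9 (h8 h)
          simp only [h9, h10, if_false]
      · intro i hi x hx
        rw [getD_asg S _ hi] at hx
        simp only
        split_ifs at hx with hia
        · rw [hia, if_pos h6, ← Option.some.inj hx]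
          cases σ a <;> rfl
        · rw [if_neg (by rw [hx]; simp)]
          exact hS i hi x hx
      · exfalso
        unfold free at h0
        rw [Finset.card_eq_zero] at h0
        have : a ∈ (Finset.range m).filter fun i => S.getD i none = none := by
          rw [Finset.mem_filter, Finset.mem_range]
          exact ⟨ha, h6⟩
        rw [h0] at this
        exact absurd this (Finset.notMem_empty _)

theorem iter_inv {m : ℕ} {E : List Edg} (hE : EdgOK m E) (h : ∃ σ, Valid E σ) (t : ℕ) :
    Inv m E ((stp m E)^[t] []) ∧ free m ((stp m E)^[t] []) ≤ m - t := by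
  induction t with
  | zero =>
    obtain ⟨σ, hσ⟩ := h
    refine ⟨⟨σ, hσ, fun i _ x hx => ?_⟩, ?_⟩
    · rw [Function.iterate_zero, id] at hx
      simp at hx
    · rw [Function.iterate_zero, id]
      unfold free
      exact (Finset.card_filter_le _ _).trans (by simp)
  | succ t ih =>
    rw [Function.iterate_succ_apply']
    obtain ⟨h1, h2, h3⟩ := stp_inv hE ih.1
    refine ⟨h1, ?_⟩
    by_cases h0 : free m ((stp m E)^[t] []) = 0
    · rw [h3 h0, h0]
      exact Nat.zero_le _
    · have := h2 h0
      have := ih.2
      omega

/-- **All relations are satisfied.** -/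
theorem sgnF_ok {m : ℕ} {E : List Edg} (hE : EdgOK m E) (h : ∃ σ, Valid E σ) :
    ∀ e ∈ E, ∃ x y, (sgnF m E).getD e.1 none = some x ∧ (sgnF m E).getD e.2.1 none = some y ∧
      e.2.2 = decide (x = y) := by
  obtain ⟨⟨σ, hσ, hS⟩, h0⟩ := iter_inv hE h m
  have h0 : free m ((stp m E)^[m] []) = 0 := by omega
  have hall : ∀ i < m, ∃ x, (sgnF m E).getD i none = some x := by
    intro i hi
    refine Option.ne_none_iff_exists'.1 fun h1 => ?_
    unfold free at h0
    rw [Finset.card_eq_zero] at h0
    have : i ∈ (Finset.range m).filter fun i => ((stp m E)^[m] []).getD i none = none := by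
      rw [Finset.mem_filter, Finset.mem_range]
      exact ⟨hi, h1⟩
    rw [h0] at this
    exact absurd this (Finset.notMem_empty _)
  intro e he
  obtain ⟨ha, hb, -⟩ := hE e he
  obtain ⟨x, hx⟩ := hall _ ha
  obtain ⟨y, hy⟩ := hall _ hb
  refine ⟨x, y, hx, hy, ?_⟩
  rw [← hS _ ha x hx, ← hS _ hb y hy]
  exact hσ e he

end Pool.Agent.H37.TN
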