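import Pool.Agent.H37.TN.Lin
import Pool.Agent.H37.TN.Sgn
import Pool.Agent.H37.TN.Inst

/-! The first phase: a basis, and the signs of the rows. -/

set_option autoImplicit false

namespace Pool.Agent.H37.TN

open Matrix Pool.Agent.NPC Pool.Agent.H558R2 Pool.Agent.H622R3.SM Pool.Agent.W920.FC
open Pool.Agent.H37.CH

/-- a submatrix -/
def keyM (I J : List ℕ) : Key := I.map fun i => J.map fun j => (false, [0, i, j])

/-- Rows and columns. -/
abbrev IJ : Type := List ℕ × List ℕ

/-- the candidates -/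
def cand (m n : ℕ) : List (ℕ × ℕ) :=
  (List.range m).flatMap fun i => (List.range n).map fun j => (i, j)

/-- a bordered submatrix -/
def bord (st : IJ) (p : ℕ × ℕ) : Key := keyM (st.1 ++ [p.1]) (st.2 ++ [p.2])

/-- the bordered submatrices -/
def rankK (m n : ℕ) (st : IJ) : List Key := (cand m n).map (bord st)

/-- one more row and one more column -/
def rankS (s : Key → ℤ) (m n : ℕ) (st : IJ) : IJ :=
  (((cand m n).filter fun p => decide (s (bord st p) ≠ 0)).head?.map fun p =>
    (st.1 ++ [p.1], st.2 ++ [p.2])).getD st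

/-- replace an element -/
def updL (I : List ℕ) (p i : ℕ) : List ℕ :=
  (List.range I.length).map fun q => if q = p then i else I.getD q 0

/-- the number of elements in between -/
def kapN (I : List ℕ) (p i : ℕ) : ℕ := ((List.range I.length).filter fun q =>
  decide (q ≠ p) && (decide (I.getD p 0 < I.getD q 0) && decide (I.getD q 0 < i) ||
    decide (i < I.getD q 0) && decide (I.getD q 0 < I.getD p 0))).length

/-- the product of the signs -/
def relS (s : Key → ℤ) (st : IJ) (p i : ℕ) : ℤ :=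
  s (keyM st.1 st.2) * s (keyM (updL st.1 p i) st.2)

/-- the relation -/
def wS (s : Key → ℤ) (st : IJ) (p i : ℕ) : Bool :=
  decide (relS s st p i = if kapN st.1 p i % 2 = 0 then 1 else -1)

/-- the relations between the signs -/
def edg (s : Key → ℤ) (m : ℕ) (st : IJ) : List Edg :=
  (List.range m).flatMap fun i =>
    ((List.range st.1.length).filter fun p => decide (relS s st p i ≠ 0)).flatMap fun p =>
      [(i, (st.1.getD p 0, wS s st p i)), (st.1.getD p 0, (i, wS s st p i))]

/-- the submatrices with one row replaced -/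
def sgnK (m : ℕ) (st : IJ) : List Key := keyM st.1 st.2 ::
  (List.range m).flatMap fun i => (List.range st.1.length).map fun p =>
    keyM (updL st.1 p i) st.2

variable {m n : ℕ}

theorem kget_keyM {I J : List ℕ} {a c : ℕ} (ha : a < I.length) (hc : c < J.length) :
    kget (keyM I J) a c = (false, [0, I.getD a 0, J.getD c 0]) := by
  unfold kget keyM
  have e1 : (I.map fun i => J.map fun j => ((false, [0, i, j]) : Src)).getD a [] =
      J.map fun j => (false, [0, I.getD a 0, j]) := by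
    rw [List.getD_eq_getElem _ _ (by simpa using ha), List.getElem_map,
      List.getD_eq_getElem _ _ ha]
  rw [e1, List.getD_eq_getElem _ _ (by simpa using hc), List.getElem_map,
    List.getD_eq_getElem _ _ hc]

theorem sO_keyM (A : Matrix (Fin m) (Fin n) ℝ) (b : Fin m → ℝ) {I J : List ℕ} {k : ℕ}
    (hI : I.length = k + 1) (hJ : J.length = k + 1) (fI : Fin (k + 1) → Fin m)
    (fJ : Fin (k + 1) → Fin n) (h1 : ∀ p : Fin (k + 1), (fI p : ℕ) = I.getD p 0)
    (h2 : ∀ p : Fin (k + 1), (fJ p : ℕ) = J.getD p 0) :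
    sO (start A b) (keyM I J) = sz ((-1) ^ k * (A.submatrix fI fJ).det) := by
  unfold sO
  rw [osg_sz, dv_eq (b := k) (by rw [keyM, List.length_map, hI]) (A.submatrix fI fJ) ?_]
  intro i j hi hj
  rw [kget_keyM (by omega) (by omega)]
  have e1 := h1 ⟨i, hi⟩
  have e2 := h2 ⟨j, hj⟩
  simp only at e1 e2
  rw [← e1, ← e2]
  unfold sv
  have : rd (false, [0, ((fI ⟨i, hi⟩ : Fin m) : ℕ), ((fJ ⟨j, hj⟩ : Fin n) : ℕ)]) =
      [0, ((fI ⟨i, hi⟩ : Fin m) : ℕ), ((fJ ⟨j, hj⟩ : Fin n) : ℕ)] := if_pos (by simp)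
  rw [this, start_ij A b (fI ⟨i, hi⟩).2 (fJ ⟨j, hj⟩).2]
  simp

theorem sO_keyM_ne (A : Matrix (Fin m) (Fin n) ℝ) (b : Fin m → ℝ) {I J : List ℕ} {k : ℕ}
    (hI : I.length = k + 1) (hJ : J.length = k + 1) (fI : Fin (k + 1) → Fin m)
    (fJ : Fin (k + 1) → Fin n) (h1 : ∀ p : Fin (k + 1), (fI p : ℕ) = I.getD p 0)
    (h2 : ∀ p : Fin (k + 1), (fJ p : ℕ) = J.getD p 0) :
    sO (start A b) (keyM I J) ≠ 0 ↔ (A.submatrix fI fJ).det ≠ 0 := by
  rw [sO_keyM A b hI hJ fI fJ h1 h2, Ne, sz_eq_zero, Ne, not_iff_not, mul_eq_zero]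
  constructor
  · rintro (h | h)
    · exact absurd h (pow_ne_zero _ (by norm_num))
    · exact h
  · exact Or.inr

/-- the state describes a nonsingular submatrix -/
structure RK (A : Matrix (Fin m) (Fin n) ℝ) (st : IJ) (k : ℕ) (fI : Fin k → Fin m)
    (fJ : Fin k → Fin n) : Prop where
  lI : st.1.length = k
  lJ : st.2.length = k
  eI : ∀ p : Fin k, (fI p : ℕ) = st.1.getD p 0
  eJ : ∀ p : Fin k, (fJ p : ℕ) = st.2.getD p 0
  det : (A.submatrix fI fJ).det ≠ 0

theorem snoc_val {k N : ℕ} {f : Fin k → Fin N} {L : List ℕ} (hL : L.length = k)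
    (h : ∀ p : Fin k, (f p : ℕ) = L.getD p 0) (i : Fin N) (p : Fin (k + 1)) :
    ((Fin.snoc (α := fun _ => Fin N) f i p : Fin N) : ℕ) = (L ++ [(i : ℕ)]).getD p 0 := by
  refine Fin.lastCases ?_ (fun p => ?_) p
  · rw [Fin.snoc_last, Fin.val_last, List.getD_append_right _ _ _ _ (by omega), hL, Nat.sub_self]
    rfl
  · rw [Fin.snoc_castSucc, h, Fin.val_castSucc, List.getD_append _ _ _ _ (by have := p.2; omega)]

theorem sO_bord {A : Matrix (Fin m) (Fin n) ℝ} (b : Fin m → ℝ) {st : IJ} {k : ℕ}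
    {fI : Fin k → Fin m} {fJ : Fin k → Fin n} (h : RK A st k fI fJ) (i : Fin m) (j : Fin n) :
    sO (start A b) (bord st (i, j)) ≠ 0 ↔ bdet A fI fJ i j ≠ 0 :=
  sO_keyM_ne A b (by rw [List.length_append, h.lI]; rfl) (by rw [List.length_append, h.lJ]; rfl)
    (Fin.snoc (α := fun _ => Fin m) fI i) (Fin.snoc (α := fun _ => Fin n) fJ j)
    (snoc_val h.lI h.eI i) (snoc_val h.lJ h.eJ j)

theorem mem_cand {p : ℕ × ℕ} : p ∈ cand m n ↔ p.1 < m ∧ p.2 < n := by
  simp only [cand, List.mem_flatMap, List.mem_map, List.mem_range]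
  constructor
  · rintro ⟨i, hi, j, hj, rfl⟩
    exact ⟨hi, hj⟩
  · rintro ⟨hi, hj⟩
    exact ⟨p.1, hi, p.2, hj, rfl⟩

theorem rk_step {A : Matrix (Fin m) (Fin n) ℝ} (b : Fin m → ℝ) {st : IJ} {k : ℕ}
    {fI : Fin k → Fin m} {fJ : Fin k → Fin n} (h : RK A st k fI fJ) :
    (rankS (sO (start A b)) m n st = st ∧ ∀ i j, bdet A fI fJ i j = 0) ∨
      ∃ i j, RK A (rankS (sO (start A b)) m n st) (k + 1)
        (Fin.snoc (α := fun _ => Fin m) fI i) (Fin.snoc (α := fun _ => Fin n) fJ j) := by
  unfold rankS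
  cases hh : ((cand m n).filter fun p => decide (sO (start A b) (bord st p) ≠ 0)).head? with
  | none =>
    left
    rw [List.head?_eq_none_iff, List.filter_eq_nil_iff] at hh
    refine ⟨rfl, fun i j => ?_⟩
    by_contra h1
    refine hh (i, j) (mem_cand.2 ⟨i.2, j.2⟩) ?_
    rw [decide_eq_true_eq]
    exact (sO_bord b h i j).2 h1
  | some p =>
    right
    have h1 := List.mem_of_mem_head? hh
    rw [List.mem_filter, mem_cand, decide_eq_true_eq] at h1
    obtain ⟨⟨hi, hj⟩, h2⟩ := h1
    refine ⟨⟨p.1, hi⟩, ⟨p.2, hj⟩, ?_⟩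
    rw [Option.map_some, Option.getD_some]
    exact ⟨by rw [List.length_append, h.lI]; rfl, by rw [List.length_append, h.lJ]; rfl,
      snoc_val h.lI h.eI ⟨p.1, hi⟩, snoc_val h.lJ h.eJ ⟨p.2, hj⟩,
      (sO_bord b h ⟨p.1, hi⟩ ⟨p.2, hj⟩).1 h2⟩

theorem rk_iter (A : Matrix (Fin m) (Fin n) ℝ) (b : Fin m → ℝ) (t : ℕ) :
    ∃ (k : ℕ) (fI : Fin k → Fin m) (fJ : Fin k → Fin n),
      RK A ((rankS (sO (start A b)) m n)^[t] ([], [])) k fI fJ ∧
        (k = t ∨ ∀ i j, bdet A fI fJ i j = 0) := by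
  induction t with
  | zero =>
    refine ⟨0, Fin.elim0, Fin.elim0, ⟨rfl, rfl, fun p => p.elim0, fun p => p.elim0, ?_⟩, Or.inl rfl⟩
    rw [Matrix.det_fin_zero]
    exact one_ne_zero
  | succ t ih =>
    obtain ⟨k, fI, fJ, h, hk⟩ := ih
    rw [Function.iterate_succ_apply']
    rcases rk_step b h with ⟨h1, h2⟩ | ⟨i, j, h1⟩
    · rw [h1]
      exact ⟨k, fI, fJ, h, Or.inr h2⟩
    · rcases hk with rfl | hk
      · exact ⟨_, _, _, h1, Or.inl rfl⟩
      · exact absurd (hk i j) h1.det

/-- **A nonsingular submatrix of maximal order.** -/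
theorem rk_final (A : Matrix (Fin m) (Fin n) ℝ) (b : Fin m → ℝ) :
    ∃ (k : ℕ) (fI : Fin k → Fin m) (fJ : Fin k → Fin n),
      RK A ((rankS (sO (start A b)) m n)^[m] ([], [])) k fI fJ ∧
        ∀ i j, bdet A fI fJ i j = 0 := by
  obtain ⟨k, fI, fJ, h, hk⟩ := rk_iter A b m
  refine ⟨k, fI, fJ, h, ?_⟩
  rcases hk with rfl | hk
  · intro i j
    have hinj : Function.Injective fI := by
      by_contra hc
      rw [Function.not_injective_iff] at hc
      obtain ⟨a, c, h1, h2⟩ := hc
      exact h.det (Matrix.det_zero_of_row_eq h2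
        (funext fun q => by simp only [Matrix.submatrix_apply, h1]))
    obtain ⟨p, rfl⟩ := Finite.surjective_of_injective hinj i
    refine Matrix.det_zero_of_row_eq (i := p.castSucc) (j := Fin.last k)
      (Fin.castSucc_lt_last p).ne (funext fun q => ?_)
    simp only [Matrix.submatrix_apply, Fin.snoc_castSucc, Fin.snoc_last]
  · exact hk

theorem len_rankS {s : Key → ℤ} {st : IJ} {t : ℕ} (h : st.1.length ≤ t ∧ st.2.length ≤ t) :
    (rankS s m n st).1.length ≤ t + 1 ∧ (rankS s m n st).2.length ≤ t + 1 := by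
  unfold rankS
  cases ((cand m n).filter fun p => decide (s (bord st p) ≠ 0)).head? with
  | none => exact ⟨h.1.trans (Nat.le_succ t), h.2.trans (Nat.le_succ t)⟩
  | some p =>
    rw [Option.map_some, Option.getD_some]
    simp only [List.length_append, List.length_singleton]
    omega

/-! ### The relations between the signs -/

theorem card_range_filter (k : ℕ) (P : ℕ → Bool) :
    ((List.range k).filter P).length = ((Finset.range k).filter fun q => P q = true).card := by
  induction k with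
  | zero => rfl
  | succ k ih =>
    rw [List.range_succ, List.filter_append, List.length_append, ih, Finset.range_add_one,
      Finset.filter_insert]
    by_cases h : P k = true
    · rw [if_pos h, Finset.card_insert_of_notMem (by simp)]
      simp [h]
    · rw [if_neg h]
      simp [h]

theorem kap_eq {I : List ℕ} {k : ℕ} (hI : I.length = k) {fI : Fin k → Fin m}
    (eI : ∀ p : Fin k, (fI p : ℕ) = I.getD p 0) (hinj : Function.Injective fI) (p : Fin k)
    (i : Fin m) : kapN I p i = nb (Zs fI p) (fI p) i := by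
  unfold kapN nb Zs
  rw [Finset.sum_image fun a _ c _ h => hinj h, hI, card_range_filter, Finset.card_filter,
    ← Fin.sum_univ_eq_sum_range (fun q => if (decide (q ≠ (p : ℕ)) &&
      (decide (I.getD p 0 < I.getD q 0) && decide (I.getD q 0 < (i : ℕ)) ||
        decide ((i : ℕ) < I.getD q 0) && decide (I.getD q 0 < I.getD p 0))) = true then 1 else 0) k,
    ← Finset.add_sum_erase _ _ (Finset.mem_univ p)]
  have h0 : (if (decide ((p : ℕ) ≠ (p : ℕ)) &&
      (decide (I.getD p 0 < I.getD p 0) && decide (I.getD p 0 < (i : ℕ)) ||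
        decide ((i : ℕ) < I.getD p 0) && decide (I.getD p 0 < I.getD p 0))) = true then 1 else 0) =
      0 := by
    rw [if_neg]
    simp
  rw [h0, Nat.zero_add]
  refine Finset.sum_congr rfl fun q hq => ?_
  have hqp : (q : ℕ) ≠ p := fun h => (Finset.mem_erase.1 hq).1 (Fin.ext h)
  unfold CH.btw
  simp only [Fin.lt_def, eI, decide_eq_true hqp, Bool.true_and, Bool.or_eq_true, Bool.and_eq_true,
    decide_eq_true_eq]

theorem upd_val {k N : ℕ} {f : Fin k → Fin N} {L : List ℕ} (hL : L.length = k)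
    (h : ∀ p : Fin k, (f p : ℕ) = L.getD p 0) (p : Fin k) (i : Fin N) (q : Fin k) :
    ((Function.update f p i q : Fin N) : ℕ) = (updL L p i).getD q 0 := by
  unfold updL
  rw [hL, List.getD_eq_getElem _ _ (by simp [q.2]), List.getElem_map, List.getElem_range]
  by_cases hq : q = p
  · rw [hq, Function.update_self, if_pos rfl]
  · rw [Function.update_of_ne hq, if_neg fun h' => hq (Fin.ext h'), h]

/-- the signs of the factors -/
noncomputable def sB (δ : Fin m → ℝ) (i : ℕ) : Bool :=
  if h : i < m then decide (0 < δ ⟨i, h⟩) else false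

theorem sB_fin (δ : Fin m → ℝ) (i : Fin m) : sB δ i = decide (0 < δ i) := by
  unfold sB
  rw [dif_pos i.2]

section

variable {A : Matrix (Fin m) (Fin n) ℝ} (b : Fin m → ℝ) {st : IJ} {k : ℕ} {fI : Fin k → Fin m}
  {fJ : Fin k → Fin n} (h : RK A st k fI fJ) {T : Matrix (Fin m) (Fin k) ℝ}
  {P : Matrix (Fin k) (Fin n) ℝ} {δ : Fin m → ℝ} (hT : NN T) (hδ : ∀ i, δ i ≠ 0)
  (hA : A = Matrix.diagonal δ * (T * P))

include hA in
theorem minor_eq (f : Fin k → Fin m) (g : Fin k → Fin n) : (A.submatrix f g).det =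
    (∏ q, δ (f q)) * ((T.submatrix f id).det * (P.submatrix id g).det) := by
  have e : A.submatrix f g = Matrix.diagonal (fun q => δ (f q)) *
      (T.submatrix f id * P.submatrix id g) := by
    rw [hA]
    ext i j
    rw [Matrix.submatrix_apply, Matrix.diagonal_mul, Matrix.diagonal_mul, Matrix.mul_apply,
      Matrix.mul_apply]
    rfl
  rw [e, Matrix.det_mul, Matrix.det_mul, Matrix.det_diagonal]

theorem even_pow_eq (N : ℕ) : ((if N % 2 = 0 then 1 else -1 : ℤ) : ℝ) = (-1) ^ N := by
  rcases Nat.even_or_odd N with h | h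
  · rw [if_pos (Nat.even_iff.1 h), h.neg_one_pow]
    simp
  · rw [if_neg (by have := Nat.odd_iff.1 h; omega), h.neg_one_pow]
    simp

include h hT hδ hA in
/-- The relation. -/
theorem rel_ok (p : Fin k) (i : Fin m) (hne : relS (sO (start A b)) st p i ≠ 0) :
    (A.submatrix (Function.update fI p i) fJ).det ≠ 0 ∧
      wS (sO (start A b)) st p i = decide (sB δ i = sB δ (fI p)) := by
  obtain ⟨k', rfl⟩ : ∃ k', k = k' + 1 := ⟨k - 1, by have := p.2; omega⟩
  have hlen : (updL st.1 p i).length = k' + 1 := by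
    unfold updL
    rw [List.length_map, List.length_range, h.lI]
  have s0 := sO_keyM A b h.lI h.lJ fI fJ h.eI h.eJ
  have s1 := sO_keyM A b hlen h.lJ (Function.update fI p i) fJ (upd_val h.lI h.eI p i) h.eJ
  have hrel : relS (sO (start A b)) st p i = sz ((A.submatrix fI fJ).det *
      (A.submatrix (Function.update fI p i) fJ).det) := by
    unfold relS
    rw [s0, s1, ← sz_mul]
    congr 1
    have : ((-1 : ℝ) ^ k') * (-1) ^ k' = 1 := by
      rw [← pow_add, Even.neg_one_pow ⟨_, rfl⟩]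
    calc _ = ((-1 : ℝ) ^ k' * (-1) ^ k') * ((A.submatrix fI fJ).det *
      (A.submatrix (Function.update fI p i) fJ).det) := by ring
      _ = _ := by rw [this, one_mul]
  rw [hrel, Ne, sz_eq_zero] at hne
  have hd := mul_ne_zero_iff.1 hne
  refine ⟨hd.2, ?_⟩
  have e0 := minor_eq hA fI fJ
  have e1 := minor_eq hA (Function.update fI p i) fJ
  have n0 : (T.submatrix fI id).det ≠ 0 := fun h0 => hd.1 (by rw [e0, h0]; ring)
  have n1 : (T.submatrix (Function.update fI p i) id).det ≠ 0 :=
    fun h0 => hd.2 (by rw [e1, h0]; ring)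
  have nP : (P.submatrix id fJ).det ≠ 0 := fun h0 => hd.1 (by rw [e0, h0]; ring)
  have hs := sign_rel hT n0 n1
  have hk := kap_eq h.lI h.eI (inj_of_det n0) p i
  set X := ∏ q ∈ Finset.univ.erase p, δ (fI q) with hX
  have hX0 : X ≠ 0 := Finset.prod_ne_zero_iff.2 fun q _ => hδ _
  have p0 : ∏ q, δ (fI q) = δ (fI p) * X := (Finset.mul_prod_erase _ _ (Finset.mem_univ p)).symm
  have p1 : ∏ q, δ (Function.update fI p i q) = δ i * X := by
    rw [← Finset.mul_prod_erase _ _ (Finset.mem_univ p), Function.update_self]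
    congr 1
    refine Finset.prod_congr rfl fun q hq => ?_
    rw [Function.update_of_ne (Finset.mem_erase.1 hq).1]
  rw [e0, e1, p0, p1] at hrel
  set N := nb (Zs fI p) (fI p) i with hN
  set t0 := (T.submatrix fI id).det
  set t1 := (T.submatrix (Function.update fI p i) id).det
  set d := (P.submatrix id fJ).det
  have hpos : 0 < ((-1 : ℝ) ^ N * (δ i * δ (fI p))) *
      ((δ (fI p) * X * (t0 * d)) * (δ i * X * (t1 * d))) := by
    have q1 : 0 < (δ i * δ (fI p)) * (δ i * δ (fI p)) :=
      mul_self_pos.2 (mul_ne_zero (hδ _) (hδ _))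
    have q2 : 0 < (X * d) * (X * d) := mul_self_pos.2 (mul_ne_zero hX0 nP)
    have := mul_pos (mul_pos q1 q2) hs
    calc 0 < _ := this
      _ = _ := by ring
  have hunit : ((if kapN st.1 p i % 2 = 0 then 1 else -1 : ℤ) : ℝ) = (-1) ^ N := by
    rw [even_pow_eq, hk]
  unfold wS
  rw [hrel, sB_fin, sB_fin]
  rw [decide_eq_decide]
  have hprod : (0 < δ i * δ (fI p)) ↔ (decide (0 < δ i) = decide (0 < δ (fI p))) := by
    rw [decide_eq_decide]
    rcases lt_or_gt_of_ne (hδ i) with a1 | a1 <;>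
      rcases lt_or_gt_of_ne (hδ (fI p)) with a2 | a2
    · exact ⟨fun _ => ⟨fun h => absurd h a1.not_gt, fun h => absurd h a2.not_gt⟩,
        fun _ => mul_pos_of_neg_of_neg a1 a2⟩
    · exact ⟨fun h => absurd h (mul_neg_of_neg_of_pos a1 a2).not_gt, fun h => absurd (h.2 a2)
        a1.not_gt⟩
    · exact ⟨fun h => absurd h (mul_neg_of_pos_of_neg a1 a2).not_gt, fun h => absurd (h.1 a1)
        a2.not_gt⟩
    · exact ⟨fun _ => ⟨fun _ => a2, fun _ => a1⟩, fun _ => mul_pos a1 a2⟩
  rw [← hprod]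
  set Y := (δ (fI p) * X * (t0 * d)) * (δ i * X * (t1 * d)) with hY
  set u : ℤ := (if kapN st.1 p i % 2 = 0 then 1 else -1) with hu
  have hu1 : u = 1 ∨ u = -1 := by
    rw [hu]
    split_ifs
    · exact Or.inl rfl
    · exact Or.inr rfl
  rw [← hunit] at hpos
  have hY0 : Y ≠ 0 := by
    intro h0
    rw [h0, mul_zero] at hpos
    exact lt_irrefl _ hpos
  rcases hu1 with hu1 | hu1
  · rw [hu1] at hpos ⊢
    rw [Int.cast_one, one_mul] at hpos
    constructor
    · intro h1
      have hYp : 0 < Y := by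
        rcases lt_or_gt_of_ne hY0 with h2 | h2
        · rw [sz_neg h2] at h1
          exact absurd h1 (by decide)
        · exact h2
      exact pos_of_mul_pos_left hpos hYp.le
    · intro h1
      exact sz_pos (pos_of_mul_pos_right hpos h1.le)
  · rw [hu1] at hpos ⊢
    have hpos' : 0 < (δ i * δ (fI p)) * (-Y) := by
      push_cast at hpos
      linarith
    constructor
    · intro h1
      have hYn : Y < 0 := by
        rcases lt_or_gt_of_ne hY0 with h2 | h2
        · exact h2
        · rw [sz_pos h2] at h1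
          exact absurd h1 (by decide)
      exact pos_of_mul_pos_left hpos' (neg_nonneg.2 hYn.le)
    · intro h1
      have := pos_of_mul_pos_right hpos' h1.le
      exact sz_neg (neg_pos.1 this)

end

end Pool.Agent.H37.TN
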