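import Pool.Agent.H37.TN.Cls

/-! The algorithm. -/

set_option autoImplicit false

namespace Pool.Agent.H37.TN

open Pool.Agent.NPC Pool.Agent.H558R2 Pool.Agent.H622R3.SM Pool.Agent.W920.FC
open Pool.Agent.H37.CH
open Pool.Agent.Y648.CS.TDET (qD)

/-- a step of the first phase -/
def rankT (m n : ℕ) (st : IJ) : TT IJ :=
  bnd (askT (rankK m n st)) fun o => ret (rankS (orc (rankK m n st) o) m n st)

/-- the signs -/
def sgnT (m : ℕ) (st : IJ) : TT (List Outcome) :=
  bnd (askT (sgnK m st)) fun o => ret (sgnF m (edg (orc (sgnK m st) o) m st))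

/-- a right-hand side -/
def keyZ (i : ℕ) : Key := [[(false, [1, i])]]

/-- the right-hand sides -/
def zeroK (m : ℕ) : List Key := (List.range m).map keyZ

/-- all right-hand sides are at most zero -/
def zeroF (s : Key → ℤ) (m : ℕ) : Bool :=
  (List.range m).all fun i => decide (s (keyZ i) ≤ 0)

/-- the case of the matrix zero -/
def zeroT (m : ℕ) : TT Bool :=
  bnd (askT (zeroK m)) fun o => ret (zeroF (orc (zeroK m) o) m)

/-- the degree -/
def Dm (m : ℕ) : ℕ := (m + 2) * (6 * m * m + 1)

/-- the second phase -/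
def mainT (m : ℕ) (st : IJ) : TT Bool :=
  if st.2.length = 0 then zeroT m else
    bnd (sgnT m st) fun S => tr (Dm m) (bcf m st.2 S) (CH.TA (3 * m) st.2.length)

/-- the computation -/
def TW (m n : ℕ) : TT Bool := bnd (iter (rankT m n) m ([], [])) (mainT m)

/-- the algorithm -/
def alg : Alg := algOf TW

/-! ### Congruence -/

theorem rankS_congr {s s' : Key → ℤ} {m n : ℕ} {st : IJ}
    (h : ∀ K ∈ rankK m n st, s K = s' K) : rankS s m n st = rankS s' m n st := by
  unfold rankS
  congr 3
  refine List.filter_congr fun p hp => ?_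
  rw [h _ (List.mem_map.2 ⟨p, hp, rfl⟩)]

theorem edg_congr {s s' : Key → ℤ} {m : ℕ} {st : IJ}
    (h : ∀ K ∈ sgnK m st, s K = s' K) : edg s m st = edg s' m st := by
  have h1 : ∀ i < m, ∀ p < st.1.length, relS s st p i = relS s' st p i := by
    intro i hi p hp
    unfold relS
    rw [h _ (by unfold sgnK; exact List.mem_cons_self), h (keyM (updL st.1 p i) st.2) ?_]
    unfold sgnK
    refine List.mem_cons_of_mem _ (List.mem_flatMap.2 ⟨i, List.mem_range.2 hi,
      List.mem_map.2 ⟨p, List.mem_range.2 hp, rfl⟩⟩)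
  unfold edg
  refine List.flatMap_congr fun i hi => ?_
  rw [List.mem_range] at hi
  have h2 : ((List.range st.1.length).filter fun p => decide (relS s st p i ≠ 0)) =
      (List.range st.1.length).filter fun p => decide (relS s' st p i ≠ 0) := by
    refine List.filter_congr fun p hp => ?_
    rw [List.mem_range] at hp
    rw [h1 i hi p hp]
  rw [h2]
  refine List.flatMap_congr fun p hp => ?_
  have hp' := List.mem_range.1 (List.mem_filter.1 hp).1
  unfold wS
  rw [h1 i hi p hp']

theorem zeroF_congr {s s' : Key → ℤ} {m : ℕ} (h : ∀ K ∈ zeroK m, s K = s' K) :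
    zeroF s m = zeroF s' m := by
  unfold zeroF
  have : ∀ i ∈ List.range m, decide (s (keyZ i) ≤ 0) = decide (s' (keyZ i) ≤ 0) := by
    intro i hi
    rw [h _ (List.mem_map.2 ⟨i, hi, rfl⟩)]
  rw [Bool.eq_iff_iff, List.all_eq_true, List.all_eq_true]
  exact ⟨fun H i hi => (this i hi) ▸ H i hi, fun H i hi => (this i hi).symm ▸ H i hi⟩

/-! ### The run -/

section

variable {m n : ℕ} {g : Reg → ℝ} (hg : Base g)

include hg

theorem runs_rank {st : IJ} (hst : st.1.length ≤ m) :
    Runs g (Gd qD (m + n) g) (rankT m n st) (rankS (sO g) m n st)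
      (m * n * (qD.eval (m + n) + 1)) := by
  refine runs_comp hg _ (fun K hK => ?_) ?_ (fun s => rankS s m n st)
    (fun s hs => rankS_congr hs)
  · obtain ⟨p, -, rfl⟩ := List.mem_map.1 hK
    unfold bord keyM
    rw [List.length_map, List.length_append, List.length_singleton]
    omega
  · unfold rankK cand
    rw [List.length_map, List.length_flatMap]
    simp

omit hg in
theorem iter_rank_len (s : Key → ℤ) (t : ℕ) :
    ((rankS s m n)^[t] ([], [])).1.length ≤ t ∧ ((rankS s m n)^[t] ([], [])).2.length ≤ t := by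
  induction t with
  | zero => exact ⟨le_rfl, le_rfl⟩
  | succ t ih =>
    rw [Function.iterate_succ_apply']
    exact len_rankS ih

theorem runs_rank_iter (t : ℕ) (ht : t ≤ m) :
    Runs g (Gd qD (m + n) g) (iter (rankT m n) t ([], []))
      ((rankS (sO g) m n)^[t] ([], [])) (t * (m * n * (qD.eval (m + n) + 1))) := by
  refine t_TT.2.2.1 _ _ _ _ (fun i => (rankS (sO g) m n)^[i] ([], [])) t _
    fun i hi => ?_
  show Runs _ _ _ ((rankS (sO g) m n)^[i + 1] ([], [])) _
  rw [Function.iterate_succ_apply']
  refine runs_rank hg ((iter_rank_len _ i).1.trans ?_)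
  omega

theorem runs_sgn {st : IJ} (hst : st.1.length ≤ m) :
    Runs g (Gd qD (m + n) g) (sgnT m st) (sgnF m (edg (sO g) m st))
      ((1 + m * m) * (qD.eval (m + n) + 1)) := by
  refine runs_comp hg _ (fun K hK => ?_) ?_ (fun s => sgnF m (edg s m st))
    (fun s hs => by rw [edg_congr hs])
  · unfold sgnK at hK
    rcases List.mem_cons.1 hK with rfl | hK
    · unfold keyM
      rw [List.length_map]
      omega
    · obtain ⟨i, -, hK⟩ := List.mem_flatMap.1 hK
      obtain ⟨p, -, rfl⟩ := List.mem_map.1 hK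
      unfold keyM updL
      rw [List.length_map, List.length_map, List.length_range]
      omega
  · unfold sgnK
    rw [List.length_cons, List.length_flatMap]
    simp only [List.length_map, List.length_range, List.map_const', List.sum_replicate,
      smul_eq_mul]
    have := Nat.mul_le_mul_left m hst
    omega

theorem runs_zero : Runs g (Gd qD (m + n) g) (zeroT m) (zeroF (sO g) m)
    (m * (qD.eval (m + n) + 1)) := by
  refine runs_comp hg _ (fun K hK => ?_) ?_ (fun s => zeroF s m) (fun s hs => zeroF_congr hs)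
  · obtain ⟨i, -, rfl⟩ := List.mem_map.1 hK
    simp [keyZ]
  · simp [zeroK]

end

theorem gd_mono {p p' : Polynomial ℕ} {S S' : ℕ} {g : Reg → ℝ}
    (h : ∀ lam, p.eval (S + lam) ≤ p'.eval (S' + lam)) : ∀ v, Gd p S g v → Gd p' S' g v :=
  fun _ hv lam hlam => qb_mono (hv lam hlam) (h lam)

end Pool.Agent.H37.TN
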