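import Pool.Agent.H37.TN.Query
import Pool.Agent.H37.CH.Ctrl

/-! The computation for infinitesimally perturbed data. -/

set_option autoImplicit false

namespace Pool.Agent.H37.TN

open Pool.Agent.NPC Pool.Agent.H558R2 Pool.Agent.H622R3.SM Pool.Agent.W920.FC Pool.Agent.H37.CH
open Pool.Agent.Y648.CS.TDET (qD)
open Filter Topology

/-- the first outcome different from zero -/
def fstO (l : List Outcome) : Outcome := (l.filter fun o => decide (o ≠ none)).headD none

/-- the blocks of outcomes -/
def dec (D : ℕ) (h : List Outcome) : List Outcome :=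
  (List.range (h.length / (D + 1))).map fun a =>
    fstO ((List.range (D + 1)).map fun j => h.getD (a * (D + 1) + j) none)

/-- the transformed computation -/
def tr {β : Type} (D : ℕ) (bc : Reg → ℕ → Src) (T : TT β) : TT β := fun h =>
  match T (dec D h) with
  | Sum.inl p => Sum.inl (p.1, h.drop (((dec D h).length - p.2.length) * (D + 1)))
  | Sum.inr q => Sum.inr (lqd D bc q (h.length % (D + 1)))

theorem tr_inl {β : Type} {D : ℕ} {bc : Reg → ℕ → Src} {T : TT β} {h : List Outcome}
    {p : β × List Outcome} (H : T (dec D h) = Sum.inl p) :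
    tr D bc T h = Sum.inl (p.1, h.drop (((dec D h).length - p.2.length) * (D + 1))) := by
  unfold tr
  rw [H]

theorem tr_inr {β : Type} {D : ℕ} {bc : Reg → ℕ → Src} {T : TT β} {h : List Outcome}
    {q : Qry} (H : T (dec D h) = Sum.inr q) :
    tr D bc T h = Sum.inr (lqd D bc q (h.length % (D + 1))) := by
  unfold tr
  rw [H]

theorem len_dec (D : ℕ) (h : List Outcome) : (dec D h).length = h.length / (D + 1) := by
  unfold dec
  rw [List.length_map, List.length_range]

theorem dec_append {D : ℕ} {s raw : List Outcome} (h : List Outcome)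
    (h1 : raw.length = s.length * (D + 1)) (h2 : dec D raw = s) :
    dec D (raw ++ h) = s ++ dec D h := by
  have hD : 0 < D + 1 := Nat.succ_pos D
  have e1 : (raw ++ h).length / (D + 1) = s.length + h.length / (D + 1) := by
    rw [List.length_append, h1, mul_comm, Nat.mul_add_div hD]
  have e2 : raw.length / (D + 1) = s.length := by
    rw [h1, Nat.mul_div_cancel _ hD]
  have h3 : s = (List.range s.length).map fun a =>
      fstO ((List.range (D + 1)).map fun j => raw.getD (a * (D + 1) + j) none) := by
    conv_lhs => rw [← h2]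
    unfold dec
    rw [e2]
  have h4 : dec D (raw ++ h) = ((List.range s.length).map fun a =>
      fstO ((List.range (D + 1)).map fun j => (raw ++ h).getD (a * (D + 1) + j) none)) ++
      (List.range (h.length / (D + 1))).map fun a =>
        fstO ((List.range (D + 1)).map fun j => (raw ++ h).getD ((s.length + a) * (D + 1) + j)
          none) := by
    unfold dec
    rw [e1, (List.range_add : List.range (s.length + h.length / (D + 1)) = _), List.map_append,
      List.map_map]
    rfl
  rw [h4]
  congr 1
  · conv_rhs => rw [h3]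
    refine List.map_congr_left fun a ha => ?_
    rw [List.mem_range] at ha
    congr 1
    refine List.map_congr_left fun j hj => ?_
    rw [List.mem_range] at hj
    have : a * (D + 1) + j < raw.length := by
      rw [h1]
      calc a * (D + 1) + j < a * (D + 1) + (D + 1) := by omega
        _ = (a + 1) * (D + 1) := by ring
        _ ≤ s.length * (D + 1) := Nat.mul_le_mul_right _ ha
    rw [List.getD_append _ _ _ _ this]
  · unfold dec
    refine List.map_congr_left fun a ha => ?_
    congr 1
    refine List.map_congr_left fun j hj => ?_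
    have e3 : (s.length + a) * (D + 1) + j = raw.length + (a * (D + 1) + j) := by
      rw [h1]
      ring
    rw [e3, List.getD_append_right _ _ _ _ (Nat.le_add_right _ _), Nat.add_sub_cancel_left]

theorem dec_short {D : ℕ} {h : List Outcome} (hh : h.length < D + 1) : dec D h = [] := by
  unfold dec
  rw [Nat.div_eq_of_lt hh]
  rfl

/-! ### Signs for small arguments -/

theorem fstO_all {l : List Outcome} (h : ∀ o ∈ l, o = none) : fstO l = none := by
  unfold fstO
  have : (l.filter fun o => decide (o ≠ none)) = [] := by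
    rw [List.filter_eq_nil_iff]
    intro o ho
    simp [h o ho]
  rw [this]
  rfl

theorem fstO_range (f : ℕ → Outcome) {n k : ℕ} (hk : k < n) (h : ∀ i < k, f i = none)
    (hne : f k ≠ none) : fstO ((List.range n).map f) = f k := by
  obtain ⟨t, rfl⟩ : ∃ t, n = k + (t + 1) := ⟨n - k - 1, by omega⟩
  unfold fstO
  rw [List.range_add, List.map_append, List.filter_append]
  have : ((List.range k).map f).filter (fun o => decide (o ≠ none)) = [] := by
    rw [List.filter_eq_nil_iff]
    intro o ho
    obtain ⟨i, hi, rfl⟩ := List.mem_map.1 ho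
    simp [h i (List.mem_range.1 hi)]
  rw [this, List.nil_append, List.range_succ_eq_map, List.map_cons, List.map_cons,
    List.filter_cons, if_pos (by simpa using hne)]
  rfl

theorem signOut_zero : signOut 0 = none := by
  unfold signOut
  simp

theorem signOut_pos {v : ℝ} (h : 0 < v) : signOut v = some true := by
  unfold signOut
  simp [h]

theorem signOut_neg {v : ℝ} (h : v < 0) : signOut v = some false := by
  unfold signOut
  rw [if_neg (not_lt.2 h.le), if_pos h]

theorem signOut_ne {v : ℝ} (h : v ≠ 0) : signOut v ≠ none := by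
  rcases lt_or_gt_of_ne h with h | h
  · rw [signOut_neg h]; simp
  · rw [signOut_pos h]; simp

/-- The sign of a polynomial for small positive arguments. -/
theorem sign_small (W : Polynomial ℝ) {D : ℕ} (hW : W.natDegree ≤ D) :
    ∀ᶠ δ : ℝ in 𝓝[>] 0, signOut (W.eval δ) =
      fstO ((List.range (D + 1)).map fun j => signOut (W.coeff j)) := by
  by_cases h0 : W = 0
  · refine Eventually.of_forall fun δ => ?_
    rw [h0, Polynomial.eval_zero, signOut_zero, fstO_all]
    intro o ho
    obtain ⟨i, -, rfl⟩ := List.mem_map.1 ho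
    rw [Polynomial.coeff_zero, signOut_zero]
  · set k := W.natTrailingDegree with hk
    have hkD : k ≤ D := (Polynomial.natTrailingDegree_le_natDegree W).trans hW
    have hne : W.coeff k ≠ 0 := Polynomial.trailingCoeff_nonzero_iff_nonzero.2 h0
    have hlow : ∀ i < k, W.coeff i = 0 := fun i hi =>
      Polynomial.coeff_eq_zero_of_lt_natTrailingDegree hi
    rw [fstO_range (fun j => signOut (W.coeff j)) (by omega : k < D + 1)
      (fun i hi => by simp only [hlow i hi, signOut_zero]) (signOut_ne hne)]
    obtain ⟨V, hV⟩ : Polynomial.X ^ k ∣ W := (Polynomial.X_pow_dvd_iff).2 hlow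
    have hV0 : V.eval 0 = W.coeff k := by
      rw [hV, Polynomial.coeff_X_pow_mul', if_pos le_rfl, Nat.sub_self,
        Polynomial.coeff_zero_eq_eval_zero]
    have hcont : Tendsto (fun δ : ℝ => V.eval δ) (𝓝[>] 0) (𝓝 (W.coeff k)) := by
      rw [← hV0]
      exact (V.continuous.tendsto 0).mono_left nhdsWithin_le_nhds
    have hpos : ∀ᶠ δ : ℝ in 𝓝[>] 0, 0 < δ := eventually_mem_nhdsWithin
    have hev : ∀ δ : ℝ, W.eval δ = δ ^ k * V.eval δ := by
      intro δ
      conv_lhs => rw [hV]
      rw [Polynomial.eval_mul, Polynomial.eval_pow, Polynomial.eval_X]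
    rcases lt_or_gt_of_ne hne with h | h
    · filter_upwards [hpos, hcont.eventually (gt_mem_nhds h)] with δ h1 h2
      rw [hev, signOut_neg h, signOut_neg (mul_neg_of_pos_of_neg (pow_pos h1 k) h2)]
    · filter_upwards [hpos, hcont.eventually (lt_mem_nhds h)] with δ h1 h2
      rw [hev, signOut_pos h, signOut_pos (mul_pos (pow_pos h1 k) h2)]

/-! ### Uniqueness -/

theorem ord_unique {P : List Instr} {V V' : Reg → ℝ} : ∀ {S : Set Reg}, Ord S P →
    (∀ r ∈ S, V r = V' r) → (∀ I ∈ P, V I.dst = I.op.eval (V I.fst) (V I.snd)) →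
    (∀ I ∈ P, V' I.dst = I.op.eval (V' I.fst) (V' I.snd)) → ∀ r ∈ S ∪ wr P, V r = V' r := by
  induction P with
  | nil =>
    rintro S - h1 - - r (hr | ⟨I, hI, -⟩)
    · exact h1 r hr
    · exact absurd hI (by simp)
  | cons J P ih =>
    intro S hP h1 h2 h3 r hr
    obtain ⟨hf, hs, -, hP⟩ := hP
    have hJ : V J.dst = V' J.dst := by
      rw [h2 J (by simp), h3 J (by simp), h1 _ hf, h1 _ hs]
    refine ih hP (fun r hr => ?_) (fun I hI => h2 I (by simp [hI])) (fun I hI => h3 I (by simp [hI]))
      r ?_
    · rcases hr with rfl | hr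
      · exact hJ
      · exact h1 r hr
    · rcases hr with hr | ⟨I, hI, rfl⟩
      · exact Or.inl (Or.inr hr)
      · rcases List.mem_cons.1 hI with rfl | hI
        · exact Or.inl (Or.inl rfl)
        · exact Or.inr ⟨I, hI, rfl⟩

theorem hasVal_unique {g : Reg → ℝ} {G G' : ℝ → Prop} {q : Qry} {v v' : ℝ}
    (h : HasVal g G q v) (h' : HasVal g G' q v') : v = v' := by
  obtain ⟨h1, V, h2, h3, h4, rfl⟩ := h
  obtain ⟨-, V', h2', h3', -, rfl⟩ := h'
  refine ord_unique h1 (fun r hr => (h2 r hr).trans (h2' r hr).symm) (fun I hI => (h3 I hI).1)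
    (fun I hI => (h3' I hI).1) _ ?_
  rcases h4 with h4 | ⟨I, hI, h4⟩
  · exact Or.inl h4
  · exact Or.inr ⟨I, hI, h4⟩

theorem runs_inv {β : Type} {g : Reg → ℝ} {G : ℝ → Prop} {T : TT β} {b : β} {c : ℕ}
    (h : Runs g G T b c) : (∀ h, T h = Sum.inl (b, h)) ∨ ∃ q v c', T [] = Sum.inr q ∧
      HasVal g G q v ∧ Runs g G (fun h => T (signOut v :: h)) b c' ∧ c = c' + q.1.length + 1 := by
  cases h with
  | done T b c h => exact Or.inl h
  | step T b c q v h1 h2 h3 => exact Or.inr ⟨q, v, c, h1, h2, h3, rfl⟩

/-! ### All queries are determinants -/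

/-- all queries are determinants of order at most `N + 2` -/
def AllQ {β : Type} (N : ℕ) (T : TT β) : Prop :=
  ∀ h q, T h = Sum.inr q → ∃ K : Key, K.length ≤ N + 2 ∧ q = detK K

theorem allQ_ret {β : Type} (N : ℕ) (b : β) : AllQ N (ret b) := by
  intro h q H
  exact absurd H (by simp [ret])

theorem allQ_bnd {β γ : Type} {N : ℕ} {T : TT β} {f : β → TT γ} (hT : AllQ N T)
    (hf : ∀ b, Out T b → AllQ N (f b)) : AllQ N (bnd T f) := by
  intro h q H
  unfold bnd at H
  cases hh : T h with
  | inl p =>
    rw [hh] at H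
    exact hf p.1 ⟨h, p.2, hh⟩ _ _ H
  | inr q' =>
    rw [hh] at H
    have H' : (Sum.inr q' : (β × List Outcome) ⊕ Qry) = Sum.inr q :=
      congrArg Sum.inr (Sum.inr.inj H)
    exact hT h q (hh.trans H')

theorem allQ_ask {N : ℕ} {Ks : List Key} (h : ∀ K ∈ Ks, K.length ≤ N + 2) :
    AllQ N (askT Ks) := by
  intro o q H
  unfold askT batch at H
  split_ifs at H with h1
  rw [List.length_map] at h1
  have h2 := (Sum.inr.inj H).symm
  rw [List.getD_eq_getElem _ _ (by simpa using h1), List.getElem_map] at h2
  exact ⟨_, h _ (List.getElem_mem h1), h2⟩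

theorem allQ_comp {β : Type} {N : ℕ} {Ks : List Key} (h : ∀ K ∈ Ks, K.length ≤ N + 2)
    (F : List Outcome → β) : AllQ N (bnd (askT Ks) fun o => ret (F o)) :=
  allQ_bnd (allQ_ask h) fun _ _ => allQ_ret _ _

theorem allQ_iter {σ : Type} {N : ℕ} {f : σ → TT σ} {s₀ : σ} (n : ℕ)
    (h : ∀ i s, Out (iter f i s₀) s → AllQ N (f s)) : AllQ N (iter f n s₀) := by
  induction n with
  | zero => exact allQ_ret _ _
  | succ n ih => exact allQ_bnd ih fun b hb => h n b hb

theorem out_comp {β : Type} {Ks : List Key} {F : List Outcome → β} {b : β}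
    (h : Out (bnd (askT Ks) fun o => ret (F o)) b) : ∃ o, b = F o := by
  obtain ⟨o, -, h2⟩ := t_OUT.1.2.1 _ _ _ _ _ h
  exact ⟨o, t_OUT.1.1 _ _ _ h2⟩

theorem out_iter_len {n : ℕ} {Vi : List Row} {R : List ℕ} {c : Row} (hV : Vi.length = n)
    (i : ℕ) : ∀ st, Out (iter (stepT n Vi R c) i (false, 0, Vi)) st → st.2.2.length = n := by
  induction i with
  | zero =>
    intro st h
    have h1 : st = (false, 0, Vi) := t_OUT.1.1 _ _ _ h
    rw [h1]
    exact hV
  | succ i ih =>
    intro st h
    obtain ⟨st', h1, h2⟩ := t_OUT.1.2.2.1 _ _ _ _ _ h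
    obtain ⟨s, rfl⟩ := out_step h2
    exact stepS_len (ih st' h1)

theorem allQ_TA (m n : ℕ) : AllQ n (CH.TA m n) := by
  unfold CH.TA
  refine allQ_bnd (allQ_comp (fun K hK => ?_) _) fun x hx => ?_
  · have := k1_short K hK
    omega
  obtain ⟨o, rfl⟩ := out_comp (F := fun o => (rl (orc (k1 n m) o) n m,
    v0 (orc (k1 n m) o) n m)) hx
  refine allQ_bnd (allQ_comp (fun K hK => ?_) _) fun y hy => ?_
  · have := k2_short (len_v0 _) K hK
    omega
  obtain ⟨o', rfl⟩ := out_comp (F := fun o' => (vi (orc (k2 n (v0 (orc (k1 n m) o) n m)) o') n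
    (v0 (orc (k1 n m) o) n m) (0, 1), vi (orc (k2 n (v0 (orc (k1 n m) o) n m)) o') n
    (v0 (orc (k1 n m) o) n m) (0, 2))) hy
  have hs : ∀ (Vi : List Row) (R : List ℕ) (c : Row), Vi.length = n → ∀ i s,
      Out (iter (stepT n Vi R c) i (false, 0, Vi)) s → AllQ n (stepT n Vi R c s) := by
    intro Vi R c hV i s hs
    refine allQ_comp (fun K hK => ?_) _
    have := stepK_short (out_iter_len hV i s hs).le K hK
    omega
  refine allQ_bnd (allQ_iter _ (hs _ _ _ (len_vi _ _ _ _))) fun st hst => ?_
  refine allQ_bnd (allQ_iter _ (hs _ _ _ (len_vi _ _ _ _))) fun st' hst' => ?_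
  refine allQ_comp (fun K hK => ?_) _
  have := k3_short (out_iter_len (len_vi _ _ _ _) _ _ hst).le
    (out_iter_len (len_vi _ _ _ _) _ _ hst').le K hK
  omega

/-! ### The run of the transformed computation -/

theorem len_block (D : ℕ) (f : ℕ → Outcome) (j : ℕ) (hj : j ≤ D + 1) :
    (((List.range (D + 1)).map f).take j).length = j := by
  rw [List.length_take, List.length_map, List.length_range]
  omega

theorem dec_block (D : ℕ) (f : ℕ → Outcome) :
    dec D ((List.range (D + 1)).map f) = [fstO ((List.range (D + 1)).map f)] := by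
  unfold dec
  rw [List.length_map, List.length_range, Nat.div_self (Nat.succ_pos D)]
  show [fstO _] = _
  congr 2
  refine List.map_congr_left fun j hj => ?_
  rw [List.mem_range] at hj
  rw [Nat.zero_mul, Nat.zero_add, List.getD_eq_getElem _ _ (by simpa using hj), List.getElem_map,
    List.getElem_range]

section

variable {D : ℕ} {g : Reg → ℝ} {bc : Reg → ℕ → Src}

/-- The transformed computation. -/
theorem runs_tr {β : Type} (hg : Base g) (hB : ∀ δ, Base (gd D g bc δ)) {d N : ℕ}
    (hL : Low D bc d) (hd : (N + 2) * d ≤ D) {T0 : TT β} (hq : AllQ N T0) {G' : ℝ → ℝ → Prop}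
    {B : ℝ → β} : ∀ (c : ℕ) (s raw : List Outcome), raw.length = s.length * (D + 1) →
    dec D raw = s → (∀ᶠ δ in 𝓝[>] 0, Runs (gd D g bc δ) (G' δ) (fun h => T0 (s ++ h)) (B δ) c) →
    ∃ b, Runs g (Gd qL (D + N) g) (fun h => tr D bc T0 (raw ++ h)) b
      (c * ((D + 1) * (qD.eval N * ((D + 1) * (2 * D + 6)) + 1))) ∧ ∀ᶠ δ in 𝓝[>] 0, B δ = b := by
  intro c
  induction c using Nat.strong_induction_on with
  | _ c ih =>
  intro s raw h1 h2 hS
  obtain ⟨δ₀, hδ₀⟩ := hS.exists
  have key : ∀ h, dec D (raw ++ h) = s ++ dec D h := fun h => dec_append h h1 h2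
  cases hT : T0 (s ++ []) with
  | inl p =>
    have hdone : ∀ δ, Runs (gd D g bc δ) (G' δ) (fun h => T0 (s ++ h)) (B δ) c →
        ∀ h, T0 (s ++ h) = Sum.inl (B δ, h) := by
      intro δ hδ
      rcases runs_inv hδ with h | ⟨q, v, c', h, -⟩
      · exact h
      · exact absurd (h.symm.trans hT) (by simp)
    refine ⟨B δ₀, Runs.done _ _ _ fun h => ?_, hS.mono fun δ hδ => ?_⟩
    · rw [tr_inl (p := (B δ₀, dec D h)) (by rw [key h]; exact hdone δ₀ hδ₀ _), key h,
        List.length_append, Nat.add_sub_cancel, ← h1, List.drop_left]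
    · have e1 := hdone δ hδ []
      have e2 := hdone δ₀ hδ₀ []
      have e3 := Sum.inl.inj (e1.symm.trans e2)
      exact congrArg Prod.fst e3
  | inr q =>
    obtain ⟨K, hK, rfl⟩ := hq _ _ hT
    have hKd : K.length * d ≤ D := (Nat.mul_le_mul_right d hK).trans hd
    set f : ℕ → Outcome := fun j => signOut ((PX D g bc K).coeff j) with hf
    have hdeg : (PX D g bc K).natDegree ≤ D := by
      unfold PX
      split_ifs with h0
      · simp
      · have hwr : [10, K.length - 1] ∈ wr (entK K ++ flProg K.length) := by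
          have hfl := t_ORD2B t_ORD1 K.length (baseReg ∪ wr (entK K)) Set.subset_union_left
            (fun i hi j hj => Or.inr (wrK hi hj)) (fun r hr => by
              rcases hr with hr | hr
              · have : r.headD 0 < 4 := hr
                omega
              · have := wrK_hd hr
                omega)
          obtain ⟨I, hI, hI2⟩ := hfl.2.2.2 (K.length - 1) (by omega)
          exact ⟨I, List.mem_append_right _ hI, hI2⟩
        obtain ⟨I, hI, hI2⟩ := hwr
        rw [← hI2]
        exact deg_WK hg hL hKd I hI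
    have hsign := sign_small (PX D g bc K) hdeg
    obtain ⟨c', hc'⟩ : ∃ c', c = c' + (detK K).1.length + 1 := by
      rcases runs_inv hδ₀ with h | ⟨q, v, c', h, -, -, hc⟩
      · exact absurd ((h []).symm.trans hT) (by simp)
      · have : q = detK K := Sum.inr.inj (h.symm.trans hT)
        exact ⟨c', this ▸ hc⟩
    have hstep : ∀ᶠ δ in 𝓝[>] 0, Runs (gd D g bc δ) (G' δ)
        (fun h => T0 ((s ++ [fstO ((List.range (D + 1)).map f)]) ++ h)) (B δ) c' := by
      filter_upwards [hS, hsign] with δ hδ hδ2
      rcases runs_inv hδ with h | ⟨q, v, c'', h, hv, hr, hc⟩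
      · exact absurd ((h []).symm.trans hT) (by simp)
      · have hqe : q = detK K := Sum.inr.inj (h.symm.trans hT)
        subst hqe
        have hvv := hasVal_unique hv (t_detK N (gd D g bc δ) (hB δ) K hK).1
        rw [eval_PX, ← hvv] at hδ2
        have hcc : c'' = c' := by omega
        rw [hcc, hδ2] at hr
        have e : (fun h => T0 ((s ++ [fstO ((List.range (D + 1)).map f)]) ++ h)) =
            fun h => T0 (s ++ (fstO ((List.range (D + 1)).map f) :: h)) := by
          funext h
          rw [List.append_assoc]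
          rfl
        rw [e]
        exact hr
    have hlenb : ((List.range (D + 1)).map f).length = D + 1 := by simp
    obtain ⟨b, hb1, hb2⟩ := ih c' (by omega) (s ++ [fstO ((List.range (D + 1)).map f)])
      (raw ++ (List.range (D + 1)).map f)
      (by
        rw [List.length_append, List.length_append, hlenb, h1, List.length_singleton]
        ring)
      (by rw [key, dec_block]) hstep
    refine ⟨b, ?_, hb2⟩
    set Q := qD.eval N * ((D + 1) * (2 * D + 6)) with hQ
    set E := c' * ((D + 1) * (Q + 1)) with hE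
    have hind : ∀ i ≤ D + 1, Runs g (Gd qL (D + N) g) (fun h =>
        tr D bc T0 (raw ++ (((List.range (D + 1)).map f).take (D + 1 - i) ++ h))) b
        (E + i * (Q + 1)) := by
      intro i
      induction i with
      | zero =>
        intro _
        have e : (fun h => tr D bc T0 (raw ++ (((List.range (D + 1)).map f).take (D + 1 - 0) ++
            h))) = fun h => tr D bc T0 ((raw ++ (List.range (D + 1)).map f) ++ h) := by
          funext h
          rw [Nat.sub_zero, List.take_of_length_le (by simp), List.append_assoc]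
        rw [e, Nat.zero_mul, Nat.add_zero]
        exact hb1
      | succ i ihi =>
        intro hi
        have hj : D + 1 - (i + 1) < D + 1 := by omega
        set j := D + 1 - (i + 1) with hjd
        have hjs : D + 1 - i = j + 1 := by omega
        obtain ⟨hv, hlen⟩ := t_lqd (k := j) hg hB hL hK hKd (by omega)
        have hr := ihi (by omega)
        rw [hjs] at hr
        have e : (fun h => tr D bc T0 (raw ++ (((List.range (D + 1)).map f).take (j + 1) ++ h))) =
            fun h => tr D bc T0 (raw ++ (((List.range (D + 1)).map f).take j ++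
              (signOut ((PX D g bc K).coeff j) :: h))) := by
          funext h
          rw [List.take_add_one, List.append_assoc]
          congr 3
          rw [List.getElem?_eq_getElem (by simpa using hj), List.getElem_map, List.getElem_range]
          rfl
        rw [e] at hr
        have hfirst : tr D bc T0 (raw ++ (((List.range (D + 1)).map f).take j ++ [])) =
            Sum.inr (lqd D bc (detK K) j) := by
          have h3 : T0 (dec D (raw ++ (((List.range (D + 1)).map f).take j ++ []))) =
              Sum.inr (detK K) := by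
            rw [key, List.append_nil, dec_short (by rw [len_block D f j (by omega)]; exact hj)]
            exact hT
          rw [tr_inr h3]
          congr 2
          rw [List.append_nil, List.length_append, h1, len_block D f j (by omega), mul_comm,
            Nat.mul_add_mod, Nat.mod_eq_of_lt hj]
        refine t_TT.2.2.2 _ _ _ _ _ _ _ _ (fun _ h => h) ?_
          (Runs.step _ _ _ (lqd D bc (detK K) j) _ hfirst hv hr)
        rw [Nat.succ_mul]
        omega
    have := hind (D + 1) le_rfl
    have e : (fun h => tr D bc T0 (raw ++ (((List.range (D + 1)).map f).take (D + 1 - (D + 1)) ++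
        h))) = fun h => tr D bc T0 (raw ++ h) := by
      funext h
      rw [Nat.sub_self, List.take_zero, List.nil_append]
    rw [e] at this
    refine t_TT.2.2.2 _ _ _ _ _ _ _ _ (fun _ h => h) ?_ this
    rw [hE, ← Nat.succ_mul]
    exact Nat.mul_le_mul_right _ (by omega)

/-- The transformed computation. -/
theorem runs_tr' {β : Type} (hg : Base g) (hB : ∀ δ, Base (gd D g bc δ)) {d N : ℕ}
    (hL : Low D bc d) (hd : (N + 2) * d ≤ D) {T0 : TT β} (hq : AllQ N T0) {G' : ℝ → ℝ → Prop}
    {B : ℝ → β} {c : ℕ} (h : ∀ᶠ δ in 𝓝[>] 0, Runs (gd D g bc δ) (G' δ) T0 (B δ) c) :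
    ∃ b, Runs g (Gd qL (D + N) g) (tr D bc T0) b
      (c * ((D + 1) * (qD.eval N * ((D + 1) * (2 * D + 6)) + 1))) ∧ ∀ᶠ δ in 𝓝[>] 0, B δ = b :=
  runs_tr hg hB hL hd hq c [] [] (by simp) (dec_short (by simp)) h

end

end Pool.Agent.H37.TN
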